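import Pool.Agent.W_6acff7b_h70.JDefs
import Pool.Agent.W_MP_6acff7_h70.NearOrth

/-!
# Revealing one arc

`arcY P` = the `y : A n` with `y u = v` for all `(u, v) ∈ P`.

PROOF (`arc_fwd_le`).  Let `q ∉ dom P`.  `arcY P` is the disjoint union over all `x` of `arcY (insert (q, x) P)` (`x = y q`), and
`arcY (insert (q, x) P) = ∅` if `x ∈ ran P` (injectivity).  For `x, x' ∉ ran P` the sets `arcY (insert (q, x) P)` and
`arcY (insert (q, x') P)` have the same number of elements: by `exists_move` (`NearOrth.lean`, with `C = ran P`,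
`C.card ≤ P.card`, `P.card + 3 ≤ n`) there is `h : A n` fixing `ran P` pointwise with `h x = x'`, and `y ↦ h y` is a bijection.
If `arcY P` is nonempty then `P` is a partial injection, `ran P` has exactly `P.card` elements, and so
`(arcY P).card = (n - P.card) * (arcY (insert (q, x) P)).card` for `x ∉ ran P`.  (If `arcY P = ∅` everything is `0`.)
So with `K = (arcY (insert (q, x) P)).card` (independent of `x ∉ ran P`):
`∑_{arcY P} F ≤ ∑_{x ∉ ran P} (c + [x ∈ B] d) K ≤ ((n - P.card) c + B.card d) K = (c + B.card/(n - P.card) d) (arcY P).card`.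
`arc_bwd_le`: the same with `s ∉ ran P`, `p = y⁻¹ s ∉ dom P`, `y ↦ y h⁻¹`, `h` fixing `dom P` pointwise, `h p = p'`
(or apply `arc_fwd_le` to `y ↦ y⁻¹` and the reversed arcs).
-/

open Finset

namespace Pool.Agent.RCG

variable {n : ℕ}

theorem Arc_mem {P : Finset (Fin n × Fin n)} {y : A n} :
    y ∈ arcY P ↔ ∀ a ∈ P, y.1 a.1 = a.2 := by
  simp only [arcY, mem_filter, mem_univ, true_and]

theorem Arc_mem_insert {P : Finset (Fin n × Fin n)} {q x : Fin n} {y : A n} :
    y ∈ arcY (insert (q, x) P) ↔ y.1 q = x ∧ y ∈ arcY P := by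
  rw [Arc_mem, Arc_mem]
  simp only [mem_insert, forall_eq_or_imp]

theorem Arc_sum {P : Finset (Fin n × Fin n)} (q : Fin n) (F : A n → ℝ) :
    ∑ y ∈ arcY P, F y = ∑ x : Fin n, ∑ y ∈ arcY (insert (q, x) P), F y := by
  classical
  rw [← Finset.sum_fiberwise (arcY P) (fun y : A n => y.1 q) F]
  refine Finset.sum_congr rfl fun x _ => Finset.sum_congr ?_ fun _ _ => rfl
  ext y
  rw [mem_filter, Arc_mem_insert, and_comm]

theorem Arc_empty {P : Finset (Fin n × Fin n)} {q x : Fin n} (hq : ∀ a ∈ P, a.1 ≠ q)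
    (hx : x ∈ P.image Prod.snd) : arcY (insert (q, x) P) = ∅ := by
  rw [Finset.eq_empty_iff_forall_notMem]
  intro y hy
  rw [Arc_mem_insert, Arc_mem] at hy
  obtain ⟨a, ha, rfl⟩ := mem_image.1 hx
  exact hq a ha (y.1.injective ((hy.2 a ha).trans hy.1.symm))

theorem Arc_card_le {P : Finset (Fin n × Fin n)} (hP : P.card + 3 ≤ n) {q x x' : Fin n}
    (hx : x ∉ P.image Prod.snd) (hx' : x' ∉ P.image Prod.snd) :
    (arcY (insert (q, x) P)).card ≤ (arcY (insert (q, x') P)).card := by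
  classical
  have hC : (P.image Prod.snd).card + 3 ≤ n := by
    have := Finset.card_image_le (s := P) (f := Prod.snd)
    omega
  obtain ⟨h, h1, h2⟩ := exists_move (P.image Prod.snd) hC x x' hx hx'
  refine Finset.card_le_card_of_injOn (fun y => h * y) ?_ ?_
  · intro y hy
    have hy' := Arc_mem_insert.1 hy
    refine Arc_mem_insert.2 ⟨?_, ?_⟩
    · show h.1 (y.1 q) = x'
      rw [hy'.1, h2]
    · rw [Arc_mem]
      intro a ha
      show h.1 (y.1 a.1) = a.2
      rw [Arc_mem.1 hy'.2 a ha]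
      exact h1 a.2 (mem_image_of_mem _ ha)
  · intro y _ y' _ hyy
    exact mul_left_cancel hyy

theorem Arc_swap (P : Finset (Fin n × Fin n)) (F : A n → ℝ) :
    ∑ y ∈ arcY P, F y = ∑ y ∈ arcY (P.image Prod.swap), F y⁻¹ := by
  classical
  refine Finset.sum_nbij' (fun y => y⁻¹) (fun y => y⁻¹) ?_ ?_ ?_ ?_ ?_
  · intro y hy
    rw [Arc_mem] at hy ⊢
    intro a ha
    obtain ⟨b, hb, rfl⟩ := mem_image.1 ha
    show y.1⁻¹ b.2 = b.1
    rw [Equiv.Perm.inv_eq_iff_eq]
    exact (hy b hb).symm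
  · intro y hy
    rw [Arc_mem] at hy ⊢
    intro a ha
    have h1 : y.1 a.2 = a.1 := hy _ (mem_image_of_mem Prod.swap ha)
    show y.1⁻¹ a.1 = a.2
    rw [Equiv.Perm.inv_eq_iff_eq]
    exact h1.symm
  · intro y _
    exact inv_inv y
  · intro y _
    exact inv_inv y
  · intro y _
    rw [inv_inv]

theorem Arc_swap_card (P : Finset (Fin n × Fin n)) :
    ((arcY P).card : ℝ) = (arcY (P.image Prod.swap)).card := by
  have h := Arc_swap P (fun _ => 1)
  simpa using h

theorem arc_fwd_le {P : Finset (Fin n × Fin n)} (hP : P.card + 3 ≤ n) {q : Fin n}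
    (hq : ∀ a ∈ P, a.1 ≠ q) (F : A n → ℝ) (c d : ℝ) (hd : 0 ≤ d) (B : Finset (Fin n))
    (h1 : ∀ x, x ∉ B → (∀ a ∈ P, a.2 ≠ x) →
      ∑ y ∈ arcY (insert (q, x) P), F y ≤ c * (arcY (insert (q, x) P)).card)
    (h2 : ∀ x ∈ B, (∀ a ∈ P, a.2 ≠ x) →
      ∑ y ∈ arcY (insert (q, x) P), F y ≤ (c + d) * (arcY (insert (q, x) P)).card) :
    ∑ y ∈ arcY P, F y ≤ (c + (B.card : ℝ) / ((n : ℝ) - P.card) * d) * (arcY P).card := by
  classical
  rcases (arcY P).eq_empty_or_nonempty with h0 | ⟨y0, hy0⟩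
  · rw [h0]
    simp
  set C := P.image Prod.snd with hCdef
  have hinj : Set.InjOn (Prod.snd : Fin n × Fin n → Fin n) (P : Set (Fin n × Fin n)) := by
    intro a ha a' ha' haa
    rw [Arc_mem] at hy0
    have e1 := hy0 a ha
    have e2 := hy0 a' ha'
    have e3 : a.1 = a'.1 := y0.1.injective (by rw [e1, e2]; exact haa)
    exact Prod.ext e3 haa
  have hCc : C.card = P.card := Finset.card_image_of_injOn hinj
  have hX : ((univ \ C).card : ℝ) = (n : ℝ) - P.card := by
    rw [Finset.card_sdiff_of_subset (Finset.subset_univ C), Finset.card_univ, Fintype.card_fin, hCc,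
      Nat.cast_sub (by omega)]
  obtain ⟨x0, hx0⟩ : ∃ x0 : Fin n, x0 ∉ C := by
    by_contra hcon
    push Not at hcon
    have h3 : (Finset.univ : Finset (Fin n)) ⊆ C := fun x _ => hcon x
    have h4 := Finset.card_le_card h3
    rw [Finset.card_univ, Fintype.card_fin] at h4
    omega
  set K : ℕ := (arcY (insert (q, x0) P)).card with hK
  have hKx : ∀ x ∉ C, (arcY (insert (q, x) P)).card = K := fun x hx =>
    le_antisymm (Arc_card_le hP hx hx0) (Arc_card_le hP hx0 hx)
  have hsum : ∀ F' : A n → ℝ, ∑ y ∈ arcY P, F' y =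
      ∑ x ∈ univ \ C, ∑ y ∈ arcY (insert (q, x) P), F' y := by
    intro F'
    rw [Arc_sum q F']
    symm
    refine Finset.sum_subset (Finset.subset_univ _) fun x _ hx => ?_
    have hxC : x ∈ C := by
      by_contra hcon
      exact hx (mem_sdiff.2 ⟨mem_univ x, hcon⟩)
    rw [Arc_empty hq hxC, Finset.sum_empty]
  have hcard : ((arcY P).card : ℝ) = ((n : ℝ) - P.card) * K := by
    have e1 := hsum (fun _ => 1)
    simp only [Finset.sum_const, nsmul_eq_mul, mul_one] at e1
    rw [e1, ← hX, ← nsmul_eq_mul, ← Finset.sum_const]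
    refine Finset.sum_congr rfl fun x hx => ?_
    rw [hKx x (mem_sdiff.1 hx).2]
  have hbd : ∀ x ∈ univ \ C, ∑ y ∈ arcY (insert (q, x) P), F y ≤
      (c + if x ∈ B then d else 0) * K := by
    intro x hx
    have hxC := (mem_sdiff.1 hx).2
    have hxa : ∀ a ∈ P, a.2 ≠ x := fun a ha h => hxC (h ▸ mem_image_of_mem _ ha)
    by_cases hxB : x ∈ B
    · rw [if_pos hxB, ← hKx x hxC]
      exact h2 x hxB hxa
    · rw [if_neg hxB, add_zero, ← hKx x hxC]
      exact h1 x hxB hxa
  have hpos : (0 : ℝ) < (n : ℝ) - P.card := by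
    have : (P.card : ℝ) + 3 ≤ n := by exact_mod_cast hP
    linarith
  have hBc : (((univ \ C).filter (fun x => x ∈ B)).card : ℝ) ≤ B.card := by
    have : ((univ \ C).filter (fun x => x ∈ B)).card ≤ B.card :=
      Finset.card_le_card fun x hx => (mem_filter.1 hx).2
    exact_mod_cast this
  calc ∑ y ∈ arcY P, F y = ∑ x ∈ univ \ C, ∑ y ∈ arcY (insert (q, x) P), F y := hsum F
    _ ≤ ∑ x ∈ univ \ C, (c + if x ∈ B then d else 0) * K := Finset.sum_le_sum hbd
    _ = (((n : ℝ) - P.card) * c +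
        (((univ \ C).filter (fun x => x ∈ B)).card : ℝ) * d) * K := by
        rw [← Finset.sum_mul, Finset.sum_add_distrib, Finset.sum_const, nsmul_eq_mul, hX,
          ← Finset.sum_filter, Finset.sum_const, nsmul_eq_mul]
    _ ≤ (((n : ℝ) - P.card) * c + (B.card : ℝ) * d) * K := by
        refine mul_le_mul_of_nonneg_right ?_ (Nat.cast_nonneg K)
        have := mul_le_mul_of_nonneg_right hBc hd
        linarith
    _ = (c + (B.card : ℝ) / ((n : ℝ) - P.card) * d) * (arcY P).card := by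
        rw [hcard]
        field_simp

theorem arc_bwd_le {P : Finset (Fin n × Fin n)} (hP : P.card + 3 ≤ n) {s : Fin n}
    (hs : ∀ a ∈ P, a.2 ≠ s) (F : A n → ℝ) (c d : ℝ) (hd : 0 ≤ d) (B : Finset (Fin n))
    (h1 : ∀ p, p ∉ B → (∀ a ∈ P, a.1 ≠ p) →
      ∑ y ∈ arcY (insert (p, s) P), F y ≤ c * (arcY (insert (p, s) P)).card)
    (h2 : ∀ p ∈ B, (∀ a ∈ P, a.1 ≠ p) →
      ∑ y ∈ arcY (insert (p, s) P), F y ≤ (c + d) * (arcY (insert (p, s) P)).card) :
    ∑ y ∈ arcY P, F y ≤ (c + (B.card : ℝ) / ((n : ℝ) - P.card) * d) * (arcY P).card := by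
  classical
  have hc' : (P.image Prod.swap).card = P.card :=
    Finset.card_image_of_injective P Prod.swap_injective
  have hins : ∀ p : Fin n, (insert (p, s) P).image Prod.swap = insert (s, p) (P.image Prod.swap) :=
    fun p => by rw [Finset.image_insert]; rfl
  have h := arc_fwd_le (P := P.image Prod.swap) (by rw [hc']; exact hP) (q := s)
    (by
      intro a ha
      obtain ⟨b, hb, rfl⟩ := mem_image.1 ha
      exact hs b hb) (fun y => F y⁻¹) c d hd B
    (by
      intro p hp ha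
      have e1 := h1 p hp fun b hb => ha _ (mem_image_of_mem Prod.swap hb)
      rw [Arc_swap, Arc_swap_card, hins] at e1
      exact e1)
    (by
      intro p hp ha
      have e1 := h2 p hp fun b hb => ha _ (mem_image_of_mem Prod.swap hb)
      rw [Arc_swap, Arc_swap_card, hins] at e1
      exact e1)
  rw [hc', ← Arc_swap, ← Arc_swap_card] at h
  exact h

end Pool.Agent.RCG
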