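import Pool.Agent.W_MP_6acff7_h70.StepAB

/-!
# The base of the recursion

PROOF.  `stepA` with `R = 54`, `T = ⌊n/x^3⌋₊` and `hasFam_of_hasX` with `L = 55` (`1/55 ≤ exp (-4)`: `exp 4 ≤ 55`, `exp 1 < 2.7182818286`),
`⌊n/x^3⌋₊ ≤ (1/x^3) n`; failure `54/⌊n/x^3⌋₊`, which tends to `0`.
-/

open Finset Filter Topology

namespace Pool.Agent.RCG

theorem BaseStep_floor :
    Tendsto (fun n : ℕ => ⌊(n : ℝ) / Real.log n ^ 3⌋₊) atTop atTop := by
  have h1 : Tendsto (fun x : ℝ => Real.log x ^ 3 / (1 * x + 0)) atTop (𝓝 0) :=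
    Real.tendsto_pow_log_div_mul_add_atTop 1 0 3 one_ne_zero
  have h2 : Tendsto (fun x : ℝ => (Real.log x ^ 3 / (1 * x + 0))⁻¹) atTop atTop := by
    refine Tendsto.inv_tendsto_nhdsGT_zero (tendsto_nhdsWithin_iff.2 ⟨h1, ?_⟩)
    filter_upwards [eventually_gt_atTop 1] with x hx
    have h3 : 0 < Real.log x := Real.log_pos hx
    have h4 : 0 < 1 * x + 0 := by linarith
    exact Set.mem_Ioi.2 (by positivity)
  have h3 : Tendsto (fun x : ℝ => x / Real.log x ^ 3) atTop atTop := by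
    refine h2.congr fun x => ?_
    rw [inv_div, one_mul, add_zero]
  exact tendsto_nat_floor_atTop.comp (h3.comp tendsto_natCast_atTop_atTop)

theorem BaseStep_exp : 1 / ((55 : ℕ) : ℝ) ≤ Real.exp (-4) := by
  rw [Real.exp_neg, one_div]
  refine inv_anti₀ (Real.exp_pos _) ?_
  have h1 : Real.exp 4 = Real.exp 1 ^ 4 := by
    rw [← Real.exp_nat_mul]
    norm_num
  rw [h1]
  calc Real.exp 1 ^ 4 ≤ (2.7182818286 : ℝ) ^ 4 :=
        pow_le_pow_left₀ (Real.exp_pos 1).le Real.exp_one_lt_d9.le 4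
    _ ≤ ((55 : ℕ) : ℝ) := by norm_num

theorem baseStep : ∃ ε : ℕ → ℝ, Tendsto ε atTop (𝓝 0) ∧ ∀ᶠ n : ℕ in atTop,
    Step n 1 (ε n) (fun _ => True) (HasFam n (1 / Real.log n ^ 3) 55 4) := by
  refine ⟨fun n => ((54 : ℕ) : ℝ) / (⌊(n : ℝ) / Real.log n ^ 3⌋₊ : ℝ), ?_, ?_⟩
  · exact (tendsto_const_div_atTop_nhds_zero_nat ((54 : ℕ) : ℝ)).comp BaseStep_floor
  · filter_upwards [eventually_ge_atTop 56, BaseStep_floor.eventually_gt_atTop 0] with n hn hT S hS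
    refine (pr_mono fun z hz => ?_).trans (stepA (R := 54) hn hT S hS)
    intro hq
    apply hz
    have hlog : 0 < Real.log (n : ℝ) := Real.log_pos (by exact_mod_cast (by omega : 1 < n))
    refine hasFam_of_hasX (R := 54) (L := 55) (by norm_num) (by norm_num) ?_ BaseStep_exp _ hq
    have h1 : (⌊(n : ℝ) / Real.log n ^ 3⌋₊ : ℝ) ≤ (n : ℝ) / Real.log n ^ 3 :=
      Nat.floor_le (by positivity)
    rw [one_div_mul_eq_div]
    exact h1

end Pool.Agent.RCG
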