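import Pool.Agent.W_6acff7b_h70.JDefs
import Pool.Agent.W_MP_6acff7_h70.Cent

/-!
# Centralisers

`cent_of_meets`: see the proof of `card_centralizer_le` (`Cent.lean`): an element commuting with `g` is determined by its
restriction to `O` (for `n = 0` both sides are `1`; `Nat.card (Fin 0 → ..)`).
`goodEl_conj`: `fixN` and the order of the centraliser are invariant under conjugation (`u * g * u⁻¹`).
-/

open Finset

namespace Pool.Agent.RCG

variable {n : ℕ}

theorem cent_of_meets (g : A n) (O : Finset (Fin n)) (h : ∀ p, ∃ r ∈ O, g.1.SameCycle r p) :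
    Nat.card (Subgroup.centralizer ({g} : Set (A n))) ≤ n ^ O.card := by
  classical
  have hinj : Function.Injective
      (fun (u : Subgroup.centralizer ({g} : Set (A n))) (o : O) => u.1.1 o.1) := by
    intro u v huv
    have hcomm : ∀ w : Subgroup.centralizer ({g} : Set (A n)), Commute w.1.1 g.1 := by
      intro w
      have h := w.2
      rw [Subgroup.mem_centralizer_singleton_iff] at h
      have h' := congrArg Subtype.val h
      exact h'
    apply Subtype.ext
    apply Subtype.ext
    ext p
    obtain ⟨r, hr, i, hi⟩ := h p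
    have h1 : ∀ w : Subgroup.centralizer ({g} : Set (A n)), w.1.1 p = (g.1 ^ i) (w.1.1 r) := by
      intro w
      rw [← hi, ← Equiv.Perm.mul_apply, ← Equiv.Perm.mul_apply]
      congr 1
      exact (hcomm w).zpow_right i
    have h2 : u.1.1 r = v.1.1 r := congrFun huv ⟨r, hr⟩
    rw [h1 u, h1 v, h2]
  have hcard := Nat.card_le_card_of_injective _ hinj
  have hO' : Nat.card O = O.card := by
    rw [Nat.card_eq_fintype_card, Fintype.card_coe]
  rw [Nat.card_fun, Nat.card_fin, hO'] at hcard
  exact hcard

theorem fixN_conj (u g : Equiv.Perm (Fin n)) : fixN (u * g * u⁻¹) = fixN g := by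
  unfold fixN
  refine Finset.card_equiv u⁻¹ ?_
  intro p
  simp only [Finset.mem_filter, Finset.mem_univ, true_and, Equiv.Perm.mul_apply]
  constructor
  · intro h
    have h2 := congrArg (fun q => u⁻¹ q) h
    simpa using h2
  · intro h
    rw [h]
    simp

theorem card_cent_conj (u g : A n) :
    Nat.card (Subgroup.centralizer ({u * g * u⁻¹} : Set (A n))) =
      Nat.card (Subgroup.centralizer ({g} : Set (A n))) := by
  refine Nat.card_congr ?_
  refine ((MulAut.conj u⁻¹).toEquiv.subtypeEquiv ?_)
  intro w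
  simp only [Subgroup.mem_centralizer_singleton_iff]
  constructor
  · intro h
    change (u⁻¹ * w * u⁻¹⁻¹) * g = g * (u⁻¹ * w * u⁻¹⁻¹)
    have h2 := congrArg (fun q => u⁻¹ * q * u) h
    simp only [mul_assoc] at h2 ⊢
    simpa using h2
  · intro h
    have h' : (u⁻¹ * w * u⁻¹⁻¹) * g = g * (u⁻¹ * w * u⁻¹⁻¹) := h
    have h2 := congrArg (fun q => u * q * u⁻¹) h'
    simp only [mul_assoc] at h2 ⊢
    simpa using h2

/-- Goodness is invariant under conjugation. -/
theorem goodEl_conj {ψ : ℝ} {T : ℕ} {g : A n} (u : A n) (h : GoodEl ψ T (u * g * u⁻¹)) :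
    GoodEl ψ T g := by
  obtain ⟨h1, h2⟩ := h
  refine ⟨?_, ?_⟩
  · have h3 : (u * g * u⁻¹).1 = u.1 * g.1 * u.1⁻¹ := rfl
    rw [h3, fixN_conj] at h1
    exact h1
  · rw [card_cent_conj] at h2
    exact h2

end Pool.Agent.RCG
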