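import Pool.Agent.W_6acff7b_h70.JEig

/-!
# Properties of the systems of joint eigenvalues

PROOF.  Let `V = JE α ≠ ⊥`, `e = eV V`; by `JE_eval` (`eV_conj`, `eV_inv`, `eV_mem`) `e g = α g * e 1`, `e 1 > 0`.  So `α g = e g / e 1`:
`ch_one`, `ch_inv`, `ch_conj`; `ch_mem`: the function `α` is `(e 1)⁻¹ • e`.  `ch_abs`: `‖cavg (regR G) g u‖ ≤ ‖u‖` (`cavg_norm_le`) for
`0 ≠ u ∈ V`.  `ch_mul` (cyclic): `α (g h) = α (h g)` from `ch_conj`.
`ch_fun`: evaluate `cavg (regR G) g u = α g • u`, `u = α` (`ch_mem`), at `h`: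
`(1/(2|G|)) ∑_z (α (h z⁻¹ g z) + α (h z⁻¹ g⁻¹ z)) = α g α h`, and `α (h x) = α (x h)`.
`ch_pos`: by `eV_inner`, `∑_i ∑_j e ((w i)⁻¹ w j) = ‖∑_i P δ_{w i}‖² ≥ 0`; divide by `e 1`.
-/

open Finset

namespace Pool.Agent.RCG

variable {G : Type*} [Group G] [Fintype G] {α : G → ℝ}

private theorem ch_pos1 (h : IsCh α) : 0 < eV (JE α) 1 := eV_one_pos (JE_biv α) h

private theorem ch_ev (_h : IsCh α) (g : G) : eV (JE α) g = α g * eV (JE α) 1 :=
  JE_eval (eV_mem _) (eV_conj (JE_biv α)) (eV_inv (JE_biv α)) g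

theorem ch_one (h : IsCh α) : α 1 = 1 := by
  have h1 := ch_ev h 1
  have h2 := ch_pos1 h
  have h3 : (α 1 - 1) * eV (JE α) 1 = 0 := by linarith
  rcases mul_eq_zero.1 h3 with h4 | h4
  · linarith
  · linarith

theorem ch_inv (h : IsCh α) (g : G) : α g⁻¹ = α g := by
  have h1 := ch_ev h g
  have h2 := ch_ev h g⁻¹
  rw [eV_inv (JE_biv α), h1] at h2
  exact (mul_right_cancel₀ (ch_pos1 h).ne' h2).symm

theorem ch_conj (h : IsCh α) (a g : G) : α (a⁻¹ * g * a) = α g := by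
  have h1 := ch_ev h g
  have h2 := ch_ev h (a⁻¹ * g * a)
  rw [eV_conj (JE_biv α), h1] at h2
  exact (mul_right_cancel₀ (ch_pos1 h).ne' h2).symm

theorem ch_mul (h : IsCh α) (a b : G) : α (a * b) = α (b * a) := by
  have h1 := ch_conj h a (a * b)
  rw [← mul_assoc, inv_mul_cancel, one_mul] at h1
  exact h1.symm

theorem ch_mem (h : IsCh α) : (WithLp.toLp 2 α : EuclideanSpace ℝ G) ∈ JE α := by
  have h1 : (WithLp.toLp 2 α : EuclideanSpace ℝ G) = (eV (JE α) 1)⁻¹ • eV (JE α) := by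
    ext g
    rw [PiLp.smul_apply, smul_eq_mul, ch_ev h g]
    have := (ch_pos1 h).ne'
    field_simp
  rw [h1]
  exact (JE α).smul_mem _ (eV_mem _)

theorem ch_abs (h : IsCh α) (g : G) : |α g| ≤ 1 := by
  obtain ⟨u, hu, hu0⟩ := (Submodule.ne_bot_iff _).1 h
  have h1 := (mem_JE.1 hu) g
  have h2 := cavg_norm_le (IdealA_orthR (G := G)) g u
  rw [h1, norm_smul, Real.norm_eq_abs] at h2
  have h3 : 0 < ‖u‖ := norm_pos_iff.2 hu0
  by_contra hc
  push Not at hc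
  nlinarith

theorem ch_fun (h : IsCh α) (a b : G) :
    ∑ z : G, (α (z⁻¹ * a * z * b) + α (z⁻¹ * a⁻¹ * z * b)) =
      2 * (Fintype.card G : ℝ) * (α a * α b) := by
  have hN : (Fintype.card G : ℝ) ≠ 0 := by exact_mod_cast Fintype.card_ne_zero
  have h1 := (mem_JE.1 (ch_mem h)) a
  have h2 := congrArg (fun f : EuclideanSpace ℝ G => f b) h1
  have h3 : (cavg (regR G) a (WithLp.toLp 2 α : EuclideanSpace ℝ G)) b =
      (2 * (Fintype.card G : ℝ))⁻¹ *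
        ∑ z : G, (α (z⁻¹ * a * z * b) + α (z⁻¹ * a⁻¹ * z * b)) := by
    unfold cavg
    rw [LinearMap.smul_apply, LinearMap.sum_apply, PiLp.smul_apply, smul_eq_mul,
      WithLp.ofLp_sum, Finset.sum_apply]
    congr 1
    refine Finset.sum_congr rfl fun z _ => ?_
    rw [LinearMap.add_apply, PiLp.add_apply, regR_apply, regR_apply]
    change α (b * (z⁻¹ * a * z)) + α (b * (z⁻¹ * a⁻¹ * z)) = _
    rw [ch_mul h b, ch_mul h b]
  have h4 : (α a • (WithLp.toLp 2 α : EuclideanSpace ℝ G)) b = α a * α b := rfl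
  have h5 : (2 * (Fintype.card G : ℝ))⁻¹ *
        ∑ z : G, (α (z⁻¹ * a * z * b) + α (z⁻¹ * a⁻¹ * z * b)) = α a * α b := by
    rw [← h3, ← h4]
    exact h2
  rw [← h5]
  field_simp

theorem ch_pos (h : IsCh α) {ι : Type*} [Fintype ι] (w : ι → G) :
    0 ≤ ∑ i, ∑ j, α ((w i)⁻¹ * w j) := by
  have h1 : (∑ i, ∑ j, α ((w i)⁻¹ * w j)) * eV (JE α) 1 =
      inner ℝ (∑ i, (JE α).starProjection (pm (w i))) (∑ i, (JE α).starProjection (pm (w i))) := by
    rw [sum_inner, Finset.sum_mul]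
    refine Finset.sum_congr rfl fun i _ => ?_
    rw [inner_sum, Finset.sum_mul]
    refine Finset.sum_congr rfl fun j _ => ?_
    rw [eV_inner (JE_biv α), ← ch_ev h]
  have h2 : 0 ≤ (∑ i, ∑ j, α ((w i)⁻¹ * w j)) * eV (JE α) 1 := by
    rw [h1]
    exact real_inner_self_nonneg
  exact nonneg_of_mul_nonneg_left h2 (ch_pos1 h)

end Pool.Agent.RCG
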