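import Pool.Agent.W_6acff7b_h70.Arc

/-!
# Revealing the walk `p ↦ y⁻¹ g1 y g2 p`

PROOF of `clo_bound`.  `C ≥ 0` (`hC ∅`).  `δ = 4(m+2)/n`.  Induction on `k`, for all `P`, `p`; `k = 0`: the filter is empty.
`k + 1`: the filtered sum is `∑_{arcY P} F'` with `F' y = if clo .. then F y else 0`, `0 ≤ F' ≤ F`.  `q = g2 p ∉ dom P`.  If
`g2 p = p` then `F' = 0`.  Otherwise `arc_fwd_le` with `B = ` the `x` with `g1 x ∈ ran P` (`B.card ≤ P.card`), `d = C`,
`c = k δ C + ((P.card + 2)/(n - P.card - 1)) C`: for `x ∈ B` the sum over `arcY (insert (q,x) P)` of `F'` is at most that of `F`,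
`≤ C * card` (`hC`, `P.card + 1 ≤ m`).  For `x ∉ B`, `x ∉ ran P`: put `s = g1 x`.  If `s = x` then `F' = 0` on
`arcY (insert (q,x) P)` (turn back, `y q = x`).  Otherwise `s ∉ ran (insert (q,x) P)` and `arc_bwd_le` for
`P' = insert (q,x) P`, `B' = {t0} ∪ {p' | g2 p' ∈ dom P'}` (`B'.card ≤ P.card + 2`), `d = C`, `c = k δ C`:
for `p' ∈ B'` bound by `C` (`P.card + 2 ≤ m`); for `p' ∉ B'` and `y ∈ arcY (insert (p',s) P')` we have
`y⁻¹ (g1 (y (g2 p))) = p' ≠ t0`, so `clo .. (k+1) p → clo .. k p'`; if `g2 p' = p'` then `clo .. k p'` is false and the sum is `0`;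
if `g2 p' ≠ p'` then `g2 p' ∉ dom (insert (p',s) P')` and the induction hypothesis applies
(`(insert (p',s) P').card + 2 k ≤ P.card + 2 + 2 k ≤ m`).
Total: `k δ C + (P.card+2)/(n - P.card - 1) C + P.card/(n - P.card) C ≤ (k+1) δ C` since `4 m + 8 ≤ n`.
-/

open Finset

namespace Pool.Agent.RCG

variable {n : ℕ}

theorem CloBound_nonneg (F : A n → ℝ) (hF : ∀ y, 0 ≤ F y) (C : ℝ)
    (h : ∑ y ∈ arcY (∅ : Finset (Fin n × Fin n)), F y ≤
      C * (arcY (∅ : Finset (Fin n × Fin n))).card) : 0 ≤ C := by
  have h1 : 0 < (arcY (∅ : Finset (Fin n × Fin n))).card := by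
    rw [Finset.card_pos]
    exact ⟨1, Arc_mem.2 (by simp)⟩
  have h2 : (0 : ℝ) < (arcY (∅ : Finset (Fin n × Fin n))).card := by exact_mod_cast h1
  have h3 : 0 ≤ ∑ y ∈ arcY (∅ : Finset (Fin n × Fin n)), F y :=
    Finset.sum_nonneg fun y _ => hF y
  by_contra h4
  push Not at h4
  have h5 := mul_neg_of_neg_of_pos h4 h2
  linarith

open Classical in
theorem clo_bound {m : ℕ} (hm : 4 * m + 8 ≤ n) (g1 g2 : Equiv.Perm (Fin n)) (F : A n → ℝ)
    (hF : ∀ y, 0 ≤ F y) (C : ℝ)
    (hC : ∀ P : Finset (Fin n × Fin n), P.card ≤ m → ∑ y ∈ arcY P, F y ≤ C * (arcY P).card)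
    (t0 : Fin n) (k : ℕ) : ∀ (P : Finset (Fin n × Fin n)) (p : Fin n), P.card + 2 * k ≤ m →
    (∀ a ∈ P, a.1 ≠ g2 p) →
    ∑ y ∈ (arcY P).filter (fun y => clo y.1 g1 g2 t0 k p), F y ≤
      k * (4 * ((m : ℝ) + 2) / n) * C * (arcY P).card := by
  have hn : 0 < n := by omega
  have hnR : (0 : ℝ) < n := by exact_mod_cast hn
  have hC0 : 0 ≤ C := CloBound_nonneg F hF C (by simpa using hC ∅ (by simp))
  obtain ⟨δ, hδ⟩ : ∃ δ : ℝ, δ = 4 * ((m : ℝ) + 2) / n := ⟨_, rfl⟩
  have hδ0 : 0 ≤ δ := by rw [hδ]; positivity
  rw [← hδ]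
  induction k with
  | zero =>
    intro P p _ _
    rw [Finset.filter_false_of_mem (fun y _ => by simp [clo])]
    simp
  | succ k ih =>
    intro P p hcard hdom
    have hPm : P.card + 2 ≤ m := by omega
    have hmn : 4 * (m : ℝ) + 8 ≤ n := by exact_mod_cast hm
    have hPR : (P.card : ℝ) + 2 ≤ m := by exact_mod_cast hPm
    have hP0 : (0 : ℝ) ≤ P.card := Nat.cast_nonneg _
    have hkδ : 0 ≤ (k : ℝ) * δ * C := by positivity
    obtain ⟨F', hF'⟩ : ∃ F' : A n → ℝ,
        F' = fun y => if clo y.1 g1 g2 t0 (k + 1) p then F y else 0 := ⟨_, rfl⟩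
    have hF'le : ∀ y, F' y ≤ F y := by
      intro y
      rw [hF']
      beta_reduce
      split_ifs
      · exact le_rfl
      · exact hF y
    have hsum : ∑ y ∈ (arcY P).filter (fun y => clo y.1 g1 g2 t0 (k + 1) p), F y =
        ∑ y ∈ arcY P, F' y := by
      rw [Finset.sum_filter, hF']
    rw [hsum]
    obtain ⟨c, hc⟩ : ∃ c : ℝ, c = k * δ * C + ((P.card : ℝ) + 2) / ((n : ℝ) - P.card - 1) * C :=
      ⟨_, rfl⟩
    have hden : (0 : ℝ) < (n : ℝ) - P.card - 1 := by linarith
    have hc0 : 0 ≤ c := by
      rw [hc]
      have : 0 ≤ ((P.card : ℝ) + 2) / ((n : ℝ) - P.card - 1) * C := by positivity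
      linarith
    have hBc : ((P.image (fun a => g1⁻¹ a.2)).card : ℝ) ≤ P.card := by
      exact_mod_cast Finset.card_image_le
    have hmain := arc_fwd_le (P := P) (by omega) hdom F' c C hC0
      (P.image (fun a => g1⁻¹ a.2)) ?_ ?_
    · refine hmain.trans ?_
      refine mul_le_mul_of_nonneg_right ?_ (Nat.cast_nonneg _)
      have hd1 : (0 : ℝ) < (n : ℝ) - P.card := by linarith
      have e1 : ((P.image (fun a => g1⁻¹ a.2)).card : ℝ) / ((n : ℝ) - P.card) * C ≤
          (P.card : ℝ) * 2 / n * C := by
        refine mul_le_mul_of_nonneg_right ?_ hC0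
        rw [div_le_div_iff₀ hd1 hnR]
        nlinarith
      have e2 : ((P.card : ℝ) + 2) / ((n : ℝ) - P.card - 1) * C ≤
          ((P.card : ℝ) + 2) * 2 / n * C := by
        refine mul_le_mul_of_nonneg_right ?_ hC0
        rw [div_le_div_iff₀ hden hnR]
        nlinarith
      have e3 : (P.card : ℝ) * 2 / n * C + ((P.card : ℝ) + 2) * 2 / n * C ≤ δ * C := by
        rw [← add_mul]
        refine mul_le_mul_of_nonneg_right ?_ hC0
        rw [hδ, ← add_div]
        refine div_le_div_of_nonneg_right ?_ hnR.le
        linarith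
      rw [hc]
      push_cast
      linarith
    · -- good `x`
      intro x hxB hxr
      have hs : ∀ a ∈ P, a.2 ≠ g1 x := by
        intro a ha h
        apply hxB
        rw [mem_image]
        refine ⟨a, ha, ?_⟩
        rw [h]
        simp
      by_cases hsx : g1 x = x
      · have h0 : ∑ y ∈ arcY (insert (g2 p, x) P), F' y = 0 := by
          refine Finset.sum_eq_zero fun y hy => ?_
          rw [hF']
          beta_reduce
          rw [if_neg]
          rintro ⟨-, h2, -⟩
          apply h2
          rw [(Arc_mem_insert.1 hy).1, hsx]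
        rw [h0]
        positivity
      · obtain ⟨P', hP'⟩ : ∃ P' : Finset (Fin n × Fin n), P' = insert (g2 p, x) P := ⟨_, rfl⟩
        rw [← hP']
        have hP'card : P'.card ≤ P.card + 1 := by
          rw [hP']
          exact Finset.card_insert_le _ _
        have hP'R : (P'.card : ℝ) ≤ P.card + 1 := by exact_mod_cast hP'card
        obtain ⟨B', hB'⟩ : ∃ B' : Finset (Fin n), B' = insert t0 (P'.image (fun a => g2⁻¹ a.1)) :=
          ⟨_, rfl⟩
        have hB'card : B'.card ≤ P.card + 2 := by
          rw [hB']
          have h1 := Finset.card_insert_le t0 (P'.image (fun a => g2⁻¹ a.1))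
          have h2 : (P'.image (fun a => g2⁻¹ a.1)).card ≤ P'.card := Finset.card_image_le
          omega
        have hB'R : (B'.card : ℝ) ≤ P.card + 2 := by exact_mod_cast hB'card
        have hbwd := arc_bwd_le (P := P') (by omega) (s := g1 x) (by
            intro a ha
            rw [hP', mem_insert] at ha
            rcases ha with rfl | ha
            · exact fun h => hsx h.symm
            · exact hs a ha) F' (k * δ * C) C hC0 B' ?_ ?_
        · refine hbwd.trans (mul_le_mul_of_nonneg_right ?_ (Nat.cast_nonneg _))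
          rw [hc]
          have hd1 : (0 : ℝ) < (n : ℝ) - P'.card := by linarith
          have e1 : (B'.card : ℝ) / ((n : ℝ) - P'.card) * C ≤
              ((P.card : ℝ) + 2) / ((n : ℝ) - P.card - 1) * C := by
            refine mul_le_mul_of_nonneg_right ?_ hC0
            exact div_le_div₀ (by positivity) hB'R hden (by linarith)
          linarith
        · -- good `p'`
          intro p' hp'B hp'd
          have hpt : p' ≠ t0 := by
            rintro rfl
            exact hp'B (by rw [hB']; exact mem_insert_self _ _)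
          have hpd : ∀ a ∈ P', a.1 ≠ g2 p' := by
            intro a ha h
            apply hp'B
            rw [hB']
            refine mem_insert_of_mem (mem_image.2 ⟨a, ha, ?_⟩)
            rw [h]
            simp
          have hle : ∑ y ∈ arcY (insert (p', g1 x) P'), F' y ≤
              ∑ y ∈ (arcY (insert (p', g1 x) P')).filter (fun y => clo y.1 g1 g2 t0 k p'),
                F y := by
            rw [Finset.sum_filter]
            refine Finset.sum_le_sum fun y hy => ?_
            obtain ⟨hy1, hy2⟩ := Arc_mem_insert.1 hy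
            rw [hP'] at hy2
            obtain ⟨hy3, -⟩ := Arc_mem_insert.1 hy2
            have hinv : y.1⁻¹ (g1 (y.1 (g2 p))) = p' := by
              rw [hy3, ← hy1]
              simp
            rw [hF']
            beta_reduce
            by_cases hcl : clo y.1 g1 g2 t0 (k + 1) p
            · have hcl2 : clo y.1 g1 g2 t0 k p' := by
                obtain ⟨-, -, h3⟩ := hcl
                rw [hinv] at h3
                exact h3.resolve_left hpt
              rw [if_pos hcl, if_pos hcl2]
            · rw [if_neg hcl]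
              split_ifs
              · exact hF y
              · exact le_rfl
          refine hle.trans ?_
          by_cases hg : g2 p' = p'
          · have h0 : (arcY (insert (p', g1 x) P')).filter
                (fun y => clo y.1 g1 g2 t0 k p') = ∅ := by
              refine Finset.filter_false_of_mem fun y _ => ?_
              cases k with
              | zero => exact fun h => h
              | succ k => exact fun h => h.1 hg
            rw [h0, Finset.sum_empty]
            positivity
          · have hcard2 : (insert (p', g1 x) P').card ≤ P'.card + 1 := Finset.card_insert_le _ _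
            refine ih (insert (p', g1 x) P') p' (by omega) ?_
            intro a ha
            rw [mem_insert] at ha
            rcases ha with rfl | ha
            · exact fun h => hg h.symm
            · exact hpd a ha
        · -- bad `p'`
          intro p' _ _
          have hcard2 : (insert (p', g1 x) P').card ≤ P'.card + 1 := Finset.card_insert_le _ _
          have h1 := hC (insert (p', g1 x) P') (by omega)
          refine (Finset.sum_le_sum fun y _ => hF'le y).trans (h1.trans ?_)
          refine mul_le_mul_of_nonneg_right ?_ (Nat.cast_nonneg _)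
          linarith
    · -- bad `x`
      intro x _ _
      have hcard2 : (insert (g2 p, x) P).card ≤ P.card + 1 := Finset.card_insert_le _ _
      have h1 := hC (insert (g2 p, x) P) (by omega)
      refine (Finset.sum_le_sum fun y _ => hF'le y).trans (h1.trans ?_)
      refine mul_le_mul_of_nonneg_right ?_ (Nat.cast_nonneg _)
      linarith

end Pool.Agent.RCG
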