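import Pool.Agent.W_6acff7b_h70.JDefs
import Pool.Agent.W_MP_6acff7_h70.Cent

/-!
# Fixed points and cycles of `y⁻¹ g1 y g2`

`clo_fix` PROOF.  `v = y⁻¹ g1 y g2`.  If `v t = t` and `g2 t ≠ t`, then `g1 (y (g2 t)) ≠ y (g2 t)` (otherwise `v t = g2 t ≠ t`), so
`clo y g1 g2 t L t` (`L ≥ 1`, first step).

`clo_cover` PROOF.  `O` = fixed points of `g2`, the `t` with `g1 (y (g2 t)) = y (g2 t)` (`fixN g1` many, bijection
`t ↦ y (g2 t)`), the `t` counted by `cloN`, and one point of each cycle of `v` with more than `L` points (as in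
`Cent_exists_set` in `Cent.lean`, which gives a set `O'` of at most `(shortPts v L).card + n / L` points: its proof gives such a set of at
most `n / L` points; copy it).  Let `p` be in a cycle with at most `L` points: `v^r p = p` for some `1 ≤ r ≤ L`.  If no point `v^j p` is
fixed by `g2` and no `y g2 v^j p` is fixed by `g1`, then `clo y g1 g2 p L p` (induction on the number of remaining steps:
if `v^j p' = t0` for some `1 ≤ j ≤ k` and no turn back occurs before, then `clo .. k p'`), so `p ∈ O`.  Otherwise some `v^j p` is in `O`.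
-/

open Finset

namespace Pool.Agent.RCG

variable {n : ℕ}

/-- A set of points meeting every long cycle, with at most `n / R` points. -/
theorem CloDet_long (σ : Equiv.Perm (Fin n)) (R : ℕ) (hR : 1 ≤ R) :
    ∃ O : Finset (Fin n), O.card ≤ n / R ∧
      ∀ p : Fin n, p ∉ shortPts σ R → ∃ r ∈ O, σ.SameCycle r p := by
  classical
  obtain ⟨out, hout⟩ : ∃ out : Fin n → Fin n, out = fun p =>
    (Quotient.out (Quotient.mk (Equiv.Perm.SameCycle.setoid σ) p) : Fin n) := ⟨_, rfl⟩
  have h1 : ∀ p, σ.SameCycle (out p) p := by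
    intro p
    rw [hout]
    exact Quotient.exact (Quotient.out_eq (Quotient.mk (Equiv.Perm.SameCycle.setoid σ) p))
  have h2 : ∀ p q, σ.SameCycle p q → out p = out q := by
    intro p q hpq
    rw [hout]
    show Quotient.out _ = Quotient.out _
    congr 1
    exact Quotient.sound hpq
  obtain ⟨L, hL⟩ : ∃ L : Finset (Fin n), L = (univ \ shortPts σ R).image out := ⟨_, rfl⟩
  have hshort : ∀ p q, σ.SameCycle p q → p ∈ shortPts σ R → q ∈ shortPts σ R := by
    intro p q hpq hp
    unfold shortPts at hp ⊢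
    rw [Finset.mem_filter] at hp ⊢
    obtain ⟨-, r, hr1, hrR, hr⟩ := hp
    obtain ⟨i, hi⟩ := hpq
    refine ⟨Finset.mem_univ _, r, hr1, hrR, ?_⟩
    rw [← hi]
    have : (σ ^ r) ((σ ^ i) p) = (σ ^ i) ((σ ^ r) p) := by
      rw [← Equiv.Perm.mul_apply, ← Equiv.Perm.mul_apply]
      congr 1
      exact ((Commute.refl σ).pow_left r).zpow_right i
    rw [this, hr]
  have hLlong : ∀ r ∈ L, r ∉ shortPts σ R ∧ out r = r := by
    intro r hr
    rw [hL, Finset.mem_image] at hr
    obtain ⟨p, hp, rfl⟩ := hr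
    rw [Finset.mem_sdiff] at hp
    refine ⟨fun h => hp.2 (hshort _ _ (h1 p) h), h2 _ _ (h1 p)⟩
  have hLcard : L.card * R ≤ n := by
    have hinj : Function.Injective (fun x : L × Fin R => (σ ^ (x.2 : ℕ)) x.1.1) := by
      rintro ⟨⟨r, hr⟩, i⟩ ⟨⟨r', hr'⟩, j⟩ hij
      simp only at hij
      have hrr : r = r' := by
        have h3 : σ.SameCycle r r' := by
          have h4 : σ.SameCycle r ((σ ^ (i : ℕ)) r) := ⟨(i : ℕ), by rw [zpow_natCast]⟩
          have h5 : σ.SameCycle r' ((σ ^ (j : ℕ)) r') := ⟨(j : ℕ), by rw [zpow_natCast]⟩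
          rw [hij] at h4
          exact h4.trans h5.symm
        rw [← (hLlong r hr).2, ← (hLlong r' hr').2]
        exact h2 _ _ h3
      subst hrr
      have hkey : ∀ a b : ℕ, a < b → b < R → (σ ^ a) r = (σ ^ b) r → False := by
        intro a b hab hb h
        apply (hLlong r hr).1
        unfold shortPts
        rw [Finset.mem_filter]
        refine ⟨Finset.mem_univ _, b - a, by omega, by omega, ?_⟩
        have h6 : (σ ^ a) ((σ ^ (b - a)) r) = (σ ^ a) r := by
          rw [← Equiv.Perm.mul_apply, ← pow_add, Nat.add_sub_cancel' hab.le, h]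
        exact (σ ^ a).injective h6
      have hij2 : i = j := by
        rcases lt_trichotomy (i : ℕ) (j : ℕ) with h | h | h
        · exact (hkey _ _ h j.2 hij).elim
        · exact Fin.ext h
        · exact (hkey _ _ h i.2 hij.symm).elim
      subst hij2
      rfl
    have h3 := Fintype.card_le_of_injective _ hinj
    rw [Fintype.card_prod, Fintype.card_coe, Fintype.card_fin, Fintype.card_fin] at h3
    exact h3
  refine ⟨L, (Nat.le_div_iff_mul_le (by omega)).2 hLcard, ?_⟩
  intro p hp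
  refine ⟨out p, ?_, h1 p⟩
  rw [hL, Finset.mem_image]
  exact ⟨p, Finset.mem_sdiff.2 ⟨Finset.mem_univ _, hp⟩, rfl⟩

theorem CloDet_clo (y g1 g2 : Equiv.Perm (Fin n)) (t0 : Fin n) (k : ℕ) :
    ∀ (j : ℕ) (p : Fin n), 1 ≤ j → j ≤ k → ((y⁻¹ * g1 * y * g2) ^ j) p = t0 →
      (∀ i < j, g2 (((y⁻¹ * g1 * y * g2) ^ i) p) ≠ ((y⁻¹ * g1 * y * g2) ^ i) p ∧
        g1 (y (g2 (((y⁻¹ * g1 * y * g2) ^ i) p))) ≠ y (g2 (((y⁻¹ * g1 * y * g2) ^ i) p))) →
      clo y g1 g2 t0 k p := by
  induction k with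
  | zero =>
    intro j p h1 h2
    omega
  | succ k ih =>
    intro j p h1 h2 h3 h4
    have h5 := h4 0 (by omega)
    refine ⟨h5.1, h5.2, ?_⟩
    by_cases hj : j = 1
    · left
      rw [hj, pow_one] at h3
      exact h3
    · right
      refine ih (j - 1) _ (by omega) (by omega) ?_ ?_
      · have h6 : ((y⁻¹ * g1 * y * g2) ^ (j - 1)) ((y⁻¹ * g1 * y * g2) p) = t0 := by
          rw [← Equiv.Perm.mul_apply, ← pow_succ, Nat.sub_add_cancel h1]
          exact h3
        exact h6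
      · intro i hi
        have h7 := h4 (i + 1) (by omega)
        have h8 : ((y⁻¹ * g1 * y * g2) ^ (i + 1)) p =
            ((y⁻¹ * g1 * y * g2) ^ i) ((y⁻¹ * g1 * y * g2) p) := by
          rw [← Equiv.Perm.mul_apply, ← pow_succ]
        rw [h8] at h7
        exact h7

theorem clo_fix {L : ℕ} (hL : 1 ≤ L) (y g1 g2 : Equiv.Perm (Fin n)) :
    fixN (y⁻¹ * g1 * y * g2) ≤ fixN g2 + cloN y g1 g2 L := by
  classical
  obtain ⟨L, rfl⟩ : ∃ M, L = M + 1 := ⟨L - 1, by omega⟩
  unfold fixN cloN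
  refine (Finset.card_le_card ?_).trans (Finset.card_union_le _ _)
  intro t ht
  rw [Finset.mem_filter] at ht
  rw [Finset.mem_union, Finset.mem_filter, Finset.mem_filter]
  have h1 : y⁻¹ (g1 (y (g2 t))) = t := ht.2
  by_cases h2 : g2 t = t
  · exact Or.inl ⟨Finset.mem_univ _, h2⟩
  · refine Or.inr ⟨Finset.mem_univ _, h2, fun h3 => h2 ?_, Or.inl h1⟩
    rw [h3] at h1
    exact (y.symm_apply_apply (g2 t)).symm.trans h1

theorem clo_cover {L : ℕ} (hL : 1 ≤ L) (y g1 g2 : Equiv.Perm (Fin n)) :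
    ∃ O : Finset (Fin n), O.card ≤ fixN g1 + fixN g2 + cloN y g1 g2 L + n / L ∧
      ∀ p, ∃ r ∈ O, (y⁻¹ * g1 * y * g2).SameCycle r p := by
  classical
  obtain ⟨v, hv⟩ : ∃ v, v = y⁻¹ * g1 * y * g2 := ⟨_, rfl⟩
  obtain ⟨O', hO', hlong⟩ := CloDet_long v L hL
  obtain ⟨F1, hF1⟩ : ∃ F1 : Finset (Fin n), F1 = univ.filter fun t =>
    g1 (y (g2 t)) = y (g2 t) := ⟨_, rfl⟩
  obtain ⟨F2, hF2⟩ : ∃ F2 : Finset (Fin n), F2 = univ.filter fun t => g2 t = t := ⟨_, rfl⟩
  obtain ⟨Cl, hCl⟩ : ∃ Cl : Finset (Fin n), Cl = univ.filter fun t => clo y g1 g2 t L t :=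
    ⟨_, rfl⟩
  have h1 : F1.card = fixN g1 := by
    rw [hF1]
    unfold fixN
    refine Finset.card_bij (fun t _ => y (g2 t)) ?_ ?_ ?_
    · intro t ht
      rw [Finset.mem_filter] at ht ⊢
      exact ⟨Finset.mem_univ _, ht.2⟩
    · intro t _ t' _ h
      exact g2.injective (y.injective h)
    · intro u hu
      rw [Finset.mem_filter] at hu
      have h0 : y (g2 (g2.symm (y.symm u))) = u := by
        rw [Equiv.apply_symm_apply, Equiv.apply_symm_apply]
      refine ⟨g2.symm (y.symm u), ?_, h0⟩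
      rw [Finset.mem_filter, h0]
      exact ⟨Finset.mem_univ _, hu.2⟩
  have h2 : F2.card = fixN g2 := by
    rw [hF2]
    rfl
  have h3 : Cl.card = cloN y g1 g2 L := by
    rw [hCl]
    unfold cloN
    congr
  rw [← hv]
  refine ⟨F1 ∪ F2 ∪ Cl ∪ O', ?_, ?_⟩
  · have h4 := Finset.card_union_le (F1 ∪ F2 ∪ Cl) O'
    have h5 := Finset.card_union_le (F1 ∪ F2) Cl
    have h6 := Finset.card_union_le F1 F2
    omega
  · intro p
    by_cases hp : p ∈ shortPts v L
    · have hp' := hp
      unfold shortPts at hp'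
      rw [Finset.mem_filter] at hp'
      obtain ⟨-, r, hr1, hrL, hr⟩ := hp'
      by_cases hex : ∃ i < r, (v ^ i) p ∈ F1 ∪ F2
      · obtain ⟨i, -, hi⟩ := hex
        refine ⟨(v ^ i) p, Finset.mem_union_left _ (Finset.mem_union_left _ hi), ?_⟩
        exact Equiv.Perm.SameCycle.symm ⟨(i : ℤ), by rw [zpow_natCast]⟩
      · push Not at hex
        refine ⟨p, Finset.mem_union_left _ (Finset.mem_union_right _ ?_),
          Equiv.Perm.SameCycle.refl _ _⟩
        rw [hCl, Finset.mem_filter]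
        refine ⟨Finset.mem_univ _, CloDet_clo y g1 g2 p L r p hr1 hrL ?_ ?_⟩
        · rw [← hv]
          exact hr
        · intro i hi
          have h7 := hex i hi
          rw [Finset.mem_union, not_or, hF1, hF2, Finset.mem_filter, Finset.mem_filter] at h7
          rw [← hv]
          exact ⟨fun h => h7.2 ⟨Finset.mem_univ _, h⟩, fun h => h7.1 ⟨Finset.mem_univ _, h⟩⟩
    · obtain ⟨r, hr, hr'⟩ := hlong p hp
      exact ⟨r, Finset.mem_union_right _ hr, hr'⟩

end Pool.Agent.RCG
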