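import Pool.Agent.W_6acff7b_h70.CloDet
import Pool.Agent.W_6acff7b_h70.CentMeet

/-!
# Few closing points give a good element

PROOF.  `clo_fix`: `fixN v ≤ 2 φ n ≤ ψ n`.  `clo_cover`, `cent_of_meets`: `O.card ≤ a + b + c + n / L` with `a, b, c ≤ φ n`, so
`a + b + c ≤ ⌊3 φ n⌋₊` (`Nat.le_floor`), and `n ^ ·` is monotone (`n ≥ 1`).
-/

open Finset

namespace Pool.Agent.RCG

variable {n : ℕ}

theorem goodEl_of_clo {L T : ℕ} {φ ψ : ℝ} (hL : 1 ≤ L) (hn : 1 ≤ n) (hψ : 2 * φ ≤ ψ)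
    (hT : ⌊3 * φ * n⌋₊ + n / L ≤ T) (y g1 g2 : A n) (h1 : (fixN g1.1 : ℝ) ≤ φ * n)
    (h2 : (fixN g2.1 : ℝ) ≤ φ * n) (h3 : (cloN y.1 g1.1 g2.1 L : ℝ) ≤ φ * n) :
    GoodEl ψ T (y⁻¹ * g1 * y * g2) := by
  have hv : (y⁻¹ * g1 * y * g2).1 = y.1⁻¹ * g1.1 * y.1 * g2.1 := rfl
  constructor
  · rw [hv]
    have h := clo_fix (L := L) hL y.1 g1.1 g2.1
    have h' : (fixN (y.1⁻¹ * g1.1 * y.1 * g2.1) : ℝ) ≤ fixN g2.1 + cloN y.1 g1.1 g2.1 L := by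
      exact_mod_cast h
    calc (fixN (y.1⁻¹ * g1.1 * y.1 * g2.1) : ℝ) ≤ fixN g2.1 + cloN y.1 g1.1 g2.1 L := h'
      _ ≤ φ * n + φ * n := add_le_add h2 h3
      _ = (2 * φ) * n := by ring
      _ ≤ ψ * n := mul_le_mul_of_nonneg_right hψ (Nat.cast_nonneg n)
  · obtain ⟨O, hO, hO'⟩ := clo_cover (L := L) hL y.1 g1.1 g2.1
    refine (cent_of_meets _ O ?_).trans (Nat.pow_le_pow_right hn ?_)
    · rw [hv]
      exact hO'
    · have h4 : ((fixN g1.1 + fixN g2.1 + cloN y.1 g1.1 g2.1 L : ℕ) : ℝ) ≤ 3 * φ * n := by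
        push_cast
        linarith
      have h5 := Nat.le_floor h4
      omega

end Pool.Agent.RCG
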