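import Pool.Agent.W_6acff7b_h70.CloBound

/-!
# Moments of the number of closing points

PROOF of `clo_moment`.  `m = 2 L M`, `θ = (L+1) δ`.  Claim for `j ≤ M` and `P.card ≤ 2 L (M - j)`:
`∑_{arcY P} (cloN/n)^j ≤ θ^j * card`.  `j = 0` trivial.  Step: `F y = (cloN y/n)^j`, `C = θ^j`; for `P.card + 2 L ≤ m'`,
`m' = 2 L (M - j)`: `∑_{arcY P} F y * cloN y/n = (1/n) ∑_t ∑_{y ∈ arcY P, clo y t L t} F y`; for the at most `P.card ≤ δ n` values of `t`
with `g2 t ∈ dom P` bound by `C`, for the others by `clo_bound` (with `m' ≤ m`; the bound with `m'` is at most the one with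
`m`).  Total `≤ (L δ + δ) C`.  The theorem is `j = M`, `P = ∅`.
-/

open Finset

namespace Pool.Agent.RCG

variable {n : ℕ}

open Classical in
private theorem CloMoment_step {L m : ℕ} (hm : 4 * m + 8 ≤ n) (g1 g2 : Equiv.Perm (Fin n))
    (F : A n → ℝ) (hF : ∀ y, 0 ≤ F y) (C δ : ℝ) (hδ : 4 * ((m : ℝ) + 2) / n ≤ δ)
    (hC0 : 0 ≤ C)
    (hC : ∀ P : Finset (Fin n × Fin n), P.card ≤ m → ∑ y ∈ arcY P, F y ≤ C * (arcY P).card)
    (P : Finset (Fin n × Fin n)) (hP : P.card + 2 * L ≤ m) :
    ∑ y ∈ arcY P, F y * ((cloN y.1 g1 g2 L : ℝ) / n) ≤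
      (((L : ℝ) + 1) * δ) * C * (arcY P).card := by
  have hn : (0 : ℝ) < n := by
    have : 0 < n := by omega
    exact_mod_cast this
  have h1 : ∀ y : A n, (cloN y.1 g1 g2 L : ℝ) = ∑ t : Fin n, if clo y.1 g1 g2 t L t then (1 : ℝ) else 0 := by
    intro y
    unfold cloN
    rw [Finset.card_filter]
    push_cast
    exact Finset.sum_congr rfl fun t _ => by congr
  have h2 : ∑ y ∈ arcY P, F y * ((cloN y.1 g1 g2 L : ℝ) / n) =
      (∑ t : Fin n, ∑ y ∈ (arcY P).filter (fun y => clo y.1 g1 g2 t L t), F y) / n := by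
    have : ∀ y : A n, F y * ((cloN y.1 g1 g2 L : ℝ) / n) =
        (∑ t : Fin n, if clo y.1 g1 g2 t L t then F y else 0) / n := by
      intro y
      rw [h1 y, mul_div_assoc', Finset.mul_sum]
      congr 1
      refine Finset.sum_congr rfl fun t _ => ?_
      rw [mul_ite, mul_one, mul_zero]
    rw [Finset.sum_congr rfl fun y _ => this y, ← Finset.sum_div, Finset.sum_comm]
    congr 1
    refine Finset.sum_congr rfl fun t _ => ?_
    rw [Finset.sum_filter]
  rw [h2, div_le_iff₀ hn]
  have hcard : (0 : ℝ) ≤ ((arcY P).card : ℝ) := Nat.cast_nonneg _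
  have hPC := hC P (by omega)
  have hδ0 : 0 ≤ δ := le_trans (by positivity) hδ
  -- one term
  have h3 : ∀ t : Fin n, ∑ y ∈ (arcY P).filter (fun y => clo y.1 g1 g2 t L t), F y ≤
      L * δ * C * (arcY P).card +
        (if t ∈ P.image (fun a => g2⁻¹ a.1) then C * (arcY P).card else 0) := by
    intro t
    by_cases ht : t ∈ P.image (fun a => g2⁻¹ a.1)
    · rw [if_pos ht]
      have h4 : ∑ y ∈ (arcY P).filter (fun y => clo y.1 g1 g2 t L t), F y ≤ ∑ y ∈ arcY P, F y :=
        Finset.sum_le_sum_of_subset_of_nonneg (Finset.filter_subset _ _) fun y _ _ => hF y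
      have h5 : 0 ≤ L * δ * C * ((arcY P).card : ℝ) := by positivity
      linarith
    · rw [if_neg ht, add_zero]
      have h4 := clo_bound hm g1 g2 F hF C hC t L P t hP (by
        intro a ha hag
        apply ht
        rw [Finset.mem_image]
        exact ⟨a, ha, by rw [hag]; simp⟩)
      refine h4.trans ?_
      refine mul_le_mul_of_nonneg_right ?_ hcard
      refine mul_le_mul_of_nonneg_right ?_ hC0
      exact mul_le_mul_of_nonneg_left hδ (Nat.cast_nonneg _)
  have h6 : ((P.image (fun a => g2⁻¹ a.1)).card : ℝ) ≤ n * δ := by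
    have h7 : ((P.image (fun a => g2⁻¹ a.1)).card : ℝ) ≤ m := by
      have := Finset.card_image_le (s := P) (f := fun a => g2⁻¹ a.1)
      exact_mod_cast this.trans (by omega)
    have h8 : n * (4 * ((m : ℝ) + 2) / n) ≤ n * δ := mul_le_mul_of_nonneg_left hδ hn.le
    have h9 : n * (4 * ((m : ℝ) + 2) / n) = 4 * ((m : ℝ) + 2) := by field_simp
    have h10 : (0 : ℝ) ≤ m := Nat.cast_nonneg _
    linarith
  calc ∑ t : Fin n, ∑ y ∈ (arcY P).filter (fun y => clo y.1 g1 g2 t L t), F y
      ≤ ∑ t : Fin n, (L * δ * C * (arcY P).card +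
        (if t ∈ P.image (fun a => g2⁻¹ a.1) then C * (arcY P).card else 0)) :=
        Finset.sum_le_sum fun t _ => h3 t
    _ = n * (L * δ * C * (arcY P).card) +
        (P.image (fun a => g2⁻¹ a.1)).card * (C * (arcY P).card) := by
        rw [Finset.sum_add_distrib, Finset.sum_const, Finset.card_univ, Fintype.card_fin,
          nsmul_eq_mul, ← Finset.sum_filter, Finset.sum_const, nsmul_eq_mul]
        congr 3
        congr 1
        ext t
        simp
    _ ≤ n * (L * δ * C * (arcY P).card) + (n * δ) * (C * (arcY P).card) := by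
        have := mul_le_mul_of_nonneg_right h6 (mul_nonneg hC0 hcard)
        linarith
    _ = ((L : ℝ) + 1) * δ * C * (arcY P).card * n := by ring

theorem clo_moment {L M : ℕ} (hm : 4 * (2 * L * M) + 8 ≤ n) (g1 g2 : Equiv.Perm (Fin n)) :
    ∑ y : A n, ((cloN y.1 g1 g2 L : ℝ) / n) ^ M ≤
      (((L : ℝ) + 1) * (4 * (2 * L * M + 2) / n)) ^ M * Fintype.card (A n) := by
  have hn : (0 : ℝ) < n := by
    have : 0 < n := by omega
    exact_mod_cast this
  set δ : ℝ := 4 * (2 * L * M + 2) / n with hδ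
  have hδ0 : 0 ≤ δ := by rw [hδ]; positivity
  have key : ∀ j, j ≤ M → ∀ P : Finset (Fin n × Fin n), P.card ≤ 2 * L * (M - j) →
      ∑ y ∈ arcY P, ((cloN y.1 g1 g2 L : ℝ) / n) ^ j ≤
        (((L : ℝ) + 1) * δ) ^ j * (arcY P).card := by
    intro j
    induction j with
    | zero =>
      intro _ P _
      simp
    | succ j ih =>
      intro hj P hP
      have hmono : 2 * L * (M - j) ≤ 2 * L * M := Nat.mul_le_mul_left _ (Nat.sub_le _ _)
      have hMj : 2 * L * (M - j) = 2 * L * (M - (j + 1)) + 2 * L := by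
        have : M - j = (M - (j + 1)) + 1 := by omega
        rw [this, Nat.mul_add, Nat.mul_one]
      have h1 := CloMoment_step (L := L) (m := 2 * L * (M - j)) (by omega) g1 g2
        (fun y => ((cloN y.1 g1 g2 L : ℝ) / n) ^ j) (fun y => by positivity)
        ((((L : ℝ) + 1) * δ) ^ j) δ (by
          rw [hδ]
          have h2 : ((2 * L * (M - j) : ℕ) : ℝ) ≤ 2 * L * M := by exact_mod_cast hmono
          gcongr) (by positivity) (ih (by omega)) P (by omega)
      have h3 : ∀ y : A n, ((cloN y.1 g1 g2 L : ℝ) / n) ^ (j + 1) =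
          ((cloN y.1 g1 g2 L : ℝ) / n) ^ j * ((cloN y.1 g1 g2 L : ℝ) / n) := fun y => pow_succ _ _
      rw [Finset.sum_congr rfl fun y _ => h3 y, pow_succ' (((L : ℝ) + 1) * δ)]
      exact h1
  have h := key M le_rfl ∅ (by simp)
  have h0 : (arcY (∅ : Finset (Fin n × Fin n))) = univ := by
    unfold arcY
    simp
  rw [h0, Finset.card_univ] at h
  exact h

end Pool.Agent.RCG
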