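import Pool.Agent.W_MP_6acff7_h70.Defs

/-!
# The number of conjugacy classes of `A n`

PROOF.  If `g, h ∈ A n` have the same cycle type, then
`h = π g π⁻¹` for some permutation `π` (`Equiv.Perm.isConj_iff_cycleType_eq` or `partition_eq_of_isConj`).  Fix (if `n ≥ 2`) an odd `τ`.
If `π` is even, `h` is conjugate to `g` in `A n`, otherwise to `τ g τ⁻¹` (`π = (π τ⁻¹) τ`).  So the map
`ConjClasses (A n) → Nat.Partition n` (cast along `Fintype.card (Fin n) = n`) has fibres of size at most 2; or: the map
`Nat.Partition n × Bool → ConjClasses (A n)`, `(p, ε) ↦` class of (representative, conjugated by `τ` if `ε`), is onto.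
(`n ≤ 1`: trivial group, one class.)
-/

open Finset

namespace Pool.Agent.RCG

theorem ConjCount_even {n : ℕ} (g h : A n) (π : Equiv.Perm (Fin n))
    (hπ : Equiv.Perm.sign π = 1) (hc : π * (g : Equiv.Perm (Fin n)) * π⁻¹ = h) :
    ConjClasses.mk g = ConjClasses.mk h := by
  rw [ConjClasses.mk_eq_mk_iff_isConj, isConj_iff]
  refine ⟨⟨π, Equiv.Perm.mem_alternatingGroup.2 hπ⟩, ?_⟩
  apply Subtype.ext
  exact hc

theorem ConjCount_three {n : ℕ} (g g1 g2 : A n)
    (h1 : (g : Equiv.Perm (Fin n)).partition = (g1 : Equiv.Perm (Fin n)).partition)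
    (h2 : (g : Equiv.Perm (Fin n)).partition = (g2 : Equiv.Perm (Fin n)).partition)
    (n1 : ConjClasses.mk g ≠ ConjClasses.mk g1) (n2 : ConjClasses.mk g ≠ ConjClasses.mk g2) :
    ConjClasses.mk g1 = ConjClasses.mk g2 := by
  rw [← Equiv.Perm.partition_eq_of_isConj, isConj_iff] at h1 h2
  obtain ⟨a, ha⟩ := h1
  obtain ⟨b, hb⟩ := h2
  have sa : Equiv.Perm.sign a = -1 :=
    (Int.units_eq_one_or _).resolve_left fun h => n1 (ConjCount_even g g1 a h ha)
  have sb : Equiv.Perm.sign b = -1 :=
    (Int.units_eq_one_or _).resolve_left fun h => n2 (ConjCount_even g g2 b h hb)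
  apply ConjCount_even g1 g2 (b * a⁻¹)
  · rw [map_mul, map_inv, sa, sb]
    decide
  · rw [← ha, ← hb]
    group

theorem count_conjClasses (n : ℕ) :
    Nat.card (ConjClasses (A n)) ≤ 2 * Fintype.card (Nat.Partition n) := by
  classical
  obtain ⟨r, hr⟩ : ∃ r : ConjClasses (A n) → A n, ∀ c, ConjClasses.mk (r c) = c :=
    ⟨fun c => (ConjClasses.mk_surjective c).choose,
      fun c => (ConjClasses.mk_surjective c).choose_spec⟩
  obtain ⟨P, hP⟩ : ∃ P : ConjClasses (A n) → (Fintype.card (Fin n)).Partition,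
      ∀ c, P c = ((r c : A n) : Equiv.Perm (Fin n)).partition := ⟨_, fun _ => rfl⟩
  obtain ⟨R, hR⟩ : ∃ R : (Fintype.card (Fin n)).Partition → ConjClasses (A n),
      ∀ c, P (R (P c)) = P c := by
    refine ⟨fun q => if h : ∃ c, P c = q then h.choose else ConjClasses.mk 1, fun c => ?_⟩
    have h : ∃ c', P c' = P c := ⟨c, rfl⟩
    simp only [dif_pos h]
    exact h.choose_spec
  have hinj : Function.Injective (fun c => (P c, decide (R (P c) = c))) := by
    intro c c' h
    rw [Prod.mk.injEq] at h
    obtain ⟨h1, h2⟩ := h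
    by_cases h3 : R (P c) = c
    · rw [decide_eq_true h3, eq_comm, decide_eq_true_iff, ← h1, h3] at h2
      exact h2
    · rw [decide_eq_false h3, eq_comm, decide_eq_false_iff_not, ← h1] at h2
      rw [← hr c, ← hr c']
      apply ConjCount_three (r (R (P c))) (r c) (r c')
      · rw [← hP, ← hP]
        exact hR c
      · rw [← hP, ← hP, ← h1]
        exact hR c
      · rw [hr, hr]
        exact h3
      · rw [hr, hr]
        exact h2
  have h1 := Nat.card_le_card_of_injective _ hinj
  rw [Nat.card_prod, Nat.card_eq_fintype_card (α := (Fintype.card (Fin n)).Partition),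
    Nat.card_eq_fintype_card (α := Bool), Fintype.card_bool, mul_comm] at h1
  have h2 : Fintype.card (Nat.Partition (Fintype.card (Fin n))) =
      Fintype.card (Nat.Partition n) :=
    congrArg (fun m => Fintype.card (Nat.Partition m)) (Fintype.card_fin n)
  rw [h2] at h1
  exact h1

end Pool.Agent.RCG
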