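import Mathlib

/-!
# A bound for the number of partitions

PROOF of `card_partition_le'`.  `s = Nat.sqrt n`.  A partition of `n` is determined by the multiplicities (at most `n`) of its parts
`1, ..., s` and by the sorted list of its parts `> s`; there are at most `s` of these (`(s+1)(s+1) > n`), each `≤ n`;
pad the list with zeros to length `s`.  So there are at most `(n+1)^s (n+1)^s` partitions (injective map to
`(Fin s → Fin (n+1)) × (Fin s → Fin (n+1))`).
-/

open Finset

namespace Pool.Agent.RCG

theorem partCount_list {L L' : List ℕ} {s : ℕ} (h1 : L.length ≤ s) (h2 : L'.length ≤ s)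
    (h3 : ∀ x ∈ L, x ≠ 0) (h4 : ∀ x ∈ L', x ≠ 0)
    (h : ∀ i < s, L.getD i 0 = L'.getD i 0) : L = L' := by
  have hlen : L.length = L'.length := by
    rcases lt_trichotomy L.length L'.length with hlt | heq | hgt
    · exfalso
      have h5 := h L.length (by omega)
      rw [List.getD_eq_default _ _ le_rfl, List.getD_eq_getElem _ _ hlt] at h5
      exact h4 _ (List.getElem_mem hlt) h5.symm
    · exact heq
    · exfalso
      have h5 := h L'.length (by omega)
      rw [List.getD_eq_default L' _ le_rfl, List.getD_eq_getElem _ _ hgt] at h5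
      exact h3 _ (List.getElem_mem hgt) h5
  refine List.ext_getElem hlen fun i hi hi' => ?_
  have h5 := h i (by omega)
  rwa [List.getD_eq_getElem _ _ hi, List.getD_eq_getElem _ _ hi'] at h5

theorem partCount_le {n : ℕ} (p : Nat.Partition n) {x : ℕ} (hx : x ∈ p.parts) : x ≤ n := by
  have h := Multiset.single_le_sum (s := p.parts) (fun y _ => Nat.zero_le y) x hx
  rwa [p.parts_sum] at h

theorem partCount_card {n : ℕ} (p : Nat.Partition n) : p.parts.card ≤ n := by
  have h : p.parts.card • 1 ≤ p.parts.sum :=
    Multiset.card_nsmul_le_sum fun x hx => p.parts_pos hx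
  rw [p.parts_sum] at h
  simpa using h

theorem partCount_big {n : ℕ} (p : Nat.Partition n) :
    (p.parts.filter (fun x => Nat.sqrt n < x)).card ≤ Nat.sqrt n := by
  by_contra hcon
  push Not at hcon
  have h : (p.parts.filter (fun x => Nat.sqrt n < x)).card • (Nat.sqrt n + 1) ≤
      (p.parts.filter (fun x => Nat.sqrt n < x)).sum :=
    Multiset.card_nsmul_le_sum fun x hx => (Multiset.mem_filter.1 hx).2
  have h2 : (p.parts.filter (fun x => Nat.sqrt n < x)).sum ≤ n := by
    have h3 := congrArg Multiset.sum (Multiset.filter_add_not (fun x => Nat.sqrt n < x) p.parts)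
    rw [Multiset.sum_add, p.parts_sum] at h3
    omega
  have h4 := Nat.lt_succ_sqrt n
  rw [smul_eq_mul] at h
  have h5 : (Nat.sqrt n + 1) * (Nat.sqrt n + 1) ≤
      (p.parts.filter (fun x => Nat.sqrt n < x)).card * (Nat.sqrt n + 1) :=
    Nat.mul_le_mul_right _ hcon
  simp only [Nat.succ_eq_add_one] at h4
  omega

theorem card_partition_le' (n : ℕ) :
    Fintype.card (Nat.Partition n) ≤ (n + 1) ^ (2 * Nat.sqrt n) := by
  classical
  let big : Nat.Partition n → List ℕ := fun p =>
    (p.parts.filter (fun x => Nat.sqrt n < x)).sort (· ≤ ·)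
  have hbig : ∀ p, ((big p : List ℕ) : Multiset ℕ) = p.parts.filter (fun x => Nat.sqrt n < x) :=
    fun p => Multiset.sort_eq _ _
  have hmem : ∀ p, ∀ x ∈ big p, x ∈ p.parts ∧ Nat.sqrt n < x := by
    intro p x hx
    have h1 : x ∈ ((big p : List ℕ) : Multiset ℕ) := hx
    rw [hbig] at h1
    exact Multiset.mem_filter.1 h1
  have hlen : ∀ p, (big p).length ≤ Nat.sqrt n := by
    intro p
    have h1 : (big p).length = ((big p : List ℕ) : Multiset ℕ).card := rfl
    rw [h1, hbig]
    exact partCount_big p
  let enc : Nat.Partition n → (Fin (Nat.sqrt n) → Fin (n + 1)) × (Fin (Nat.sqrt n) → Fin (n + 1)) :=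
    fun p => (fun i => ⟨min (p.parts.count (i.val + 1)) n, by omega⟩,
      fun i => ⟨min ((big p).getD i.val 0) n, by omega⟩)
  have hinj : Function.Injective enc := by
    intro p p' he
    have he1 : ∀ i : Fin (Nat.sqrt n), p.parts.count (i.val + 1) = p'.parts.count (i.val + 1) := by
      intro i
      have h1 := congrArg (fun e => ((e.1 i : Fin (n + 1)) : ℕ)) he
      simp only [enc] at h1
      have h2 := (Multiset.count_le_card (i.val + 1) p.parts).trans (partCount_card p)
      have h3 := (Multiset.count_le_card (i.val + 1) p'.parts).trans (partCount_card p')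
      rwa [min_eq_left h2, min_eq_left h3] at h1
    have hle : ∀ p : Nat.Partition n, ∀ i, (big p).getD i 0 ≤ n := by
      intro p i
      by_cases hi : i < (big p).length
      · rw [List.getD_eq_getElem _ _ hi]
        exact partCount_le p (hmem p _ (List.getElem_mem hi)).1
      · rw [List.getD_eq_default _ _ (by omega)]
        exact Nat.zero_le _
    have he2 : ∀ i < Nat.sqrt n, (big p).getD i 0 = (big p').getD i 0 := by
      intro i hi
      have h1 := congrArg (fun e => ((e.2 ⟨i, hi⟩ : Fin (n + 1)) : ℕ)) he
      simp only [enc] at h1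
      rwa [min_eq_left (hle p i), min_eq_left (hle p' i)] at h1
    have hb : big p = big p' := by
      refine partCount_list (hlen p) (hlen p') ?_ ?_ he2
      · intro x hx
        have := (hmem p x hx).2
        omega
      · intro x hx
        have := (hmem p' x hx).2
        omega
    apply Nat.Partition.ext
    apply Multiset.ext.2
    intro x
    by_cases hx : Nat.sqrt n < x
    · have h1 := congrArg (Multiset.count x) (hbig p)
      have h2 := congrArg (Multiset.count x) (hbig p')
      rw [Multiset.count_filter, if_pos hx] at h1 h2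
      rw [← h1, ← h2, hb]
    · rcases Nat.eq_zero_or_pos x with h0 | h0
      · subst h0
        rw [Multiset.count_eq_zero_of_notMem, Multiset.count_eq_zero_of_notMem]
        · intro h
          exact absurd (p'.parts_pos h) (by omega)
        · intro h
          exact absurd (p.parts_pos h) (by omega)
      · have h1 := he1 ⟨x - 1, by omega⟩
        simp only [Nat.sub_add_cancel h0] at h1
        exact h1
  have hc := Fintype.card_le_of_injective enc hinj
  refine hc.trans (le_of_eq ?_)
  rw [Fintype.card_prod, Fintype.card_fun, Fintype.card_fin, Fintype.card_fin, two_mul, pow_add]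

end Pool.Agent.RCG
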