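import Pool.Agent.W_6acff7b_h70.JFin
import Pool.Agent.W_6acff7b_h70.PartCount
import Pool.Agent.W_6acff7b_h70.ConjCount

/-!
# The number of all systems of joint eigenvalues

PROOF of `card_chars_le`.  The `α ∈ chars (A n)` are linearly independent (`ch_linearIndependent`) and constant on conjugacy classes
of `A n` (`ch_conj`), so they come from linearly independent functions `ConjClasses (A n) → ℝ`, a space of dimension
`Nat.card (ConjClasses (A n))`.
-/

open Finset

namespace Pool.Agent.RCG

theorem CountAll_aux {G : Type*} [Group G] [Fintype G] :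
    (chars G).card ≤ Nat.card (ConjClasses G) := by
  have : Finite (ConjClasses G) := Quotient.finite _
  have : Fintype (ConjClasses G) := Fintype.ofFinite _
  have hex : ∀ α : {α : G → ℝ // α ∈ chars G},
      ∃ f : ConjClasses G → ℝ, ∀ g, f (ConjClasses.mk g) = α.1 g := by
    intro α
    have hα : IsCh α.1 := mem_chars.1 α.2
    refine ⟨Quotient.lift α.1 ?_, fun g => rfl⟩
    intro a b hab
    obtain ⟨c, hc⟩ := isConj_iff.1 hab
    have h1 := ch_conj hα c⁻¹ a
    rw [inv_inv, hc] at h1
    exact h1.symm
  choose f hf using hex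
  have h1 : LinearIndependent ℝ (fun α : {α : G → ℝ // α ∈ chars G} => α.1) :=
    (ch_linearIndependent (G := G)).comp
      (fun α : {α : G → ℝ // α ∈ chars G} => (⟨α.1, mem_chars.1 α.2⟩ : {α : G → ℝ // IsCh α}))
      (fun α β h => Subtype.ext (congrArg (fun x => x.1) h))
  have h2 : LinearIndependent ℝ f := by
    refine LinearIndependent.of_comp (LinearMap.funLeft ℝ ℝ (ConjClasses.mk (α := G))) ?_
    have h3 : (LinearMap.funLeft ℝ ℝ (ConjClasses.mk (α := G))) ∘ f =
        fun α : {α : G → ℝ // α ∈ chars G} => α.1 := by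
      funext α
      funext g
      exact hf α g
    rw [h3]
    exact h1
  have h4 := h2.fintype_card_le_finrank
  rw [Fintype.card_coe, Module.finrank_fintype_fun_eq_card] at h4
  rw [Nat.card_eq_fintype_card]
  exact h4

theorem card_chars_le (n : ℕ) : (chars (A n)).card ≤ Nat.card (ConjClasses (A n)) :=
  CountAll_aux

theorem count_all (n : ℕ) : (chars (A n)).card ≤ 2 * (n + 1) ^ (2 * Nat.sqrt n) := by
  refine (card_chars_le n).trans ((count_conjClasses n).trans ?_)
  exact Nat.mul_le_mul_left 2 (card_partition_le' n)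

end Pool.Agent.RCG
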