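import Pool.Agent.W_6acff7b_h70.PhiStd

/-!
# The number of systems of joint eigenvalues of level at most `b`

`card_partition_le`: `Nat.Partition.ofComposition` is surjective (`Nat.Partition.ofComposition_surj`), `composition_card = 2^(k-1)`.
`count_lev` PROOF: choose one representative for each value of `Equiv.Perm.partition` on `Perm (Fin (2b))`
(`Equiv.Perm.partition_eq_of_isConj : IsConj σ τ ↔ σ.partition = τ.partition`).  By `Phi_std`, `Phi_std_conj` all `Phi (arcsOf s t)` lie
in a set of at most `card (Nat.Partition (2b)) * 2^(2b) ≤ 2^(2b) * 2^(2b) = 16^b` functions.  The systems `α` of level `≤ b` are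
linearly independent (`ch_linearIndependent`) and lie in the span of these functions (`ch_mem_span_Phi`):
`linearIndependent_le_span_finset` or similar.
-/

open Finset

namespace Pool.Agent.RCG

variable {n : ℕ}

theorem card_partition_le (k : ℕ) : Fintype.card (Nat.Partition k) ≤ 2 ^ k := by
  have h1 := Fintype.card_le_of_surjective _ (Nat.Partition.ofComposition_surj (n := k))
  rw [composition_card] at h1
  exact h1.trans (Nat.pow_le_pow_right (by norm_num) (Nat.sub_le _ _))

open Classical in
theorem count_lev {b : ℕ} (hb : 2 * b + 2 ≤ n) :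
    ((chars (A n)).filter fun α => lev α ≤ b).card ≤ 16 ^ b := by
  obtain ⟨rep, hrep⟩ : ∃ rep : (Fintype.card (Fin (2 * b))).Partition →
      Equiv.Perm (Fin (2 * b)), ∀ σ : Equiv.Perm (Fin (2 * b)),
        (rep σ.partition).partition = σ.partition := by
    have h1 : ∀ π : (Fintype.card (Fin (2 * b))).Partition, ∃ τ : Equiv.Perm (Fin (2 * b)),
        ∀ σ : Equiv.Perm (Fin (2 * b)), σ.partition = π → τ.partition = π := by
      intro π
      by_cases h2 : ∃ σ : Equiv.Perm (Fin (2 * b)), σ.partition = π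
      · obtain ⟨σ, hσ⟩ := h2
        exact ⟨σ, fun _ _ => hσ⟩
      · exact ⟨1, fun σ hσ => absurd ⟨σ, hσ⟩ h2⟩
    choose rep hrep using h1
    exact ⟨rep, fun σ => hrep _ σ rfl⟩
  obtain ⟨W, hW⟩ : ∃ W : Finset (A n → ℝ), W = (Finset.univ :
      Finset ((Fintype.card (Fin (2 * b))).Partition × Finset (Fin (2 * b)))).image
        (fun p => Phi (stdArcs (by omega : 2 * b ≤ n) (rep p.1) p.2)) := ⟨_, rfl⟩
  have hWc : W.card ≤ 16 ^ b := by
    rw [hW]
    refine Finset.card_image_le.trans ?_
    rw [Finset.card_univ, Fintype.card_prod, Fintype.card_finset, Fintype.card_fin]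
    have h2 := card_partition_le (2 * b)
    calc Fintype.card (2 * b).Partition * 2 ^ (2 * b)
        ≤ 2 ^ (2 * b) * 2 ^ (2 * b) := Nat.mul_le_mul_right _ h2
      _ = 16 ^ b := by
        rw [← pow_add]
        have h5 : 2 * b + 2 * b = 4 * b := by ring
        rw [h5, pow_mul]
        norm_num
  have hmem : ∀ s t : Fin b ↪ Fin n, Phi (arcsOf s t) ∈ W := by
    intro s t
    obtain ⟨σ, T, h1⟩ := Phi_std hb s t
    have h2 : IsConj σ (rep σ.partition) := by
      rw [Equiv.Perm.partition_eq_of_isConj, hrep]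
    obtain ⟨T', h3⟩ := Phi_std_conj hb σ _ h2 T
    rw [h1, h3, hW]
    exact Finset.mem_image.2 ⟨(σ.partition, T'), Finset.mem_univ _, rfl⟩
  refine le_trans ?_ hWc
  have hch : ∀ α : {α // α ∈ (chars (A n)).filter fun α => lev α ≤ b},
      IsCh α.1 ∧ lev α.1 ≤ b := by
    intro α
    have h1 := Finset.mem_filter.1 α.2
    exact ⟨mem_chars.1 h1.1, h1.2⟩
  have hli : LinearIndependent ℝ
      (fun α : {α // α ∈ (chars (A n)).filter fun α => lev α ≤ b} => α.1) := by
    refine ch_linearIndependent.comp
      (fun α : {α // α ∈ (chars (A n)).filter fun α => lev α ≤ b} => ⟨α.1, (hch α).1⟩) ?_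
    intro x y hxy
    have h1 := congrArg (fun z : {α : A n → ℝ // IsCh α} => z.1) hxy
    exact Subtype.ext h1
  have hr : Set.range (fun α : {α // α ∈ (chars (A n)).filter fun α => lev α ≤ b} => α.1) ≤
      Submodule.span ℝ (W : Set (A n → ℝ)) := by
    rintro _ ⟨α, rfl⟩
    have h1 := ch_mem_span_Phi (hch α).1 (hch α).2 (by omega)
    refine Submodule.span_mono ?_ h1
    rintro _ ⟨p, rfl⟩
    exact hmem p.1 p.2
  have h2 := linearIndependent_le_span_aux' _ hli (W : Set (A n → ℝ)) hr
  rw [Fintype.card_coe] at h2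
  refine h2.trans (le_of_eq ?_)
  exact Fintype.card_coe W

end Pool.Agent.RCG
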