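import Pool.Agent.W_6acff7b_h70.JFin

/-!
# The Plancherel formula

PROOF.  By `JE_orthogonal`, `JE_iSup`, the sum over the finite type `{α // IsCh α}` (`isCh_finite`) of the projections to `JE α` is the
identity (`OrthogonalFamily.sum_projection_of_mem_iSup` or similar; the `α` with `JE α = ⊥` do not matter), so
`∑_{α ∈ chars G} eV (JE α) = pm 1`; evaluate at `g`: `eV (JE α) g = α g * eV (JE α) 1` (`JE_eval`, `JE_biv`, `eV_conj`, `eV_inv`),
`eV (JE α) 1 * |G| = finrank (JE α)` (`eV_one`); `pm 1 1 = 1`, `pm 1 g = 0` for `g ≠ 1`.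
`ch_sum_dim`: `g = 1`, `ch_one`.
`finrank_JE_one`: the constants are a `Biv` subspace of `JE 1`, so equal to it (`JE_min`).
-/

open Finset

namespace Pool.Agent.RCG

variable {G : Type*} [Group G] [Fintype G]

theorem Planch_orth : OrthogonalFamily ℝ (fun i : {α : G → ℝ // α ∈ chars G} => JE i.1)
      (fun i : {α : G → ℝ // α ∈ chars G} => (JE i.1).subtypeₗᵢ) := by
  intro i j hij
  have h := JE_orthogonal (G := G) (i := i.1) (j := j.1) (fun h => hij (Subtype.ext h))
  exact h

theorem Planch_sum_proj (x : EuclideanSpace ℝ G) :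
    ∑ α ∈ chars G, (JE α).starProjection x = x := by
  have hx : x ∈ ⨆ i : {α : G → ℝ // α ∈ chars G}, JE i.1 := by
    have h1 : (⨆ α : G → ℝ, JE α) ≤ ⨆ i : {α : G → ℝ // α ∈ chars G}, JE i.1 := by
      refine iSup_le fun α => ?_
      by_cases hα : IsCh α
      · exact le_iSup (fun i : {α : G → ℝ // α ∈ chars G} => JE i.1) ⟨α, mem_chars.2 hα⟩
      · have h2 : JE α = ⊥ := not_not.1 hα
        rw [h2]
        exact bot_le
    rw [JE_iSup] at h1
    exact h1 trivial
  have h3 := (Planch_orth (G := G)).sum_projection_of_mem_iSup x hx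
  rw [← Finset.sum_coe_sort]
  exact h3

theorem sum_eV : ∑ α ∈ chars G, eV (JE α) = pm (1 : G) :=
  Planch_sum_proj (pm 1)

theorem Planch_eval (α : G → ℝ) (g : G) : eV (JE α) g = α g * eV (JE α) 1 :=
  JE_eval (eV_mem _) (eV_conj (JE_biv α)) (eV_inv (JE_biv α)) g

theorem Planch_sum (g : G) :
    ∑ α ∈ chars G, (Module.finrank ℝ (JE α) : ℝ) * α g =
      (Fintype.card G : ℝ) * (pm (1 : G) : EuclideanSpace ℝ G) g := by
  rw [← sum_eV, WithLp.ofLp_sum, Finset.sum_apply, Finset.mul_sum]
  refine Finset.sum_congr rfl fun α _ => ?_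
  rw [← eV_one (JE_biv α), Planch_eval α g]
  ring

theorem ch_plancherel_one :
    ∑ α ∈ chars G, (Module.finrank ℝ (JE α) : ℝ) * α 1 = Fintype.card G := by
  rw [Planch_sum, pm_apply_self, mul_one]

theorem ch_plancherel_ne {g : G} (hg : g ≠ 1) :
    ∑ α ∈ chars G, (Module.finrank ℝ (JE α) : ℝ) * α g = 0 := by
  rw [Planch_sum, pm_apply_ne hg, mul_zero]

theorem ch_sum_dim : ∑ α ∈ chars G, (Module.finrank ℝ (JE α) : ℝ) = Fintype.card G := by
  rw [← ch_plancherel_one]
  refine Finset.sum_congr rfl fun α hα => ?_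
  rw [ch_one (mem_chars.1 hα), mul_one]

theorem finrank_JE_one : Module.finrank ℝ (JE (1 : G → ℝ)) = 1 := by
  set u : EuclideanSpace ℝ G := WithLp.toLp 2 (1 : G → ℝ) with hu
  have hR : ∀ a : G, regR G a u = u := by
    intro a
    ext x
    rw [regR_apply]
    rfl
  have hL : ∀ a : G, regL G a u = u := by
    intro a
    ext x
    rw [regL_apply]
    rfl
  have hmem : u ∈ JE (1 : G → ℝ) := ch_mem isCh_one'
  have hu0 : u ≠ 0 := by
    intro h
    have h1 : u 1 = 0 := by rw [h]; rfl
    have h2 : u 1 = 1 := rfl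
    rw [h2] at h1
    exact one_ne_zero h1
  have hB : Biv (Submodule.span ℝ {u}) := by
    constructor
    · intro a v hv
      obtain ⟨c, rfl⟩ := Submodule.mem_span_singleton.1 hv
      rw [map_smul, hR]
      exact hv
    · intro a v hv
      obtain ⟨c, rfl⟩ := Submodule.mem_span_singleton.1 hv
      rw [map_smul, hL]
      exact hv
  have hle : Submodule.span ℝ {u} ≤ JE (1 : G → ℝ) :=
    (Submodule.span_singleton_le_iff_mem _ _).2 hmem
  have hne : Submodule.span ℝ {u} ≠ ⊥ := by
    rw [Ne, Submodule.span_singleton_eq_bot]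
    exact hu0
  rw [← JE_min hB hle hne]
  exact finrank_span_singleton hu0

end Pool.Agent.RCG
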