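import Pool.Agent.W_6acff7b_h70.RR
import Pool.Agent.W_6acff7b_h70.Planch

/-!
# Every element is a product of two words

PROOF of `cover2`.  Let `N = card ι`, `c g = #{i | w i = g}`.  `∑_g (c g)² = #{(i,j) | (w i)⁻¹ w j = 1}
= (1/|G|) ∑_{i,j} ∑_α d_α α ((w i)⁻¹ w j) = (N²/|G|) ∑_α d_α rr α w ≤ (3/2) N²/|G|` (`ch_plancherel_one/ne`, `finrank_JE_one`,
`sum_chars`, `rr 1 w = 1`).  By Cauchy–Schwarz (`N = ∑_{g ∈ range} c g`) `N² ≤ #range * ∑ (c g)²`, so `#range ≥ (2/3)|G| > |G|/2`.
So for every `g` the sets `range w` and `g * (range w)⁻¹` intersect: `w i = g (w j)⁻¹`, `g = w i * w j`.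
-/

open Finset

namespace Pool.Agent.RCG

variable {G : Type*} [Group G] [Fintype G]

theorem Cover2_pair {ι : Type*} (w : ι → G) (p : ι × ι) [Decidable (w p.1 = w p.2)] :
    ∑ α ∈ chars G, (Module.finrank ℝ (JE α) : ℝ) * α ((w p.1)⁻¹ * w p.2) =
      if w p.1 = w p.2 then (Fintype.card G : ℝ) else 0 := by
  split_ifs with h
  · rw [h, inv_mul_cancel]
    exact ch_plancherel_one
  · exact ch_plancherel_ne fun h1 => h (inv_mul_eq_one.1 h1)

open Classical in
theorem coll_eq {ι : Type*} [Fintype ι] [Nonempty ι] (w : ι → G) :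
    (((univ : Finset (ι × ι)).filter fun p => w p.1 = w p.2).card : ℝ) * Fintype.card G =
      (Fintype.card ι : ℝ) ^ 2 *
        (1 + ∑ α ∈ chars1 G, (Module.finrank ℝ (JE α) : ℝ) * rr α w) := by
  have hN : (Fintype.card ι : ℝ) ≠ 0 := by
    exact_mod_cast Fintype.card_ne_zero
  have hrr : ∀ α : G → ℝ, ∑ p : ι × ι, α ((w p.1)⁻¹ * w p.2) =
      (Fintype.card ι : ℝ) ^ 2 * rr α w := by
    intro α
    unfold rr
    rw [Fintype.sum_prod_type, ← mul_assoc, mul_inv_cancel₀ (pow_ne_zero 2 hN), one_mul]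
  have h1 : (((univ : Finset (ι × ι)).filter fun p => w p.1 = w p.2).card : ℝ) *
      Fintype.card G = ∑ p : ι × ι, if w p.1 = w p.2 then (Fintype.card G : ℝ) else 0 := by
    rw [← Finset.sum_filter, Finset.sum_const, nsmul_eq_mul]
  have h2 : ∑ p : ι × ι, (if w p.1 = w p.2 then (Fintype.card G : ℝ) else 0) =
      ∑ p : ι × ι, ∑ α ∈ chars G, (Module.finrank ℝ (JE α) : ℝ) * α ((w p.1)⁻¹ * w p.2) :=
    Finset.sum_congr rfl fun p _ => (Cover2_pair w p).symm
  rw [h1, h2, Finset.sum_comm]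
  have h3 : ∀ α ∈ chars G, ∑ p : ι × ι, (Module.finrank ℝ (JE α) : ℝ) * α ((w p.1)⁻¹ * w p.2) =
      (Fintype.card ι : ℝ) ^ 2 * ((Module.finrank ℝ (JE α) : ℝ) * rr α w) := by
    intro α _
    rw [← Finset.mul_sum, hrr α]
    ring
  rw [Finset.sum_congr rfl h3, ← Finset.mul_sum,
    sum_chars (fun α : G → ℝ => (Module.finrank ℝ (JE α) : ℝ) * rr α w)]
  rw [rr_one w, finrank_JE_one]
  norm_num

theorem cover2 {ι : Type*} [Fintype ι] [Nonempty ι] (w : ι → G)
    (h : ∑ α ∈ chars1 G, (Module.finrank ℝ (JE α) : ℝ) * rr α w ≤ 1 / 2) (g : G) :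
    ∃ i j, g = w i * w j := by
  classical
  obtain ⟨R, hR⟩ : ∃ R : Finset G, R = univ.image w := ⟨_, rfl⟩
  obtain ⟨c, hc⟩ : ∃ c : G → ℕ, c = fun g => ((univ : Finset ι).filter fun i => w i = g).card :=
    ⟨_, rfl⟩
  have hN : (0 : ℝ) < Fintype.card ι := by
    exact_mod_cast Fintype.card_pos
  have hmaps : ∀ i ∈ (univ : Finset ι), w i ∈ R := by
    intro i _
    rw [hR]
    exact Finset.mem_image_of_mem w (Finset.mem_univ i)
  have hsum : Fintype.card ι = ∑ g ∈ R, c g := by
    rw [hc, ← Finset.card_univ]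
    exact Finset.card_eq_sum_card_fiberwise hmaps
  have hpairs : ((univ : Finset (ι × ι)).filter fun p => w p.1 = w p.2).card =
      ∑ g ∈ R, c g ^ 2 := by
    have h1 : ∀ p ∈ ((univ : Finset (ι × ι)).filter fun p => w p.1 = w p.2), w p.1 ∈ R :=
      fun p _ => hmaps p.1 (Finset.mem_univ _)
    rw [Finset.card_eq_sum_card_fiberwise h1]
    refine Finset.sum_congr rfl fun g _ => ?_
    have h2 : (((univ : Finset (ι × ι)).filter fun p => w p.1 = w p.2).filter
        fun p => w p.1 = g) = ((univ : Finset ι).filter fun i => w i = g) ×ˢ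
          ((univ : Finset ι).filter fun i => w i = g) := by
      ext p
      simp only [Finset.mem_filter, Finset.mem_univ, true_and, Finset.mem_product]
      constructor
      · rintro ⟨h3, h4⟩
        exact ⟨h4, h3 ▸ h4⟩
      · rintro ⟨h3, h4⟩
        exact ⟨h3.trans h4.symm, h3⟩
    rw [h2, Finset.card_product, hc, sq]
  have hcs : (Fintype.card ι : ℝ) ^ 2 ≤ (R.card : ℝ) *
      (((univ : Finset (ι × ι)).filter fun p => w p.1 = w p.2).card : ℝ) := by
    have h1 := sq_sum_le_card_mul_sum_sq (s := R) (f := fun g => (c g : ℝ))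
    rw [hpairs, hsum]
    push_cast
    exact h1
  have hcoll := coll_eq w
  have hle : (((univ : Finset (ι × ι)).filter fun p => w p.1 = w p.2).card : ℝ) *
      Fintype.card G ≤ (Fintype.card ι : ℝ) ^ 2 * (3 / 2) := by
    rw [hcoll]
    refine mul_le_mul_of_nonneg_left ?_ (by positivity)
    linarith
  have hG : (0 : ℝ) < Fintype.card G := by
    exact_mod_cast Fintype.card_pos
  have hRG : (Fintype.card G : ℝ) ≤ 3 / 2 * R.card := by
    have h1 : (Fintype.card ι : ℝ) ^ 2 * Fintype.card G ≤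
        (R.card : ℝ) * ((Fintype.card ι : ℝ) ^ 2 * (3 / 2)) := by
      calc (Fintype.card ι : ℝ) ^ 2 * Fintype.card G
          ≤ ((R.card : ℝ) * (((univ : Finset (ι × ι)).filter
              fun p => w p.1 = w p.2).card : ℝ)) * Fintype.card G :=
            mul_le_mul_of_nonneg_right hcs hG.le
        _ = (R.card : ℝ) * ((((univ : Finset (ι × ι)).filter
              fun p => w p.1 = w p.2).card : ℝ) * Fintype.card G) := by ring
        _ ≤ (R.card : ℝ) * ((Fintype.card ι : ℝ) ^ 2 * (3 / 2)) :=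
            mul_le_mul_of_nonneg_left hle (by positivity)
    have h2 : (0 : ℝ) < (Fintype.card ι : ℝ) ^ 2 := by positivity
    have h3 : (Fintype.card ι : ℝ) ^ 2 * Fintype.card G ≤
        (Fintype.card ι : ℝ) ^ 2 * (3 / 2 * R.card) := by
      calc _ ≤ _ := h1
        _ = _ := by ring
    exact le_of_mul_le_mul_left h3 h2
  -- two large sets intersect
  have hinj : Function.Injective (fun x : G => g * x⁻¹) := by
    intro x y hxy
    exact inv_injective (mul_left_cancel hxy)
  have hcard2 : (R.image fun x : G => g * x⁻¹).card = R.card :=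
    Finset.card_image_of_injective R hinj
  have hnd : ¬ Disjoint R (R.image fun x : G => g * x⁻¹) := by
    intro hd
    have h1 : (R ∪ (R.image fun x : G => g * x⁻¹)).card = R.card + R.card := by
      rw [Finset.card_union_of_disjoint hd, hcard2]
    have h2 := Finset.card_le_univ (R ∪ (R.image fun x : G => g * x⁻¹))
    rw [h1] at h2
    have h3 : ((R.card : ℝ) + R.card) ≤ Fintype.card G := by exact_mod_cast h2
    have h4 : (0 : ℝ) < R.card := by
      by_contra hneg
      push Not at hneg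
      linarith
    linarith
  rw [Finset.not_disjoint_iff] at hnd
  obtain ⟨x, hx, hx2⟩ := hnd
  rw [Finset.mem_image] at hx2
  obtain ⟨y, hy, rfl⟩ := hx2
  rw [hR, Finset.mem_image] at hx hy
  obtain ⟨i, -, hi⟩ := hx
  obtain ⟨j, -, hj⟩ := hy
  refine ⟨i, j, ?_⟩
  rw [hi, hj]
  group

end Pool.Agent.RCG
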