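import Pool.Agent.W_6acff7b_h70.CloMoment
import Pool.Agent.W_6acff7b_h70.CloGood
import Pool.Agent.W_MP_6acff7_h70.BetaStep

/-!
# The cycle step

PROOF of `betaC_dbl`.  For indices `(i, j), (i', j')` put `g1 = (w i)⁻¹ w i'`, `g2 = w j' (w j)⁻¹`; then
`w j * ((dbl w y (i,j))⁻¹ * dbl w y (i',j')) * (w j)⁻¹ = y⁻¹ g1 y g2` and `fixN g2 = fixN ((w j)⁻¹ w j')` (conjugate).  The proportion of
index pairs with `fixN g1 > φ n` or `fixN ((w j)⁻¹ w j') > φ n` is at most `2 β0`; for them bound the indicator of non-goodness by 1 for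
all `y`.  For the others non-goodness implies `φ n < cloN y g1 g2 L` (`goodEl_of_clo`, `goodEl_conj`), and by Markov and
`clo_moment` the number of such `y` is at most `φ^(-M) ∑_y (cloN/n)^M ≤ (θ'/φ)^M |A n|`.  Then exchange the sums.
(Compare `beta_step` in `BetaStep.lean`.)
-/

open Finset

namespace Pool.Agent.RCG

variable {n : ℕ}

open Classical in
/-- Double counting. -/
private theorem CycFam_swap {α β : Type*} [Fintype α] [Fintype β] (P : α → β → Prop) :
    ∑ b : β, ((univ.filter fun a : α => P a b).card : ℝ) =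
      ∑ a : α, ((univ.filter fun b : β => P a b).card : ℝ) := by
  have h1 : ∀ b : β, ((univ.filter fun a : α => P a b).card : ℝ) =
      ∑ a : α, if P a b then (1 : ℝ) else 0 := by
    intro b
    rw [Finset.card_filter]
    push_cast
    rfl
  have h2 : ∀ a : α, ((univ.filter fun b : β => P a b).card : ℝ) =
      ∑ b : β, if P a b then (1 : ℝ) else 0 := by
    intro a
    rw [Finset.card_filter]
    push_cast
    rfl
  rw [Finset.sum_congr rfl fun b _ => h1 b, Finset.sum_congr rfl fun a _ => h2 a,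
    Finset.sum_comm]

open Classical in
/-- The pairs of pairs with a bad first or a bad second component. -/
private theorem CycFam_card {ι : Type*} [Fintype ι] (Bad : Finset (ι × ι)) :
    (univ.filter fun q : (ι × ι) × (ι × ι) =>
      (q.1.1, q.2.1) ∈ Bad ∨ (q.1.2, q.2.2) ∈ Bad).card ≤
      2 * (Bad.card * (Fintype.card ι * Fintype.card ι)) := by
  have h1 : (univ.filter fun q : (ι × ι) × (ι × ι) =>
      (q.1.1, q.2.1) ∈ Bad ∨ (q.1.2, q.2.2) ∈ Bad) =
      (univ.filter fun q : (ι × ι) × (ι × ι) => (q.1.1, q.2.1) ∈ Bad) ∪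
      (univ.filter fun q : (ι × ι) × (ι × ι) => (q.1.2, q.2.2) ∈ Bad) :=
    Finset.filter_or _ _ _
  have h2 : (univ.filter fun q : (ι × ι) × (ι × ι) => (q.1.1, q.2.1) ∈ Bad).card =
      Bad.card * (Fintype.card ι * Fintype.card ι) := by
    have h3 : (univ.filter fun q : (ι × ι) × (ι × ι) => (q.1.1, q.2.1) ∈ Bad).card =
        (Bad ×ˢ (univ : Finset (ι × ι))).card := by
      refine Finset.card_bij' (fun q _ => ((q.1.1, q.2.1), (q.1.2, q.2.2)))
        (fun r _ => ((r.1.1, r.2.1), (r.1.2, r.2.2))) ?_ ?_ ?_ ?_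
      · intro q hq
        rw [Finset.mem_filter] at hq
        exact Finset.mem_product.2 ⟨hq.2, Finset.mem_univ _⟩
      · intro r hr
        rw [Finset.mem_product] at hr
        exact Finset.mem_filter.2 ⟨Finset.mem_univ _, hr.1⟩
      · intro q _; rfl
      · intro r _; rfl
    rw [h3, Finset.card_product, Finset.card_univ, Fintype.card_prod]
  have h2' : (univ.filter fun q : (ι × ι) × (ι × ι) => (q.1.2, q.2.2) ∈ Bad).card =
      Bad.card * (Fintype.card ι * Fintype.card ι) := by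
    have h3 : (univ.filter fun q : (ι × ι) × (ι × ι) => (q.1.2, q.2.2) ∈ Bad).card =
        (Bad ×ˢ (univ : Finset (ι × ι))).card := by
      refine Finset.card_bij' (fun q _ => ((q.1.2, q.2.2), (q.1.1, q.2.1)))
        (fun r _ => ((r.2.1, r.1.1), (r.2.2, r.1.2))) ?_ ?_ ?_ ?_
      · intro q hq
        rw [Finset.mem_filter] at hq
        exact Finset.mem_product.2 ⟨hq.2, Finset.mem_univ _⟩
      · intro r hr
        rw [Finset.mem_product] at hr
        exact Finset.mem_filter.2 ⟨Finset.mem_univ _, hr.1⟩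
      · intro q _; rfl
      · intro r _; rfl
    rw [h3, Finset.card_product, Finset.card_univ, Fintype.card_prod]
  rw [h1]
  refine (Finset.card_union_le _ _).trans ?_
  rw [h2, h2']
  omega

theorem betaC_dbl {L M T : ℕ} {φ ψ β0 : ℝ} {ι : Type*} [Fintype ι] [Nonempty ι] (w : ι → A n)
    (hφ : 0 < φ) (hβ : beta φ w ≤ β0) (hL : 1 ≤ L) (hψ : 2 * φ ≤ ψ)
    (hT : ⌊3 * φ * n⌋₊ + n / L ≤ T) (hm : 4 * (2 * L * M) + 8 ≤ n) :
    ∑ y : A n, betaC ψ T (dbl w y) ≤
      (2 * β0 + ((((L : ℝ) + 1) * (4 * (2 * L * M + 2) / n)) / φ) ^ M) *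
        Fintype.card (A n) := by
  classical
  set θ : ℝ := ((L : ℝ) + 1) * (4 * (2 * L * M + 2) / n) with hθ
  set c : ℕ := Fintype.card ι with hc
  have hc0 : 0 < c := Fintype.card_pos
  have hc0' : (0 : ℝ) < c := by exact_mod_cast hc0
  have hn1 : 1 ≤ n := by omega
  have hn0 : (0 : ℝ) < n := by exact_mod_cast hn1
  have hθ0 : 0 ≤ θ := by
    rw [hθ]
    positivity
  set Bad : Finset (ι × ι) :=
    univ.filter fun q : ι × ι => φ * n < (fixN ((w q.1)⁻¹ * w q.2).1 : ℝ) with hBad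
  have hbeta : beta φ w = (Bad.card : ℝ) / (c : ℝ) ^ 2 := by
    rw [beta, hBad]
  set S : Finset ((ι × ι) × (ι × ι)) := univ.filter fun q : (ι × ι) × (ι × ι) =>
    (q.1.1, q.2.1) ∈ Bad ∨ (q.1.2, q.2.2) ∈ Bad with hS
  set P : (ι × ι) × (ι × ι) → A n → Prop := fun q y =>
    ¬ GoodEl ψ T ((dbl w y q.1)⁻¹ * dbl w y q.2) with hP
  set B : ℝ := (θ / φ) ^ M * Fintype.card (A n) with hB
  have hB0 : 0 ≤ B := by positivity
  have hgood : ∀ q : (ι × ι) × (ι × ι), q ∉ S → ((univ.filter fun y => P q y).card : ℝ) ≤ B := by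
    rintro ⟨⟨i, j⟩, ⟨i', j'⟩⟩ hq
    have hq1 : (fixN ((w i)⁻¹ * w i').1 : ℝ) ≤ φ * n := by
      by_contra hcon
      apply hq
      rw [hS, Finset.mem_filter]
      refine ⟨Finset.mem_univ _, Or.inl ?_⟩
      rw [hBad, Finset.mem_filter]
      exact ⟨Finset.mem_univ _, not_le.1 hcon⟩
    have hq2 : (fixN ((w j)⁻¹ * w j').1 : ℝ) ≤ φ * n := by
      by_contra hcon
      apply hq
      rw [hS, Finset.mem_filter]
      refine ⟨Finset.mem_univ _, Or.inr ?_⟩
      rw [hBad, Finset.mem_filter]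
      exact ⟨Finset.mem_univ _, not_le.1 hcon⟩
    have hq3 : (fixN (w j' * (w j)⁻¹).1 : ℝ) ≤ φ * n := by
      have h1 : (w j' * (w j)⁻¹).1 = (w j).1 * ((w j)⁻¹ * w j').1 * (w j).1⁻¹ := by
        have h2 : w j' * (w j)⁻¹ = w j * ((w j)⁻¹ * w j') * (w j)⁻¹ := by group
        rw [h2]
        rfl
      rw [h1, fixN_conj]
      exact hq2
    have hclo : ∀ y : A n, P ((i, j), (i', j')) y →
        φ * n < (cloN y.1 ((w i)⁻¹ * w i').1 (w j' * (w j)⁻¹).1 L : ℝ) := by
      intro y hy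
      by_contra hcon
      apply hy
      have hg := goodEl_of_clo hL hn1 hψ hT y _ _ hq1 hq3 (not_lt.1 hcon)
      apply goodEl_conj (w j)
      have h2 : w j * ((dbl w y (i, j))⁻¹ * dbl w y (i', j')) * (w j)⁻¹ =
          y⁻¹ * ((w i)⁻¹ * w i') * y * (w j' * (w j)⁻¹) := by
        simp only [dbl]
        group
      rw [h2]
      exact hg
    have hrev := clo_moment (M := M) hm ((w i)⁻¹ * w i').1 (w j' * (w j)⁻¹).1
    have h3 : φ ^ M * ((univ.filter fun y => P ((i, j), (i', j')) y).card : ℝ) ≤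
        θ ^ M * Fintype.card (A n) := by
      refine le_trans ?_ hrev
      rw [mul_comm, ← nsmul_eq_mul, ← Finset.sum_const]
      refine (Finset.sum_le_sum fun y hy => ?_).trans
        (Finset.sum_le_sum_of_subset_of_nonneg (Finset.filter_subset _ _)
          fun y _ _ => ?_)
      · rw [Finset.mem_filter] at hy
        have h4 := hclo y hy.2
        apply pow_le_pow_left₀ hφ.le
        rw [le_div_iff₀ hn0]
        exact h4.le
      · positivity
    have hφM : (0 : ℝ) < φ ^ M := pow_pos hφ _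
    rw [hB, div_pow, div_mul_eq_mul_div, le_div_iff₀ hφM]
    linarith
  have hall : ∀ q : (ι × ι) × (ι × ι), ((univ.filter fun y => P q y).card : ℝ) ≤
      (if q ∈ S then (Fintype.card (A n) : ℝ) else 0) + B := by
    intro q
    by_cases hq : q ∈ S
    · rw [if_pos hq]
      have h1 : ((univ.filter fun y => P q y).card : ℝ) ≤ Fintype.card (A n) := by
        exact_mod_cast Finset.card_le_univ _
      linarith
    · rw [if_neg hq, zero_add]
      exact hgood q hq
  have hScard : (S.card : ℝ) ≤ 2 * β0 * ((c : ℝ) ^ 2) ^ 2 := by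
    have h1 : (S.card : ℝ) ≤ 2 * ((Bad.card : ℝ) * ((c : ℝ) * c)) := by
      have h2 := CycFam_card Bad
      exact_mod_cast h2
    have h8 : (Bad.card : ℝ) = beta φ w * (c : ℝ) ^ 2 := by
      rw [hbeta, div_mul_cancel₀]
      positivity
    have h9 : (Bad.card : ℝ) ≤ β0 * (c : ℝ) ^ 2 := by
      rw [h8]
      exact mul_le_mul_of_nonneg_right hβ (by positivity)
    have h10 := mul_le_mul_of_nonneg_right h9 (show (0 : ℝ) ≤ (c : ℝ) * c by positivity)
    nlinarith
  have hswap : ∑ y : A n, ((univ.filter fun q : (ι × ι) × (ι × ι) => P q y).card : ℝ) =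
      ∑ q : (ι × ι) × (ι × ι), ((univ.filter fun y => P q y).card : ℝ) := by
    convert CycFam_swap P
  have hcard : (Fintype.card (ι × ι) : ℝ) = (c : ℝ) ^ 2 := by
    rw [Fintype.card_prod]
    push_cast
    ring
  have hLHS : ∑ y : A n, betaC ψ T (dbl w y) =
      (∑ q : (ι × ι) × (ι × ι), ((univ.filter fun y => P q y).card : ℝ)) / ((c : ℝ) ^ 2) ^ 2 := by
    rw [← hswap, Finset.sum_div]
    refine Finset.sum_congr rfl fun y _ => ?_
    rw [betaC, hcard]
  rw [hLHS]
  have hden : (0 : ℝ) < ((c : ℝ) ^ 2) ^ 2 := by positivity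
  rw [div_le_iff₀ hden]
  have hsum := Finset.sum_le_sum fun (q : (ι × ι) × (ι × ι))
    (_ : q ∈ (univ : Finset ((ι × ι) × (ι × ι)))) => hall q
  refine hsum.trans ?_
  rw [Finset.sum_add_distrib, Finset.sum_const, Finset.card_univ, Fintype.card_prod,
    nsmul_eq_mul, Finset.sum_ite_mem, Finset.univ_inter, Finset.sum_const, nsmul_eq_mul, hB]
  have hA0 : (0 : ℝ) ≤ Fintype.card (A n) := Nat.cast_nonneg _
  have h10 := mul_le_mul_of_nonneg_right hScard hA0
  rw [Nat.cast_mul, hcard]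
  calc (S.card : ℝ) * (Fintype.card (A n) : ℝ) +
      (c : ℝ) ^ 2 * (c : ℝ) ^ 2 * ((θ / φ) ^ M * (Fintype.card (A n) : ℝ))
      ≤ 2 * β0 * ((c : ℝ) ^ 2) ^ 2 * (Fintype.card (A n) : ℝ) +
      (c : ℝ) ^ 2 * (c : ℝ) ^ 2 * ((θ / φ) ^ M * (Fintype.card (A n) : ℝ)) := by
        linarith
    _ = (2 * β0 + (θ / φ) ^ M) * (Fintype.card (A n) : ℝ) *
        ((c : ℝ) ^ 2) ^ 2 := by ring

end Pool.Agent.RCG
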