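import Pool.Agent.W_6acff7b_h70.CycFam
import Pool.Agent.W_MP_6acff7_h70.StepAB

/-!
# The cycle step, in the language of steps

`stepCyc`: as `stepB` (`StepAB.lean`): `pr_markov`, reindex `Fin k × Fin k` by `Fin (k * k)`; words `w i * y * w j` have length at
most `l + 1 + l`.
-/

open Finset

namespace Pool.Agent.RCG

variable {n : ℕ}

theorem betaC_reindex {ψ : ℝ} {T : ℕ} {ι ι' : Type*} [Fintype ι] [Fintype ι'] (e : ι' ≃ ι)
    (w : ι → A n) : betaC ψ T (fun i => w (e i)) = betaC ψ T w := by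
  classical
  unfold betaC
  rw [Fintype.card_congr e]
  congr 2
  refine card_bij (fun q _ => (e q.1, e q.2)) ?_ ?_ ?_
  · rintro ⟨a, b⟩ hq
    simp only [mem_filter, mem_univ, true_and] at hq ⊢
    exact hq
  · rintro ⟨a, b⟩ _ ⟨a', b'⟩ _ h
    simp only [Prod.mk.injEq, EmbeddingLike.apply_eq_iff_eq] at h
    exact Prod.ext h.1 h.2
  · rintro ⟨a, b⟩ hq
    refine ⟨(e.symm a, e.symm b), ?_, ?_⟩
    · simp only [mem_filter, mem_univ, true_and, Equiv.apply_symm_apply] at hq ⊢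
      exact hq
    · simp

theorem stepCyc {L M T l : ℕ} {φ ψ e e' : ℝ} (hφ : 0 < φ) (hL : 1 ≤ L) (hψ : 2 * φ ≤ ψ)
    (hT : ⌊3 * φ * n⌋₊ + n / L ≤ T) (hm : 4 * (2 * L * M) + 8 ≤ n) :
    Step n 1 ((2 * Real.exp (-e) +
        ((((L : ℝ) + 1) * (4 * (2 * L * M + 2) / n)) / φ) ^ M) / Real.exp (-e'))
      (HasFam n φ l e) (HasFamC n ψ T (2 * l + 1) e') := by
  classical
  rintro S ⟨k, hk, w, hw, hβ⟩
  have : Nonempty (Fin k) := ⟨⟨0, hk⟩⟩
  have h0 := betaC_dbl w hφ hβ hL hψ hT hm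
  have key : ∀ y : A n, betaC ψ T (dbl w y) ≤
      Real.exp (-e') → ∀ S' : Set (A n), S ⊆ S' → y ∈ S' →
      HasFamC n ψ T (2 * l + 1) e' S' := by
    intro y hy S' hSS hyS
    let E := Fintype.equivFin (Fin k × Fin k)
    refine ⟨Fintype.card (Fin k × Fin k), Fintype.card_pos,
      fun a => dbl w y (E.symm a), ?_, ?_⟩
    · intro a
      have h1 : WL S' l (w (E.symm a).1) := (hw _).mono hSS le_rfl
      have h2 : WL S' l (w (E.symm a).2) := (hw _).mono hSS le_rfl
      have h3 := (h1.mul (WL.of_mem hyS)).mul h2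
      exact h3.mono (Set.Subset.refl _) (by omega)
    · have := betaC_reindex (ψ := ψ) (T := T) E.symm (dbl w y)
      rw [this]
      exact hy
  have h1 := pr_congr (Equiv.funUnique (Fin 1) (A n))
    (fun y : A n => Real.exp (-e') < betaC ψ T (dbl w y))
  refine le_trans (pr_mono (Q := fun z : Fin 1 → A n => Real.exp (-e') <
      betaC ψ T (dbl w (Equiv.funUnique (Fin 1) (A n) z))) ?_) (le_trans (le_of_eq h1) ?_)
  · intro z hz
    by_contra hlt
    apply hz
    have h2 : Equiv.funUnique (Fin 1) (A n) z = z 0 := rfl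
    rw [h2] at hlt
    exact key (z 0) (not_lt.mp hlt) _ Set.subset_union_left (Or.inr ⟨0, rfl⟩)
  · refine pr_markov _ (fun y => ?_) _ _ (Real.exp_pos _) h0
    unfold betaC
    positivity

end Pool.Agent.RCG
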