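import Pool.Agent.W_6acff7b_h70.ParamCyc
import Pool.Agent.W_6acff7b_h70.StepCyc

/-!
# The cycle step, with explicit parameters

PROOF.  `paramCyc`, `stepCyc` with `L = ⌊x^3⌋₊`, `φ = 1/x^3`, `ψ = 1/x`, `e' = e/2`, `Step.weaken`.  `2/x^3 ≤ 1/x` for `x ≥ 2`.
-/

open Finset Filter Topology

namespace Pool.Agent.RCG

/-- Exponent in the bound for centralisers. -/
noncomputable def TC (n : ℕ) : ℕ := ⌊3 * (1 / Real.log n ^ 3) * n⌋₊ + n / ⌊Real.log n ^ 3⌋₊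

theorem cycStep : ∀ᶠ n : ℕ in atTop, ∀ (l : ℕ) (e : ℝ), n / Real.log n ^ 14 ≤ e →
    e ≤ n / Real.log n ^ 11 →
    Step n 1 (Real.exp (-(n : ℝ) ^ (1 / 4 : ℝ))) (HasFam n (1 / Real.log n ^ 3) l e)
      (HasFamC n (1 / Real.log n) (TC n) (2 * l + 1) (e / 2)) := by
  filter_upwards [paramCyc, (Real.tendsto_log_atTop.comp
    tendsto_natCast_atTop_atTop).eventually_ge_atTop 2] with n hn hx l e he1 he2
  obtain ⟨M, hM, hb⟩ := hn e he1 he2
  have hx2 : (2 : ℝ) ≤ Real.log n := hx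
  have hx0 : (0 : ℝ) < Real.log n := by linarith
  have hφ : (0 : ℝ) < 1 / Real.log n ^ 3 := by positivity
  have h8 : (1 : ℝ) ≤ Real.log n ^ 3 := one_le_pow₀ (by linarith)
  have hL : 1 ≤ ⌊Real.log n ^ 3⌋₊ := Nat.le_floor (by exact_mod_cast h8)
  have hψ : 2 * (1 / Real.log n ^ 3) ≤ 1 / Real.log n := by
    rw [mul_one_div, div_le_div_iff₀ (by positivity) hx0]
    nlinarith [mul_self_nonneg (Real.log n - 2), mul_pos hx0 hx0]
  exact Step.weaken (stepCyc hφ hL hψ le_rfl hM) (fun _ h => h) (fun _ h => h) hb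

end Pool.Agent.RCG
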