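import Pool.Agent.W_6acff7b_h70.InvDef

/-!
# The number of levels

PROOF: the last `T` with `x^3 ≤ XX n T` (`XX n 1 = n^(2/3) ≥ x^3`; `XX n t → 1 < x^3`): `XX n (T+1) < x^3`, so
`XX n T = XX n (T+1)^(3/2) < x^(9/2) ≤ x^5`.  Taking logs, `(2/3)^T x ≥ 3 log x ≥ 1`, so `T log (3/2) ≤ log x`, `T ≤ 3 log x`
(`log (3/2) > 1/3`).  `XX n t` is decreasing in `t`.
-/

open Finset Filter Topology

namespace Pool.Agent.RCG

theorem exists_T : ∀ᶠ n : ℕ in atTop, ∃ T : ℕ, 1 ≤ T ∧ (T : ℝ) ≤ 3 * Real.log (Real.log n) ∧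
    (∀ t : ℕ, t ≤ T → Real.log n ^ 3 ≤ XX n t) ∧ XX n T ≤ Real.log n ^ 5 := by
  have hx : Tendsto (fun n : ℕ => Real.log n) atTop atTop :=
    Real.tendsto_log_atTop.comp tendsto_natCast_atTop_atTop
  have h1 : ∀ᶠ x : ℝ in atTop, Real.log x ≤ (2 / 9) * x := by
    have h := Real.isLittleO_log_id_atTop.bound (show (0 : ℝ) < 2 / 9 by norm_num)
    filter_upwards [h, eventually_ge_atTop 1] with x h hx
    rw [Real.norm_eq_abs, Real.norm_eq_abs, id_eq, abs_of_nonneg (zero_le_one.trans hx)] at h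
    exact (le_abs_self _).trans h
  filter_upwards [hx.eventually h1, hx.eventually_ge_atTop (Real.exp 1), eventually_gt_atTop 0]
    with n h1 h2 h3
  set x := Real.log n with hxd
  have hx0 : 0 < x := lt_of_lt_of_le (Real.exp_pos 1) h2
  have ha : 1 ≤ Real.log x := by rw [Real.le_log_iff_exp_le hx0]; exact h2
  have hn : (0 : ℝ) < n := by exact_mod_cast h3
  have hXX : ∀ t, XX n t = Real.exp (x * (2 / 3) ^ t) := fun t => by
    unfold XX
    rw [Real.rpow_def_of_pos hn]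
  have hxk : ∀ k : ℕ, x ^ k = Real.exp (k * Real.log x) := fun k => by
    rw [Real.exp_nat_mul, Real.exp_log hx0]
  have hP : ∀ t, x ^ 3 ≤ XX n t ↔ 3 * Real.log x ≤ x * (2 / 3) ^ t := by
    intro t
    rw [hXX, hxk, Real.exp_le_exp]
    norm_num
  have hex : ∃ t, ¬ (x ^ 3 ≤ XX n t) := by
    obtain ⟨t, ht⟩ := exists_pow_lt_of_lt_one (show 0 < 3 * Real.log x / x by positivity)
      (show (2 / 3 : ℝ) < 1 by norm_num)
    refine ⟨t, fun h => ?_⟩
    rw [hP] at h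
    rw [lt_div_iff₀ hx0] at ht
    linarith [mul_comm x ((2 / 3 : ℝ) ^ t)]
  classical
  obtain ⟨s, hs, hmin⟩ : ∃ s, ¬ (x ^ 3 ≤ XX n s) ∧ ∀ t, t < s → x ^ 3 ≤ XX n t :=
    ⟨Nat.find hex, Nat.find_spec hex, fun t ht => not_not.mp (Nat.find_min hex ht)⟩
  have h11 : x ^ 3 ≤ XX n 1 := (hP 1).2 (by rw [pow_one]; linarith)
  have h10 : x ^ 3 ≤ XX n 0 := (hP 0).2 (by rw [pow_zero]; linarith)
  have hs2 : 2 ≤ s := by
    by_contra hlt
    have : s = 0 ∨ s = 1 := by omega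
    rcases this with rfl | rfl
    · exact hs h10
    · exact hs h11
  obtain ⟨T, rfl⟩ : ∃ T, s = T + 1 := ⟨s - 1, by omega⟩
  refine ⟨T, by omega, ?_, fun t ht => hmin t (by omega), ?_⟩
  · have h4 := (hP T).1 (hmin T (by omega))
    have h5 : (3 / 2 : ℝ) ^ T ≤ x := by
      have h6 : (2 / 3 : ℝ) ^ T * (3 / 2) ^ T = 1 := by
        rw [← mul_pow]
        norm_num
      have h7 : 1 ≤ x * (2 / 3 : ℝ) ^ T := by linarith
      calc (3 / 2 : ℝ) ^ T = 1 * (3 / 2) ^ T := (one_mul _).symm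
        _ ≤ (x * (2 / 3 : ℝ) ^ T) * (3 / 2) ^ T :=
          mul_le_mul_of_nonneg_right h7 (by positivity)
        _ = x := by rw [mul_assoc, h6, mul_one]
    have h8 : (T : ℝ) * Real.log (3 / 2) ≤ Real.log x := by
      rw [← Real.log_pow]
      exact Real.log_le_log (by positivity) h5
    have h9 : (1 / 3 : ℝ) ≤ Real.log (3 / 2) := by
      rw [Real.le_log_iff_exp_le (by norm_num)]
      have h10 : Real.exp (1 / 3) ^ 3 = Real.exp 1 := by
        rw [← Real.exp_nat_mul]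
        norm_num
      have h11 := Real.exp_one_lt_d9
      by_contra hlt
      push Not at hlt
      have h12 : (3 / 2 : ℝ) ^ 3 < Real.exp (1 / 3) ^ 3 :=
        pow_lt_pow_left₀ hlt (by norm_num) (by norm_num)
      rw [h10] at h12
      norm_num at h12
      linarith
    have h13 : (T : ℝ) * (1 / 3) ≤ (T : ℝ) * Real.log (3 / 2) :=
      mul_le_mul_of_nonneg_left h9 (Nat.cast_nonneg T)
    linarith
  · have h4 : x * (2 / 3 : ℝ) ^ (T + 1) < 3 * Real.log x := by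
      rw [hP] at hs
      exact not_le.mp hs
    rw [pow_succ] at h4
    rw [hXX, hxk, Real.exp_le_exp]
    push_cast
    nlinarith

end Pool.Agent.RCG
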