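import Pool.Agent.W_6acff7b_h70.InvSucc
import Pool.Agent.W_6acff7b_h70.ExistsT

/-!
# Iteration of the levels

PROOF of `levIter`: `inv_one`, `inv_succ` give `Inv n T` (`exists_T`).  `(1 - 7/x)^T ≥ 1 - 7T/x ≥ 1/2` (`one_add_mul_le_pow`), so
`e ≥ (1/4)(n/x^8)/x^5 ≥ n/x^14`; `e ≤ (n/x^8)/x^3`; `(1 + 8/(x-1))^T ≤ exp (8T/(x-1)) ≤ 2`; the failure probability is at most
`3 log x * exp (-⌊n^(1/3)/x^8⌋) ≤ exp (-n^(1/4))`.
-/

open Finset Filter Topology

namespace Pool.Agent.RCG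

theorem LevIter_log : Tendsto (fun n : ℕ => Real.log (n : ℝ)) atTop atTop :=
  Real.tendsto_log_atTop.comp tendsto_natCast_atTop_atTop

theorem LevIter_small : ∀ᶠ n : ℕ in atTop,
    Real.log (Real.log n) ≤ 1 / 200 * Real.log n := by
  have h1 : ∀ᶠ y : ℝ in atTop, Real.log y ≤ 1 / 200 * y := by
    have h2 := Real.isLittleO_log_id_atTop.bound (c := 1 / 200) (by norm_num)
    filter_upwards [h2, eventually_ge_atTop (1 : ℝ)] with y hy hy1
    rw [id, Real.norm_of_nonneg (Real.log_nonneg hy1), Real.norm_of_nonneg (by linarith)] at hy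
    exact hy
  exact LevIter_log.eventually h1

theorem LevIter_big : ∀ᶠ n : ℕ in atTop,
    (Real.log n + 1 + (n : ℝ) ^ (1 / 4 : ℝ)) * Real.log n ^ 8 ≤ (n : ℝ) ^ (1 / 3 : ℝ) := by
  have h1 : ∀ᶠ y : ℝ in atTop, Real.log y ^ 8 ≤ 1 / 3 * y ^ (1 / 12 : ℝ) := by
    have h2 := (isLittleO_log_rpow_rpow_atTop (8 : ℝ) (show (0 : ℝ) < 1 / 12 by norm_num)).bound
      (c := 1 / 3) (by norm_num)
    filter_upwards [h2, eventually_ge_atTop (1 : ℝ)] with y hy hy1
    have h3 : 0 ≤ Real.log y := Real.log_nonneg hy1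
    rw [Real.norm_of_nonneg (Real.rpow_nonneg h3 _),
      Real.norm_of_nonneg (Real.rpow_nonneg (by linarith) _)] at hy
    have h4 : Real.log y ^ (8 : ℝ) = Real.log y ^ 8 := by
      exact_mod_cast Real.rpow_natCast (Real.log y) 8
    rw [h4] at hy
    exact hy
  have h5 : ∀ᶠ y : ℝ in atTop, Real.log y ≤ y ^ (1 / 4 : ℝ) := by
    have h2 := (isLittleO_log_rpow_atTop (show (0 : ℝ) < 1 / 4 by norm_num)).bound
      (c := 1) (by norm_num)
    filter_upwards [h2, eventually_ge_atTop (1 : ℝ)] with y hy hy1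
    rw [Real.norm_of_nonneg (Real.log_nonneg hy1),
      Real.norm_of_nonneg (Real.rpow_nonneg (by linarith) _), one_mul] at hy
    exact hy
  have h6 : ∀ᶠ y : ℝ in atTop,
      (Real.log y + 1 + y ^ (1 / 4 : ℝ)) * Real.log y ^ 8 ≤ y ^ (1 / 3 : ℝ) := by
    filter_upwards [h1, h5, eventually_ge_atTop (1 : ℝ)] with y hy1 hy2 hy3
    have h7 : (1 : ℝ) ≤ y ^ (1 / 4 : ℝ) := Real.one_le_rpow hy3 (by norm_num)
    have h8 : 0 ≤ Real.log y ^ 8 := by positivity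
    have h9 : y ^ (1 / 4 : ℝ) * y ^ (1 / 12 : ℝ) = y ^ (1 / 3 : ℝ) := by
      rw [← Real.rpow_add (by linarith)]
      norm_num
    calc (Real.log y + 1 + y ^ (1 / 4 : ℝ)) * Real.log y ^ 8
        ≤ (3 * y ^ (1 / 4 : ℝ)) * Real.log y ^ 8 :=
          mul_le_mul_of_nonneg_right (by linarith) h8
      _ ≤ (3 * y ^ (1 / 4 : ℝ)) * (1 / 3 * y ^ (1 / 12 : ℝ)) :=
          mul_le_mul_of_nonneg_left hy1 (by linarith)
      _ = y ^ (1 / 4 : ℝ) * y ^ (1 / 12 : ℝ) := by ring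
      _ = y ^ (1 / 3 : ℝ) := h9
  exact tendsto_natCast_atTop_atTop.eventually h6

theorem LevIter_exp : Real.exp (1 / 2) ≤ 2 := by
  have h := Real.exp_one_lt_d9
  have h2 : Real.exp (1 / 2) * Real.exp (1 / 2) = Real.exp 1 := by
    rw [← Real.exp_add]
    norm_num
  nlinarith [Real.exp_pos (1 / 2 : ℝ)]

theorem levIter : ∀ᶠ n : ℕ in atTop, ∃ (T l : ℕ) (e : ℝ),
    (T : ℝ) ≤ 3 * Real.log (Real.log n) ∧ (l : ℝ) + 1 ≤ 224 * e ∧
    n / Real.log n ^ 14 ≤ e ∧ e ≤ n / Real.log n ^ 11 ∧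
    Step n T (Real.exp (-(n : ℝ) ^ (1 / 4 : ℝ)))
      (HasFam n (1 / Real.log n ^ 3) 55 4) (HasFam n (1 / Real.log n ^ 3) l e) := by
  filter_upwards [inv_one, inv_succ, exists_T, LevIter_small, LevIter_big,
    LevIter_log.eventually (eventually_ge_atTop (100 : ℝ)), eventually_ge_atTop 1]
    with n h1 h2 h3 hsm hbig hx hn
  obtain ⟨T, hT1, hTle, hT3, hT5⟩ := h3
  have hinv : ∀ t : ℕ, 1 ≤ t → t ≤ T → Inv n t := by
    intro t ht
    induction t, ht using Nat.le_induction with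
    | base => exact fun _ => h1
    | succ t ht ih => exact fun htT => h2 t ht (hT3 t (by omega)) (ih (by omega))
  obtain ⟨l, e, e1, e2, e3, e4, e5⟩ := hinv T hT1 le_rfl
  set x : ℝ := Real.log n with hxdef
  have hx0 : 0 < x := by linarith
  have hn0 : (0 : ℝ) < n := by exact_mod_cast hn
  have hX3 := hT3 T le_rfl
  have he0 : 0 ≤ e := le_trans (Nat.cast_nonneg _) e1
  have hTx : (T : ℝ) ≤ 3 / 200 * x := by linarith
  have hx3 : 0 < x ^ 3 := by positivity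
  have hXpos : 0 < XX n T := lt_of_lt_of_le hx3 hX3
  have hpow1 : 1 / 2 ≤ (1 - 7 / x) ^ T := by
    have hb : (-2 : ℝ) ≤ -(7 / x) := by
      have : 7 / x ≤ 1 := by rw [div_le_one hx0]; linarith
      linarith
    have hb2 := one_add_mul_le_pow hb T
    have hb3 : (T : ℝ) * (7 / x) ≤ 1 / 2 := by
      rw [mul_div_assoc', div_le_iff₀ hx0]
      linarith
    have hb4 : (1 + -(7 / x)) ^ T = (1 - 7 / x) ^ T := by rw [← sub_eq_add_neg]
    rw [hb4] at hb2
    linarith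
  have hpow2 : (1 + 8 / (x - 1)) ^ T ≤ 2 := by
    have hb1 : 1 + 8 / (x - 1) ≤ Real.exp (8 / (x - 1)) := by
      have := Real.add_one_le_exp (8 / (x - 1))
      linarith
    have hx1 : 0 < x - 1 := by linarith
    have hb2 : (1 + 8 / (x - 1)) ^ T ≤ Real.exp (8 / (x - 1)) ^ T :=
      pow_le_pow_left₀ (by positivity) hb1 T
    rw [← Real.exp_nat_mul] at hb2
    refine hb2.trans (le_trans (Real.exp_le_exp.2 ?_) LevIter_exp)
    rw [mul_div_assoc', div_le_iff₀ hx1]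
    linarith
  refine ⟨T, l, e, hTle, ?_, ?_, ?_, ?_⟩
  · refine e4.trans ?_
    have := mul_le_mul_of_nonneg_right hpow2 he0
    linarith
  · have hq : 0 < (n : ℝ) / x ^ 8 := by positivity
    have hA : 1 / 4 * (n / x ^ 8) ≤ e * x ^ 5 := by
      calc 1 / 4 * (n / x ^ 8) = 1 / 2 * (1 / 2) * (n / x ^ 8) := by ring
        _ ≤ 1 / 2 * (1 - 7 / x) ^ T * (n / x ^ 8) := by
          refine mul_le_mul_of_nonneg_right ?_ hq.le
          linarith
        _ ≤ e * XX n T := e3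
        _ ≤ e * x ^ 5 := mul_le_mul_of_nonneg_left hT5 he0
    rw [div_le_iff₀ (by positivity)]
    have hB : (n : ℝ) / x ^ 8 * x ^ 8 = n := by field_simp
    calc (n : ℝ) = n / x ^ 8 * x ^ 8 := hB.symm
      _ = 4 * (1 / 4 * (n / x ^ 8)) * x ^ 8 := by ring
      _ ≤ 4 * (e * x ^ 5) * x ^ 8 := by
        refine mul_le_mul_of_nonneg_right ?_ (by positivity)
        linarith
      _ = 4 * (e * x ^ 13) := by ring
      _ ≤ x * (e * x ^ 13) := mul_le_mul_of_nonneg_right (by linarith) (by positivity)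
      _ = e * x ^ 14 := by ring
  · rw [le_div_iff₀ (by positivity)]
    have hA : e * x ^ 3 ≤ n / x ^ 8 := (mul_le_mul_of_nonneg_left hX3 he0).trans e2
    rw [le_div_iff₀ (by positivity)] at hA
    have hA2 : e * x ^ 11 = e * x ^ 3 * x ^ 8 := by ring
    rw [hA2]
    exact hA
  · refine Step.weaken e5 (fun _ h => h) (fun _ h => h) ?_
    set M : ℕ := ⌊(n : ℝ) ^ (1 / 3 : ℝ) / x ^ 8⌋₊ with hM
    have hfl : (n : ℝ) ^ (1 / 3 : ℝ) / x ^ 8 < M + 1 := Nat.lt_floor_add_one _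
    have hM2 : x + (n : ℝ) ^ (1 / 4 : ℝ) ≤ M := by
      have hc : x + 1 + (n : ℝ) ^ (1 / 4 : ℝ) ≤ (n : ℝ) ^ (1 / 3 : ℝ) / x ^ 8 := by
        rw [le_div_iff₀ (by positivity)]
        exact hbig
      linarith
    have hTe : (T : ℝ) ≤ Real.exp x := by
      have := Real.add_one_le_exp x
      linarith
    calc (T : ℝ) * Real.exp (-(M : ℝ)) ≤ Real.exp x * Real.exp (-(M : ℝ)) :=
          mul_le_mul_of_nonneg_right hTe (Real.exp_pos _).le
      _ = Real.exp (x + -(M : ℝ)) := (Real.exp_add _ _).symm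
      _ ≤ Real.exp (-(n : ℝ) ^ (1 / 4 : ℝ)) := Real.exp_le_exp.2 (by linarith)

end Pool.Agent.RCG
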