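import Pool.Agent.W_6acff7b_h70.ParamInit
import Pool.Agent.W_6acff7b_h70.CountAll

/-!
# Failure probability of one doubling

PROOF.  `s = sqrt (6 x^(-1/12)) = sqrt 6 * x^(-1/24)`, `32 sqrt 6 < 79`.  `(chars (A n)).card ≤ 2 (n+1)^(2 sqrt n) ≤ exp (n^(2/3))` (`count_all`;
`Nat.sqrt n ≤ n^(1/2)`), `t = 2 exp (-E/2) ≤ 2 exp (-n/(2 x^15))`, so `(chars (A n)).card * t ≤ x^(-1/24)` for large `n`.
-/

open Finset Filter Topology

namespace Pool.Agent.RCG

theorem ParamEps_log : ∀ᶠ n : ℕ in atTop, 1 ≤ Real.log n ∧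
    Real.log ((n : ℝ) + 1) ≤ 2 * Real.log n ∧ 64 * Real.log n ^ 16 ≤ Real.sqrt n ∧
    1 ≤ Real.sqrt n := by
  have h1 : ∀ᶠ n : ℕ in atTop, (3 : ℕ) ≤ n := eventually_ge_atTop 3
  have h2 := (isLittleO_log_rpow_rpow_atTop (16 : ℝ) (one_half_pos (α := ℝ))).comp_tendsto
    tendsto_natCast_atTop_atTop
  have h3 := h2.bound (show (0 : ℝ) < 1 / 64 by norm_num)
  filter_upwards [h1, h3] with n hn h3
  have hn' : (3 : ℝ) ≤ n := by exact_mod_cast hn
  have hx : 1 ≤ Real.log n := by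
    rw [Real.le_log_iff_exp_le (by linarith)]
    exact Real.exp_one_lt_d9.le.trans (by linarith)
  refine ⟨hx, ?_, ?_, ?_⟩
  · have h4 : (n : ℝ) + 1 ≤ (n : ℝ) ^ 2 := by nlinarith
    have h5 := Real.log_le_log (by linarith) h4
    rwa [Real.log_pow, Nat.cast_ofNat] at h5
  · simp only [Function.comp_apply] at h3
    have h6 : ((16 : ℝ)) = ((16 : ℕ) : ℝ) := by norm_num
    rw [h6, Real.rpow_natCast, ← Real.sqrt_eq_rpow, Real.norm_of_nonneg (by positivity),
      Real.norm_of_nonneg (Real.sqrt_nonneg _)] at h3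
    linarith
  · rw [Real.one_le_sqrt]
    linarith

theorem ParamEps_main {n : ℕ} {x E : ℝ} (hx1 : 1 ≤ x)
    (h1 : Real.log ((n : ℝ) + 1) ≤ 2 * x) (h2 : 64 * x ^ 16 ≤ Real.sqrt n)
    (h3 : 1 ≤ Real.sqrt n) (hE : n / x ^ 15 ≤ E) :
    ((chars (A n)).card : ℝ) * (2 * Real.exp (-(E / 2))) ≤ x ^ (-(1 / 24) : ℝ) := by
  have hx0 : 0 < x := by linarith
  have hc : ((chars (A n)).card : ℝ) ≤ 2 * ((n : ℝ) + 1) ^ (2 * Nat.sqrt n) := by
    have := count_all n
    exact_mod_cast this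
  have hp : ((n : ℝ) + 1) ^ (2 * Nat.sqrt n) ≤ Real.exp (4 * Real.sqrt n * x) := by
    rw [← Real.exp_log (show (0 : ℝ) < (n : ℝ) + 1 by positivity), ← Real.exp_nat_mul]
    apply Real.exp_le_exp.2
    push_cast
    have h4 := Real.nat_sqrt_le_real_sqrt (a := n)
    have h5 : (2 * (Nat.sqrt n : ℝ)) * Real.log ((n : ℝ) + 1) ≤
        (2 * Real.sqrt n) * (2 * x) := by
      refine mul_le_mul (by linarith) h1 (Real.log_nonneg ?_) (by positivity)
      have : (0 : ℝ) ≤ n := Nat.cast_nonneg n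
      linarith
    linarith
  have hE2 : 64 * x * Real.sqrt n ≤ E := by
    refine le_trans ?_ hE
    rw [le_div_iff₀ (by positivity)]
    have h6 : Real.sqrt n * Real.sqrt n = n := Real.mul_self_sqrt (Nat.cast_nonneg n)
    have h7 : 64 * x * Real.sqrt n * x ^ 15 = (64 * x ^ 16) * Real.sqrt n := by ring
    rw [h7]
    calc (64 * x ^ 16) * Real.sqrt n ≤ Real.sqrt n * Real.sqrt n :=
          mul_le_mul_of_nonneg_right h2 (Real.sqrt_nonneg _)
      _ = n := h6
  have h8 : x ≤ x * Real.sqrt n := by nlinarith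
  calc ((chars (A n)).card : ℝ) * (2 * Real.exp (-(E / 2)))
      ≤ (2 * Real.exp (4 * Real.sqrt n * x)) * (2 * Real.exp (-(32 * x * Real.sqrt n))) := by
        refine mul_le_mul (hc.trans ?_) ?_ (by positivity) (by positivity)
        · linarith
        · refine mul_le_mul_of_nonneg_left (Real.exp_le_exp.2 ?_) (by norm_num)
          linarith
    _ = 4 * Real.exp (-(28 * (x * Real.sqrt n))) := by
        have : -(28 * (x * Real.sqrt n)) = 4 * Real.sqrt n * x + -(32 * x * Real.sqrt n) := by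
          ring
        rw [this, Real.exp_add]
        ring
    _ ≤ 4 * Real.exp (-(28 * x)) := by
        refine mul_le_mul_of_nonneg_left (Real.exp_le_exp.2 ?_) (by norm_num)
        linarith
    _ ≤ x⁻¹ := by
        rw [Real.exp_neg, ← div_eq_mul_inv, div_le_iff₀ (Real.exp_pos _), ← div_eq_inv_mul,
          le_div_iff₀ hx0]
        have := Real.add_one_le_exp (28 * x)
        linarith
    _ = x ^ (-1 : ℝ) := (Real.rpow_neg_one x).symm
    _ ≤ x ^ (-(1 / 24) : ℝ) := Real.rpow_le_rpow_of_exponent_le hx1 (by norm_num)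

theorem paramEps : ∀ᶠ n : ℕ in atTop, ∀ E : ℝ, n / Real.log n ^ 15 ≤ E →
    32 * SS n + (chars (A n)).card * (2 * Real.exp (-(E / 2))) ≤
      100 * Real.log n ^ (-(1 / 24) : ℝ) := by
  filter_upwards [ParamEps_log] with n h E hE
  obtain ⟨h1, h2, h3, h4⟩ := h
  have h5 := ParamEps_main h1 h2 h3 h4 hE
  have hx0 : 0 < Real.log n := by linarith
  have h6 : SS n = Real.sqrt 6 * Real.log n ^ (-(1 / 24) : ℝ) := by
    unfold SS kap
    rw [Real.sqrt_mul (by norm_num)]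
    congr 1
    rw [Real.sqrt_eq_rpow, ← Real.rpow_mul hx0.le]
    norm_num
  have h7 : Real.sqrt 6 ≤ 3 := by
    rw [Real.sqrt_le_iff]
    norm_num
  have h8 : 0 ≤ Real.log n ^ (-(1 / 24) : ℝ) := Real.rpow_nonneg hx0.le _
  rw [h6]
  nlinarith

end Pool.Agent.RCG
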