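import Pool.Agent.W_6acff7b_h70.ParamInit
import Pool.Agent.W_MP_6acff7_h70.Defs

/-!
# The number of doublings

`x = log n`, `N = |A n|`.

PROOF.  `n ≤ log N ≤ n x` for large `n` (`N = n!/2`, `n^n ≥ n! ≥ (n/e)^n`; the lower bound is `log_card_ge` in
`W_MP_6acff7_h70/Main.lean`).  `q` = least with `2^q E ≥ 4 (log N + 3)`; `q ≥ 1` as `E ≤ n/x^11 < 4 (log N + 3)`, so
`2^q E ≤ 8 (log N + 3)`.  `2^q ≤ 8 (n x + 3) x^15/n ≤ 9 x^16`, so `q log 2 ≤ 16 log x + log 9` and `q ≤ 25 log x` (`16/log 2 < 23.1`).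
`2^q ≥ 4 n x^11/n = 4 x^11`.  With `Q = 2^q + 1`: `(2s)^Q ≤ exp (-Q) ≤ exp (-4 x^11)` (`param_kappa`), so `2 * 16 n^2 (2s)^Q ≤ 1/4`;
and also `16 n^2 (2s)^Q ≤ 1/2`.  `2t = 4 exp (-E/2) ≤ exp (-E/4)` (`E` large), so `N (2t)^Q ≤ exp (log N - Q E/4) ≤ exp (-3) ≤ 1/4`.
-/

open Finset Filter Topology

namespace Pool.Agent.RCG

private theorem pq_card_ge : ∀ᶠ n : ℕ in atTop,
    (n : ℝ) ≤ Real.log (Fintype.card (A n)) ∧
      Real.log (Fintype.card (A n)) ≤ n * Real.log n := by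
  have h1 : Tendsto (fun n : ℕ => (Real.exp 1) ^ n / (n.factorial : ℝ)) atTop (𝓝 0) :=
    FloorSemiring.tendsto_pow_div_factorial_atTop (Real.exp 1)
  have h2 : ∀ᶠ n : ℕ in atTop, (Real.exp 1) ^ n / (n.factorial : ℝ) < 1 / 2 :=
    h1.eventually (gt_mem_nhds (by norm_num))
  filter_upwards [h2, eventually_ge_atTop 2] with n hn hn2
  have hf : (0 : ℝ) < (n.factorial : ℝ) := by exact_mod_cast n.factorial_pos
  rw [div_lt_iff₀ hf] at hn
  have : Nontrivial (Fin n) := Fin.nontrivial_iff_two_le.2 hn2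
  have hc : 2 * Nat.card (alternatingGroup (Fin n)) = n.factorial := by
    rw [two_mul_nat_card_alternatingGroup, Nat.card_perm, Nat.card_eq_fintype_card,
      Fintype.card_fin]
  have hc' : 2 * Fintype.card (A n) = n.factorial := by
    rw [← hc, Nat.card_eq_fintype_card]
  have hc2 : (2 : ℝ) * (Fintype.card (A n) : ℝ) = (n.factorial : ℝ) := by
    exact_mod_cast hc'
  have hpos : (0 : ℝ) < (Fintype.card (A n) : ℝ) := by linarith
  have hn0 : (0 : ℝ) < (n : ℝ) := by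
    have : (2 : ℝ) ≤ (n : ℝ) := by exact_mod_cast hn2
    linarith
  constructor
  · rw [Real.le_log_iff_exp_le hpos]
    have h3 : Real.exp (n : ℝ) = Real.exp 1 ^ n := by
      rw [← Real.exp_nat_mul, mul_one]
    rw [h3]
    linarith
  · have h4 : (n.factorial : ℝ) ≤ (n : ℝ) ^ n := by
      exact_mod_cast Nat.factorial_le_pow n
    have h5 : (Fintype.card (A n) : ℝ) ≤ (n : ℝ) ^ n := by linarith
    calc Real.log (Fintype.card (A n)) ≤ Real.log ((n : ℝ) ^ n) := Real.log_le_log hpos h5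
      _ = n * Real.log n := by rw [Real.log_pow]

private theorem pq_ev : ∀ᶠ n : ℕ in atTop,
    12 ≤ (n : ℝ) / Real.log n ^ 15 ∧ 8 ≤ Real.log n ∧ 2 ≤ Real.log (Real.log n) ∧
      24 ≤ (n : ℝ) := by
  have hlog : Tendsto (fun n : ℕ => Real.log (n : ℝ)) atTop atTop :=
    Real.tendsto_log_atTop.comp tendsto_natCast_atTop_atTop
  have hll : Tendsto (fun n : ℕ => Real.log (Real.log (n : ℝ))) atTop atTop :=
    Real.tendsto_log_atTop.comp hlog
  have h1 : (fun x : ℝ => Real.log x ^ (15 : ℕ)) =o[atTop] (fun x : ℝ => x) := by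
    have := Real.isLittleO_pow_log_id_atTop (n := 15)
    exact this
  have h2 : ∀ᶠ x : ℝ in atTop, ‖Real.log x ^ (15 : ℕ)‖ ≤ (1 / 12) * ‖x‖ :=
    h1.def (by norm_num)
  have h3 : ∀ᶠ n : ℕ in atTop, ‖Real.log (n : ℝ) ^ (15 : ℕ)‖ ≤ (1 / 12) * ‖(n : ℝ)‖ :=
    tendsto_natCast_atTop_atTop.eventually h2
  filter_upwards [h3, hlog.eventually_ge_atTop 8, hll.eventually_ge_atTop 2,
    eventually_ge_atTop 24] with n h3 h4 h5 h6
  refine ⟨?_, h4, h5, by exact_mod_cast h6⟩
  have hp : (0 : ℝ) < Real.log n ^ 15 := by positivity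
  rw [Real.norm_of_nonneg hp.le, Real.norm_of_nonneg (by positivity)] at h3
  rw [le_div_iff₀ hp]
  linarith

theorem paramQ : ∀ᶠ n : ℕ in atTop, ∀ E : ℝ, n / Real.log n ^ 15 ≤ E → E ≤ n / Real.log n ^ 11 →
    ∃ q : ℕ, (q : ℝ) ≤ 25 * Real.log (Real.log n) ∧
      2 ^ q * E ≤ 8 * (Real.log (Fintype.card (A n)) + 3) ∧
      16 * (n : ℝ) ^ 2 * (2 * SS n) ^ (2 ^ q + 1) ≤ 1 / 2 ∧
      2 * (16 * (n : ℝ) ^ 2 * (2 * SS n) ^ (2 ^ q + 1)) +
        Fintype.card (A n) * (2 * (2 * Real.exp (-(E / 2)))) ^ (2 ^ q + 1) ≤ 1 / 2 := by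
  filter_upwards [pq_card_ge, pq_ev, param_kappa] with n hcard hev hk
  intro E hE1 hE2
  obtain ⟨hN1, hN2⟩ := hcard
  obtain ⟨hev1, hx8, hllx, hn24⟩ := hev
  obtain ⟨-, -, -, -, hs, -⟩ := hk
  set x : ℝ := Real.log n with hx
  set LN : ℝ := Real.log (Fintype.card (A n)) with hLN
  have hn0 : (0 : ℝ) < n := by linarith
  have hx0 : (0 : ℝ) < x := by linarith
  have hE0 : 12 ≤ E := hev1.trans hE1
  have hEpos : 0 < E := by linarith
  have hcardpos : (0 : ℝ) < (Fintype.card (A n) : ℝ) := by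
    by_contra h
    have h0 : (Fintype.card (A n) : ℝ) = 0 := le_antisymm (not_lt.1 h) (Nat.cast_nonneg _)
    rw [hLN, h0, Real.log_zero] at hN1
    linarith
  have hex : ∃ q : ℕ, 4 * (LN + 3) ≤ 2 ^ q * E := by
    obtain ⟨q, hq⟩ := pow_unbounded_of_one_lt (4 * (LN + 3)) (one_lt_two (α := ℝ))
    refine ⟨q, hq.le.trans ?_⟩
    have : (0 : ℝ) < 2 ^ q := by positivity
    nlinarith
  classical
  set q := Nat.find hex with hqdef
  have hq : 4 * (LN + 3) ≤ 2 ^ q * E := Nat.find_spec hex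
  have hx11 : (1 : ℝ) ≤ x ^ 11 := one_le_pow₀ (by linarith)
  have hEn : E ≤ n := hE2.trans (div_le_self hn0.le hx11)
  have hq1 : q ≠ 0 := by
    intro h0
    rw [h0, pow_zero, one_mul] at hq
    linarith
  obtain ⟨r, hr⟩ := Nat.exists_eq_succ_of_ne_zero hq1
  have hmin : ¬ 4 * (LN + 3) ≤ 2 ^ r * E := Nat.find_min hex (by omega)
  have hup : 2 ^ q * E ≤ 8 * (LN + 3) := by
    rw [hr, pow_succ]
    push Not at hmin
    nlinarith
  -- lower bound of `2^q`
  have hx11E : x ^ 11 * E ≤ n := by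
    have hp : (0 : ℝ) < x ^ 11 := by positivity
    rw [le_div_iff₀ hp] at hE2
    linarith
  have hx15E : (n : ℝ) ≤ x ^ 15 * E := by
    have hp : (0 : ℝ) < x ^ 15 := by positivity
    rw [div_le_iff₀ hp] at hE1
    linarith
  have hlow : 4 * x ^ 11 ≤ 2 ^ q := by
    have h1 : 4 * x ^ 11 * E ≤ 2 ^ q * E := by nlinarith
    exact le_of_mul_le_mul_right h1 hEpos
  have hhigh : (2 : ℝ) ^ q ≤ 9 * x ^ 16 := by
    have h1 : (2 : ℝ) ^ q * E ≤ 9 * x ^ 16 * E := by
      calc (2 : ℝ) ^ q * E ≤ 8 * (LN + 3) := hup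
        _ ≤ 8 * (n * x + 3) := by linarith
        _ ≤ 9 * x * n := by nlinarith
        _ ≤ 9 * x * (x ^ 15 * E) := by
            apply mul_le_mul_of_nonneg_left hx15E
            positivity
        _ = 9 * x ^ 16 * E := by ring
    exact le_of_mul_le_mul_right h1 hEpos
  have hqle : (q : ℝ) ≤ 25 * Real.log x := by
    have h1 : Real.log ((2 : ℝ) ^ q) ≤ Real.log (9 * x ^ 16) :=
      Real.log_le_log (by positivity) hhigh
    rw [Real.log_pow, Real.log_mul (by norm_num) (by positivity), Real.log_pow] at h1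
    have h2 : (0.6931471803 : ℝ) < Real.log 2 := Real.log_two_gt_d9
    have h9 : Real.log 9 ≤ 2.4 := by
      have : Real.log 9 ≤ Real.log (2 ^ (10 / 3 : ℝ)) := by
        apply Real.log_le_log (by norm_num)
        have h3 : (9 : ℝ) ^ (3 : ℝ) ≤ ((2 : ℝ) ^ (10 / 3 : ℝ)) ^ (3 : ℝ) := by
          rw [← Real.rpow_mul (by norm_num)]
          norm_num
        exact (Real.rpow_le_rpow_iff (by norm_num) (by positivity) (by norm_num)).1 h3
      rw [Real.log_rpow (by norm_num)] at this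
      have h4 : Real.log 2 < 0.6931471808 := Real.log_two_lt_d9
      linarith
    push_cast at h1
    by_contra hcon
    push Not at hcon
    have h5 : 25 * Real.log x * Real.log 2 < q * Real.log 2 := by
      apply mul_lt_mul_of_pos_right hcon; linarith
    nlinarith
  -- powers of `2 s`
  have hs0 : 0 ≤ 2 * SS n := by
    unfold SS; positivity
  have hpow : (2 * SS n) ^ (2 ^ q + 1) ≤ Real.exp (-(4 * x ^ 11)) := by
    calc (2 * SS n) ^ (2 ^ q + 1) ≤ (Real.exp (-1)) ^ (2 ^ q + 1) :=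
          pow_le_pow_left₀ hs0 hs _
      _ = Real.exp (-((2 : ℝ) ^ q + 1)) := by
          rw [← Real.exp_nat_mul]; congr 1; push_cast; ring
      _ ≤ Real.exp (-(4 * x ^ 11)) := by
          apply Real.exp_le_exp.2; linarith
  have hnexp : (n : ℝ) = Real.exp x := by rw [hx, Real.exp_log hn0]
  have hn16 : 16 * (n : ℝ) ^ 2 * (2 * SS n) ^ (2 ^ q + 1) ≤ 1 / 8 := by
    have h1 : x ≤ x ^ 11 := by
      calc x = x ^ 1 := (pow_one x).symm
        _ ≤ x ^ 11 := pow_le_pow_right₀ (by linarith) (by norm_num)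
    have h2 : (n : ℝ) ^ 2 * Real.exp (-(4 * x ^ 11)) ≤ Real.exp (-x) := by
      rw [hnexp, ← Real.exp_nat_mul, ← Real.exp_add]
      apply Real.exp_le_exp.2
      push_cast
      nlinarith
    have h3 : Real.exp (-x) ≤ 1 / 128 := by
      have h4 : Real.exp (-8) ≤ 1 / 128 := by
        rw [Real.exp_neg, inv_eq_one_div]
        apply one_div_le_one_div_of_le (by norm_num)
        have h5 : (2 : ℝ) ≤ Real.exp 1 := by
          have := Real.add_one_le_exp (1 : ℝ); linarith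
        have h6 : Real.exp 8 = Real.exp 1 ^ 8 := by
          rw [← Real.exp_nat_mul]; norm_num
        rw [h6]
        calc (128 : ℝ) ≤ 2 ^ 8 := by norm_num
          _ ≤ Real.exp 1 ^ 8 := pow_le_pow_left₀ (by norm_num) h5 8
      exact (Real.exp_le_exp.2 (by linarith)).trans h4
    calc 16 * (n : ℝ) ^ 2 * (2 * SS n) ^ (2 ^ q + 1)
        ≤ 16 * (n : ℝ) ^ 2 * Real.exp (-(4 * x ^ 11)) := by
          apply mul_le_mul_of_nonneg_left hpow; positivity
      _ = 16 * ((n : ℝ) ^ 2 * Real.exp (-(4 * x ^ 11))) := by ring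
      _ ≤ 16 * (1 / 128) := by
          apply mul_le_mul_of_nonneg_left (h2.trans h3); norm_num
      _ = 1 / 8 := by norm_num
  have hlast : (Fintype.card (A n) : ℝ) * (2 * (2 * Real.exp (-(E / 2)))) ^ (2 ^ q + 1) ≤
      1 / 4 := by
    have h1 : 2 * (2 * Real.exp (-(E / 2))) ≤ Real.exp (-(E / 4)) := by
      have h2 : Real.exp (-(E / 2)) = Real.exp (-(E / 4)) * Real.exp (-(E / 4)) := by
        rw [← Real.exp_add]; congr 1; ring
      have h3 : 4 * Real.exp (-(E / 4)) ≤ 1 := by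
        rw [Real.exp_neg]
        have h4 : 4 ≤ Real.exp (E / 4) := by
          have := Real.add_one_le_exp (E / 4); linarith
        rw [← div_eq_mul_inv, div_le_one (Real.exp_pos _)]
        exact h4
      have h5 := Real.exp_pos (-(E / 4))
      rw [h2]
      nlinarith
    have h6 : (2 * (2 * Real.exp (-(E / 2)))) ^ (2 ^ q + 1) ≤
        Real.exp (-(LN + 3)) := by
      calc (2 * (2 * Real.exp (-(E / 2)))) ^ (2 ^ q + 1)
          ≤ Real.exp (-(E / 4)) ^ (2 ^ q + 1) := pow_le_pow_left₀ (by positivity) h1 _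
        _ = Real.exp (-((2 ^ q + 1) * (E / 4))) := by
            rw [← Real.exp_nat_mul]; congr 1; push_cast; ring
        _ ≤ Real.exp (-(LN + 3)) := by
            apply Real.exp_le_exp.2; nlinarith
    have h7 : (Fintype.card (A n) : ℝ) = Real.exp LN := by
      rw [hLN, Real.exp_log hcardpos]
    calc (Fintype.card (A n) : ℝ) * (2 * (2 * Real.exp (-(E / 2)))) ^ (2 ^ q + 1)
        ≤ (Fintype.card (A n) : ℝ) * Real.exp (-(LN + 3)) :=
          mul_le_mul_of_nonneg_left h6 hcardpos.le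
      _ = Real.exp (-3) := by
          rw [h7, ← Real.exp_add]; congr 1; ring
      _ ≤ 1 / 4 := by
          rw [Real.exp_neg, inv_eq_one_div]
          apply one_div_le_one_div_of_le (by norm_num)
          have := Real.add_one_le_exp (3 : ℝ); linarith
  refine ⟨q, hqle, hup, by linarith, by linarith⟩

end Pool.Agent.RCG
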