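import Pool.Agent.W_6acff7b_h70.StepD
import Pool.Agent.W_6acff7b_h70.Cover2

/-!
# Iterated doubling, and the end

`stepD_iter`: induction, `Step.comp`; `Q_j = 2^j + 1`, `2 Q_j - 1 = Q_{j+1}`; `l_j = 2^j (l+1) - 1`, `2 l_j + 1 = l_{j+1}`.
(`j = 0`: `HasSp n l 2 c → HasSp n (2^0 (l+1) - 1) (2^0 + 1) c`, no letter; see `stepB_iter` in `StepAB.lean`.)
`hasAll_of_sp`: `cover2`; `rr α w ≤ c α ^ Q`, `WL.mul`.
-/

open Finset

namespace Pool.Agent.RCG

variable {n : ℕ}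

theorem StepDIter_zero {α : Type*} [Fintype α] {P : α → Prop} (h : ∀ a, P a) :
    pr (fun a => ¬ P a) ≤ 0 := by
  unfold pr
  refine le_of_eq (div_eq_zero_iff.2 (Or.inl (Nat.cast_eq_zero.2 (Finset.card_eq_zero.2
    (Finset.eq_empty_of_forall_notMem fun a ha => ?_)))))
  simp only [Finset.mem_filter, Finset.mem_univ, true_and] at ha
  exact ha (h a)

theorem stepD_iter {l : ℕ} {ε : ℝ} (c : (A n → ℝ) → ℝ)
    (hc : ∀ α ∈ chars1 (A n), 0 < c α) (hε : ∑ α ∈ chars1 (A n), c α ≤ ε) (hε0 : 0 ≤ ε) (q : ℕ) :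
    Step n q (q * ε) (HasSp n l 2 c) (HasSp n (2 ^ q * (l + 1) - 1) (2 ^ q + 1) c) := by
  induction q with
  | zero =>
    intro S hS
    have hall : ∀ z : Fin 0 → A n,
        HasSp n (2 ^ 0 * (l + 1) - 1) (2 ^ 0 + 1) c (S ∪ Set.range z) := by
      intro z
      have h1 : S ∪ Set.range z = S := by
        rw [Set.range_eq_empty z, Set.union_empty]
      rw [h1]
      have h2 : 2 ^ 0 * (l + 1) - 1 = l := by simp
      have h3 : 2 ^ 0 + 1 = 2 := by norm_num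
      rw [h2, h3]
      exact hS
    refine (StepDIter_zero hall).trans ?_
    simp
  | succ q ih =>
    have h1 : Step n 1 ε (HasSp n (2 ^ q * (l + 1) - 1) (2 ^ q + 1) c)
        (HasSp n (2 * (2 ^ q * (l + 1) - 1) + 1) (2 * (2 ^ q + 1) - 1) c) :=
      stepD c (Nat.le_add_left 1 _) hc hε
    have h2 : 2 * (2 ^ q * (l + 1) - 1) + 1 = 2 ^ (q + 1) * (l + 1) - 1 := by
      have h3 : 2 ^ (q + 1) * (l + 1) = 2 * (2 ^ q * (l + 1)) := by ring
      have h4 : 1 ≤ 2 ^ q * (l + 1) := Nat.one_le_iff_ne_zero.2 (by positivity)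
      rw [h3]
      omega
    have h3 : 2 * (2 ^ q + 1) - 1 = 2 ^ (q + 1) + 1 := by
      have h4 : 2 ^ (q + 1) = 2 * 2 ^ q := by ring
      rw [h4]
      omega
    rw [h2, h3] at h1
    have h5 := ih.comp h1 hε0
    refine h5.weaken (fun _ h => h) (fun _ h => h) ?_
    push_cast
    linarith

theorem hasAll_of_sp {l Q : ℕ} (c : (A n → ℝ) → ℝ)
    (h : ∑ α ∈ chars1 (A n), (Module.finrank ℝ (JE α) : ℝ) * c α ^ Q ≤ 1 / 2)
    (S : Set (A n)) (hS : HasSp n l Q c S) : HasAll n (2 * l) S := by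
  obtain ⟨k, hk, w, hw, hr⟩ := hS
  have : Nonempty (Fin k) := ⟨⟨0, hk⟩⟩
  have hle : ∑ α ∈ chars1 (A n), (Module.finrank ℝ (JE α) : ℝ) * rr α w ≤ 1 / 2 := by
    refine le_trans (Finset.sum_le_sum fun α hα => ?_) h
    exact mul_le_mul_of_nonneg_left (hr α hα) (Nat.cast_nonneg _)
  intro g
  obtain ⟨i, j, hij⟩ := cover2 w hle g
  have h1 := (hw i).mul (hw j)
  rw [← hij, ← two_mul] at h1
  exact h1

end Pool.Agent.RCG
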