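import Pool.Agent.W_6acff7b_h70.SumC
import Pool.Agent.W_6acff7b_h70.Planch

/-!
# The weighted sum

PROOF.  Let `b = lev α ≥ 1`.  If `b ≤ b0`: `s^b + t ≤ 2 max (s^b) t`, so `cc^Q ≤ (2 s^b)^Q + (2t)^Q ≤ ((2 s)^Q)^b + (2t)^Q` (`b ≥ 1`,
`2^Q ≤ 2^(Q b)`); `finrank (JE α) ≤ n^(2b)` (`ch_dim`) for the first term, and `∑_α finrank (JE α) = |A n|` (`ch_sum_dim`, a subset) for the
second (also for `b > b0`).  So the sum is at most
`∑_{b=1}^{b0} 16^b n^(2b) ((2s)^Q)^b + |A n| (2t)^Q ≤ 2 * (16 n^2 (2s)^Q) + |A n| (2t)^Q` (`sum_chars1_lev`, `geom_le`).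
-/

open Finset

namespace Pool.Agent.RCG

variable {n : ℕ}

theorem sumDC_pow {b Q : ℕ} {s t : ℝ} (hb : 1 ≤ b) (hs : 0 ≤ s) (ht : 0 ≤ t) :
    (s ^ b + t) ^ Q ≤ ((2 * s) ^ Q) ^ b + (2 * t) ^ Q := by
  have h1 : s ^ b + t ≤ 2 * max (s ^ b) t := by
    have := le_max_left (s ^ b) t
    have := le_max_right (s ^ b) t
    linarith
  have h2 : (s ^ b + t) ^ Q ≤ (2 * max (s ^ b) t) ^ Q :=
    pow_le_pow_left₀ (by positivity) h1 Q
  have h3 : (2 * s ^ b) ^ Q ≤ ((2 * s) ^ Q) ^ b := by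
    rw [← pow_mul, mul_comm Q b, pow_mul]
    refine pow_le_pow_left₀ (by positivity) ?_ Q
    rw [mul_pow]
    refine mul_le_mul_of_nonneg_right ?_ (by positivity)
    calc (2 : ℝ) = 2 ^ 1 := by norm_num
      _ ≤ 2 ^ b := pow_le_pow_right₀ (by norm_num) hb
  have h4 : 0 ≤ (2 * t) ^ Q := by positivity
  have h5 : 0 ≤ ((2 * s) ^ Q) ^ b := by positivity
  rcases le_total (s ^ b) t with h | h
  · rw [max_eq_right h] at h2
    linarith
  · rw [max_eq_left h] at h2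
    linarith

theorem sum_dcc {b0 Q : ℕ} {s t : ℝ} (hb : 2 * b0 + 2 ≤ n) (hs : 0 ≤ s) (ht : 0 ≤ t)
    (hQ : 16 * (n : ℝ) ^ 2 * (2 * s) ^ Q ≤ 1 / 2) :
    ∑ α ∈ chars1 (A n), (Module.finrank ℝ (JE α) : ℝ) * cc b0 s t α ^ Q ≤
      2 * (16 * (n : ℝ) ^ 2 * (2 * s) ^ Q) + Fintype.card (A n) * (2 * t) ^ Q := by
  classical
  have hterm : ∀ α ∈ chars1 (A n), (Module.finrank ℝ (JE α) : ℝ) * cc b0 s t α ^ Q ≤
      (if lev α ≤ b0 then ((n : ℝ) ^ 2 * (2 * s) ^ Q) ^ lev α else 0) +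
        (Module.finrank ℝ (JE α) : ℝ) * (2 * t) ^ Q := by
    intro α hα
    obtain ⟨h1, h2⟩ := mem_chars1.1 hα
    have hlev := lev_pos h1 h2
    have hf0 : (0 : ℝ) ≤ (Module.finrank ℝ (JE α) : ℝ) := by positivity
    unfold cc
    split_ifs with hle
    · have h3 := sumDC_pow (Q := Q) hlev hs ht
      have h4 : (Module.finrank ℝ (JE α) : ℝ) ≤ (n : ℝ) ^ (2 * lev α) := by
        exact_mod_cast ch_dim α
      calc (Module.finrank ℝ (JE α) : ℝ) * (s ^ lev α + t) ^ Q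
          ≤ (Module.finrank ℝ (JE α) : ℝ) * (((2 * s) ^ Q) ^ lev α + (2 * t) ^ Q) :=
            mul_le_mul_of_nonneg_left h3 hf0
        _ = (Module.finrank ℝ (JE α) : ℝ) * ((2 * s) ^ Q) ^ lev α +
            (Module.finrank ℝ (JE α) : ℝ) * (2 * t) ^ Q := by ring
        _ ≤ (n : ℝ) ^ (2 * lev α) * ((2 * s) ^ Q) ^ lev α +
            (Module.finrank ℝ (JE α) : ℝ) * (2 * t) ^ Q := by
            have h5 : 0 ≤ ((2 * s) ^ Q) ^ lev α := by positivity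
            have h6 := mul_le_mul_of_nonneg_right h4 h5
            linarith
        _ = _ := by
            rw [pow_mul, mul_pow ((n : ℝ) ^ 2)]
    · rw [zero_add, zero_add]
      refine mul_le_mul_of_nonneg_left ?_ hf0
      exact pow_le_pow_left₀ ht (by linarith) Q
  refine (Finset.sum_le_sum hterm).trans ?_
  rw [Finset.sum_add_distrib]
  refine add_le_add ?_ ?_
  · rw [← Finset.sum_filter]
    refine (sum_chars1_lev hb (fun b => ((n : ℝ) ^ 2 * (2 * s) ^ Q) ^ b)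
      (fun b => by positivity)).trans ?_
    have h2 : ∀ b ∈ Finset.Icc 1 b0, (16 : ℝ) ^ b * ((n : ℝ) ^ 2 * (2 * s) ^ Q) ^ b =
        (16 * (n : ℝ) ^ 2 * (2 * s) ^ Q) ^ b := by
      intro b _
      rw [← mul_pow, mul_assoc]
    rw [Finset.sum_congr rfl h2]
    exact geom_le (by positivity) hQ b0
  · rw [← Finset.sum_mul]
    refine mul_le_mul_of_nonneg_right ?_ (by positivity)
    rw [← ch_sum_dim (G := A n), sum_chars]
    have : (0 : ℝ) ≤ (Module.finrank ℝ (JE (1 : A n → ℝ)) : ℝ) := by positivity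
    linarith

end Pool.Agent.RCG
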