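import Pool.Agent.W_6acff7b_h70.InitSp
import Pool.Agent.W_6acff7b_h70.ParamEps
import Pool.Agent.W_6acff7b_h70.ParamQ
import Pool.Agent.W_6acff7b_h70.StepDIter
import Pool.Agent.W_6acff7b_h70.SumDC

/-!
# The spectral part, with explicit parameters

PROOF.  `initSp`, `stepD_iter` with `c = cc (B0 n) (SS n) t`, `t = 2 exp (-E/2)`, `ε = 100 x^(-1/24)` (`sum_cc`, `paramEps`, `param_kappa`,
`param_b0`, `cc_pos`), `q` from `paramQ`; `hasAll_of_sp` with `Q = 2^q + 1`, `sum_dcc`, `paramQ`.  Length: `2 (2^q (l+1) - 1)`.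
The failure probability is `q * ε ≤ 2500 log x * x^(-1/24)`.
-/

open Finset Filter Topology

namespace Pool.Agent.RCG

theorem specStep : ∀ᶠ n : ℕ in atTop, ∀ (l : ℕ) (E : ℝ), n / Real.log n ^ 15 ≤ E →
    E ≤ n / Real.log n ^ 11 →
    ∃ q : ℕ, (q : ℝ) ≤ 25 * Real.log (Real.log n) ∧
      2 ^ q * E ≤ 8 * (Real.log (Fintype.card (A n)) + 3) ∧
      Step n q (2500 * Real.log (Real.log n) * Real.log n ^ (-(1 / 24) : ℝ))
        (HasFamC n (1 / Real.log n) (TC n) l E) (HasAll n (2 * (2 ^ q * (l + 1)))) := by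
  have hlog : ∀ᶠ n : ℕ in atTop, 0 < Real.log (n : ℝ) := by
    have h1 : Tendsto (fun n : ℕ => Real.log (n : ℝ)) atTop atTop :=
      Real.tendsto_log_atTop.comp tendsto_natCast_atTop_atTop
    exact h1.eventually_gt_atTop 0
  filter_upwards [initSp, paramEps, paramQ, param_kappa, param_b0, hlog] with n h1 h2 h3 h4 h5 h6
  intro l E hE1 hE2
  obtain ⟨q, hq1, hq2, hq3, hq4⟩ := h3 E hE1 hE2
  obtain ⟨-, -, -, hs16, -, -⟩ := h4
  have hs0 : 0 ≤ SS n := Real.sqrt_nonneg _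
  have ht0 : 0 < 2 * Real.exp (-(E / 2)) := by positivity
  have hb : 2 * B0 n + 2 ≤ n := by
    have := h5.2
    omega
  have hx0 : 0 ≤ Real.log n ^ (-(1 / 24) : ℝ) := (Real.rpow_pos_of_pos h6 _).le
  have hε : ∑ α ∈ chars1 (A n), cc (B0 n) (SS n) (2 * Real.exp (-(E / 2))) α ≤
      100 * Real.log n ^ (-(1 / 24) : ℝ) :=
    (sum_cc hb hs0 hs16 ht0.le).trans (h2 E hE1)
  have hstep := stepD_iter (n := n) (l := l) (cc (B0 n) (SS n) (2 * Real.exp (-(E / 2))))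
    (fun α _ => cc_pos hs0 ht0 α) hε (by positivity) q
  refine ⟨q, hq1, hq2, hstep.weaken (h1 l E hE2) ?_ ?_⟩
  · intro S hS
    have h7 : HasAll n (2 * (2 ^ q * (l + 1) - 1)) S := by
      refine hasAll_of_sp _ ?_ S hS
      exact (sum_dcc hb hs0 ht0.le hq3).trans hq4
    intro g
    exact (h7 g).mono subset_rfl (by omega)
  · calc (q : ℝ) * (100 * Real.log n ^ (-(1 / 24) : ℝ))
        ≤ (25 * Real.log (Real.log n)) * (100 * Real.log n ^ (-(1 / 24) : ℝ)) :=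
          mul_le_mul_of_nonneg_right hq1 (by positivity)
      _ = 2500 * Real.log (Real.log n) * Real.log n ^ (-(1 / 24) : ℝ) := by ring

end Pool.Agent.RCG
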