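import Pool.Agent.W_6acff7b_h70.BaseStep
import Pool.Agent.W_6acff7b_h70.LevIter
import Pool.Agent.W_6acff7b_h70.CycStep
import Pool.Agent.W_6acff7b_h70.SpecStep

/-!
# The main theorem in the language of steps

PROOF.  `baseStep`, `levIter`, `cycStep`, `specStep` (with `l' = 2l+1`, `E = e/2`, `n/x^15 ≤ e/2`), `Step.comp`.  Letters
`1 + T + 1 + q ≤ 2 + 3 log x + 25 log x ≤ 100 log x`.  Length `2 * 2^q (2l + 2) ≤ 4 * 2^q * 224 e = 8 * 224 * 2^q E ≤ 14336 (log |A n| + 3)
≤ 20000 log |A n|`.  The failure probability `ε0 n + exp (-n^(1/4)) + exp (-n^(1/4)) + 2500 log x * x^(-1/24)` tends to `0`.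
-/

open Finset Filter Topology

namespace Pool.Agent.RCG

private theorem Final2_card {n : ℕ} (hn : 4 ≤ n) : (n : ℝ) ≤ Fintype.card (A n) := by
  have hnt : Nontrivial (Fin n) := Fin.nontrivial_iff_two_le.2 (by omega)
  have h1 : 2 * Fintype.card (A n) = Fintype.card (Equiv.Perm (Fin n)) :=
    two_mul_card_alternatingGroup
  rw [Fintype.card_perm, Fintype.card_fin] at h1
  obtain ⟨m, rfl⟩ : ∃ m, n = m + 3 := ⟨n - 3, by omega⟩
  have h2 : 2 ≤ Nat.factorial (m + 2) := by
    have h3 : Nat.factorial 2 ≤ Nat.factorial (m + 2) := Nat.factorial_le (by omega)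
    simpa using h3
  have h4 : Nat.factorial (m + 3) = (m + 3) * Nat.factorial (m + 2) := Nat.factorial_succ _
  have h5 : (m + 3) * 2 ≤ (m + 3) * Nat.factorial (m + 2) := Nat.mul_le_mul_left _ h2
  have h6 : m + 3 ≤ Fintype.card (A (m + 3)) := by omega
  exact_mod_cast h6

theorem main_step2 : ∃ ε : ℕ → ℝ, Tendsto ε atTop (𝓝 0) ∧ ∀ᶠ n : ℕ in atTop,
    ∃ k : ℕ, (k : ℝ) ≤ 100 * Real.log (Real.log n) ∧
      Step n k (ε n) (fun _ => True) (HasAll n ⌊20000 * Real.log (Fintype.card (A n))⌋₊) := by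
  obtain ⟨ε0, hε0, h0⟩ := baseStep
  have hlog : Tendsto (fun n : ℕ => Real.log (n : ℝ)) atTop atTop :=
    Real.tendsto_log_atTop.comp tendsto_natCast_atTop_atTop
  refine ⟨fun n => ε0 n + Real.exp (-(n : ℝ) ^ (1 / 4 : ℝ)) +
    Real.exp (-(n : ℝ) ^ (1 / 4 : ℝ)) +
    2500 * Real.log (Real.log n) * Real.log n ^ (-(1 / 24) : ℝ), ?_, ?_⟩
  · have h1 : Tendsto (fun n : ℕ => Real.exp (-(n : ℝ) ^ (1 / 4 : ℝ))) atTop (𝓝 0) := by
      have h2 : Tendsto (fun n : ℕ => (n : ℝ) ^ (1 / 4 : ℝ)) atTop atTop :=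
        (tendsto_rpow_atTop (by norm_num)).comp tendsto_natCast_atTop_atTop
      exact Real.tendsto_exp_neg_atTop_nhds_zero.comp h2
    have h3 : Tendsto (fun n : ℕ => 2500 * Real.log (Real.log n) *
        Real.log n ^ (-(1 / 24) : ℝ)) atTop (𝓝 0) := by
      have h4 : Tendsto (fun x : ℝ => Real.log x / x ^ (1 / 24 : ℝ)) atTop (𝓝 0) :=
        (isLittleO_log_rpow_atTop (by norm_num : (0 : ℝ) < 1 / 24)).tendsto_div_nhds_zero
      have h5 := (h4.comp hlog).const_mul 2500
      rw [mul_zero] at h5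
      refine h5.congr' ?_
      filter_upwards [hlog.eventually_ge_atTop 1] with n hn
      have h6 : Real.log (n : ℝ) ^ (-(1 / 24) : ℝ) = (Real.log (n : ℝ) ^ (1 / 24 : ℝ))⁻¹ :=
        Real.rpow_neg (by linarith) _
      simp only [Function.comp]
      rw [h6]
      ring
    have h7 := ((hε0.add h1).add h1).add h3
    simpa using h7
  · have hloglog : Tendsto (fun n : ℕ => Real.log (Real.log (n : ℝ))) atTop atTop :=
      Real.tendsto_log_atTop.comp hlog
    filter_upwards [h0, levIter, cycStep, specStep, hlog.eventually_ge_atTop 10,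
      hloglog.eventually_ge_atTop 1, eventually_ge_atTop 4] with n hb hlev hcyc hsp hx hxx hn4
    obtain ⟨T, l, e, hT, hl, he1, he2, hstep⟩ := hlev
    have hn0 : (0 : ℝ) < n := by
      have : 0 < n := by omega
      exact_mod_cast this
    have hx0 : (0 : ℝ) < Real.log n := by linarith
    have he0 : 0 < e := lt_of_lt_of_le (by positivity) he1
    have hc := hcyc l e he1 he2
    have hE1 : n / Real.log n ^ 15 ≤ e / 2 := by
      have h1 : (n : ℝ) / Real.log n ^ 15 = n / Real.log n ^ 14 / Real.log n := by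
        rw [div_div, ← pow_succ]
      rw [h1, div_le_iff₀ hx0]
      nlinarith
    have hE2 : e / 2 ≤ n / Real.log n ^ 11 := by linarith
    obtain ⟨q, hq1, hq2, hq3⟩ := hsp (2 * l + 1) (e / 2) hE1 hE2
    have hexp : 0 ≤ Real.exp (-(n : ℝ) ^ (1 / 4 : ℝ)) := (Real.exp_pos _).le
    have hlast : 0 ≤ 2500 * Real.log (Real.log n) * Real.log n ^ (-(1 / 24) : ℝ) := by
      have := Real.rpow_nonneg hx0.le (-(1 / 24) : ℝ)
      positivity
    refine ⟨1 + T + 1 + q, ?_, ?_⟩
    · push_cast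
      linarith
    · have hcomb := (((hb.comp hstep hexp).comp hc hexp).comp hq3 hlast)
      refine hcomb.weaken (fun _ h => h) ?_ le_rfl
      intro S hS g
      refine (hS g).mono subset_rfl ?_
      apply Nat.le_floor
      push_cast
      have hcard := Final2_card hn4
      have hlogA : 10 ≤ Real.log (Fintype.card (A n)) :=
        hx.trans (Real.log_le_log hn0 hcard)
      have h2q : (0 : ℝ) < 2 ^ q := by positivity
      have h1 : (2 : ℝ) ^ q * ((l : ℝ) + 1) ≤ 2 ^ q * (224 * e) :=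
        mul_le_mul_of_nonneg_left hl h2q.le
      have h2 : 2 * ((2 : ℝ) ^ q * (2 * (l : ℝ) + 1 + 1)) = 4 * (2 ^ q * ((l : ℝ) + 1)) := by ring
      have h3 : (2 : ℝ) ^ q * (224 * e) = 448 * (2 ^ q * (e / 2)) := by ring
      rw [h2]
      linarith

end Pool.Agent.RCG
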