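import Pool.Agent.W_6acff7b_h70.Lev
import Pool.Agent.W_MP_6acff7_h70.Trans

/-!
# Dimension of `Fsub (regR (A n)) b`

PROOF.  `Fsub_le_span`: for `B` with `B.card = b` take `s : Fin b ↪ Fin n` enumerating `B`.  A vector `u` fixed by the stabiliser of `B`
under `regR` (`u (c g) = u c` for `g` fixing `B` pointwise) depends only on `c ∘ s = actT c s` (if `actT c s = actT c' s` then
`c⁻¹ c'` fixes `B` pointwise), so it is a combination of the indicators `indT s t`, `t : Fin b ↪ Fin n`.
`finrank_Fsub_le`: there are at most `(n^b)^2` pairs `(s,t)` (`Fintype.card_embedding_eq`, `Nat.descFactorial_le_pow`);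
`finrank_range_le_card`.  `ch_dim`: `lev_spec`, `Submodule.finrank_mono`.
-/

open Finset

namespace Pool.Agent.RCG

variable {n : ℕ} {α : A n → ℝ}

open Classical in
/-- Indicator of `actT c s = t`. -/
noncomputable def indT {b : ℕ} (s t : Fin b ↪ Fin n) : EuclideanSpace ℝ (A n) :=
  WithLp.toLp 2 fun c => if actT c s = t then 1 else 0

theorem Fsub_le_span (b : ℕ) : Fsub (regR (A n)) b ≤
    Submodule.span ℝ (Set.range fun p : (Fin b ↪ Fin n) × (Fin b ↪ Fin n) => indT p.1 p.2) := by
  classical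
  refine Submodule.span_le.2 ?_
  rintro u ⟨B, hB, hfix⟩
  let s : Fin b ↪ Fin n := (B.orderEmbOfFin hB).toEmbedding
  have hs : ∀ p ∈ B, ∃ k, s k = p := by
    intro p hp
    have h1 : p ∈ Set.range (B.orderEmbOfFin hB) := by
      rw [Finset.range_orderEmbOfFin]
      exact hp
    obtain ⟨k, hk⟩ := h1
    exact ⟨k, hk⟩
  have hdep : ∀ c c' : A n, actT c' s = actT c s → u c' = u c := by
    intro c c' h
    have h1 : regR (A n) (c⁻¹ * c') u = u := by
      refine hfix _ fun p hp => ?_
      obtain ⟨k, rfl⟩ := hs p hp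
      have h2 : c'.1 (s k) = c.1 (s k) := congrArg (fun e : Fin b ↪ Fin n => e k) h
      show c.1⁻¹ (c'.1 (s k)) = s k
      rw [h2]
      exact c.1.symm_apply_apply _
    have h3 := regR_apply (A n) (c⁻¹ * c') u c
    rw [h1, mul_inv_cancel_left] at h3
    exact h3.symm
  let a : (Fin b ↪ Fin n) → ℝ := fun t =>
    if h : ∃ c : A n, actT c s = t then u h.choose else 0
  have hu : u = ∑ t : Fin b ↪ Fin n, a t • indT s t := by
    ext c
    have h1 : (∑ t : Fin b ↪ Fin n, a t • (indT s t : EuclideanSpace ℝ (A n))) c =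
        ∑ t : Fin b ↪ Fin n, a t * (if actT c s = t then 1 else 0) := by
      simp [indT]
    rw [h1]
    simp only [mul_ite, mul_one, mul_zero, Finset.sum_ite_eq, Finset.mem_univ, if_true]
    have h2 : ∃ c' : A n, actT c' s = actT c s := ⟨c, rfl⟩
    have h3 : a (actT c s) = u h2.choose := dif_pos h2
    rw [h3]
    exact (hdep c _ h2.choose_spec).symm
  show u ∈ Submodule.span ℝ (Set.range fun p : (Fin b ↪ Fin n) × (Fin b ↪ Fin n) => indT p.1 p.2)
  rw [hu]
  exact Submodule.sum_mem _ fun t _ => Submodule.smul_mem _ _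
    (Submodule.subset_span ⟨(s, t), rfl⟩)

theorem finrank_Fsub_le (b : ℕ) :
    Module.finrank ℝ (Fsub (regR (A n)) b) ≤ n ^ (2 * b) := by
  classical
  refine (Submodule.finrank_mono (Fsub_le_span b)).trans ?_
  refine (finrank_range_le_card (R := ℝ)
    (fun p : (Fin b ↪ Fin n) × (Fin b ↪ Fin n) => (indT p.1 p.2 : EuclideanSpace ℝ (A n)))).trans ?_
  rw [Fintype.card_prod, Fintype.card_embedding_eq, Fintype.card_fin, Fintype.card_fin, two_mul,
    pow_add]
  exact Nat.mul_le_mul (Nat.descFactorial_le_pow n b) (Nat.descFactorial_le_pow n b)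

theorem ch_dim (α : A n → ℝ) : Module.finrank ℝ (JE α) ≤ n ^ (2 * lev α) :=
  (Submodule.finrank_mono (lev_spec α)).trans (finrank_Fsub_le (lev α))

end Pool.Agent.RCG
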