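import Pool.Agent.W_6acff7b_h70.JDefs
import Pool.Agent.W_MP_6acff7_h70.HighEig

/-!
# Projections of point masses to two-sided ideals

`V` invariant under `regR` and `regL` (`Biv V`), `eV V = P_V δ_1` (`P_V = V.starProjection`, `δ_a = pm a`).

PROOF.  As in the proof of `high_eig` (`HighEig.lean`; reuse `HighEig_proj_comm`, `HighEig_regR_single`,
`HighEig_regL_single`; `pm a = EuclideanSpace.single a 1` with classical decidability).  `P_V` commutes with `regR a`, `regL a`;
`regL G c δ_1 = δ_c`, so `P_V δ_c = regL G c (eV V)` (`proj_pm`).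
`⟪P δ_a, P δ_b⟫ = ⟪P δ_a, δ_b⟫ = (P δ_a) b = (regL a (eV V)) b = eV V (a⁻¹ b)` (`eV_inner`).
`regR h (regL h δ_1) = δ_1` gives `eV_conj`.  `eV_inv`: symmetry of the inner product in `eV_inner` with `a = 1`, `b = c`.
-/

open Finset

namespace Pool.Agent.RCG

variable {G : Type*} [Group G] [Fintype G]

theorem pm_apply_self (a : G) : pm a a = 1 := by
  classical
  simp [pm]

theorem pm_apply_ne {a c : G} (h : c ≠ a) : pm a c = 0 := by
  classical
  simp [pm, h]

theorem IdealA_inner (u : EuclideanSpace ℝ G) (c : G) : inner ℝ (pm c) u = u c := by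
  classical
  unfold pm
  rw [EuclideanSpace.inner_single_left]
  simp

theorem IdealA_orthL : Orth (regL G) := permRep_orth _

theorem IdealA_orthR : Orth (regR G) := permRep_orth _

theorem IdealA_regR (a c : G) : regR G a (pm c) = pm (c * a⁻¹) := HighEig_regR_single a c

theorem IdealA_regL (a c : G) : regL G a (pm c) = pm (a * c) := HighEig_regL_single a c

/-- Every function is a combination of point masses. -/
theorem sum_pm (u : EuclideanSpace ℝ G) : u = ∑ c, u c • pm c := by
  classical
  ext x
  rw [WithLp.ofLp_sum, Finset.sum_apply, Finset.sum_eq_single x]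
  · simp [pm_apply_self]
  · intro c _ hc
    simp [pm_apply_ne (Ne.symm hc)]
  · intro h
    exact absurd (Finset.mem_univ _) h

theorem eV_mem (V : Submodule ℝ (EuclideanSpace ℝ G)) : eV V ∈ V :=
  Submodule.starProjection_apply_mem _ _

theorem proj_pm {V : Submodule ℝ (EuclideanSpace ℝ G)} (hV : Biv V) (c : G) :
    V.starProjection (pm c) = regL G c (eV V) := by
  unfold eV
  rw [← HighEig_proj_comm IdealA_orthL V hV.2, IdealA_regL, mul_one]

theorem eV_inner {V : Submodule ℝ (EuclideanSpace ℝ G)} (hV : Biv V) (a b : G) :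
    inner ℝ (V.starProjection (pm a)) (V.starProjection (pm b)) = eV V (a⁻¹ * b) := by
  rw [← Submodule.inner_starProjection_left_eq_right,
    Submodule.starProjection_eq_self_iff.2 (Submodule.starProjection_apply_mem _ _),
    real_inner_comm, IdealA_inner, proj_pm hV, regL_apply]

theorem eV_conj {V : Submodule ℝ (EuclideanSpace ℝ G)} (hV : Biv V) (h c : G) :
    eV V (h⁻¹ * c * h) = eV V c := by
  have h1 : regR G h (regL G h (eV V)) = eV V := by
    unfold eV
    rw [← HighEig_proj_comm IdealA_orthL V hV.2, ← HighEig_proj_comm IdealA_orthR V hV.1,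
      IdealA_regL, IdealA_regR, mul_one, mul_inv_cancel]
  have h2 : (regR G h (regL G h (eV V))) c = eV V c := by rw [h1]
  rw [regR_apply, regL_apply] at h2
  rw [mul_assoc]
  exact h2

theorem eV_inv {V : Submodule ℝ (EuclideanSpace ℝ G)} (hV : Biv V) (c : G) :
    eV V c⁻¹ = eV V c := by
  have h1 := eV_inner hV 1 c
  have h2 := eV_inner hV c 1
  rw [real_inner_comm] at h2
  rw [h1, inv_one, one_mul, mul_one] at h2
  exact h2.symm

end Pool.Agent.RCG
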