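import Pool.Agent.W_6acff7b_h70.IdealA

/-!
# Two-sided ideals: dimension and generation

`eV_one`: `∑_c ⟪P δ_c, δ_c⟫ = trace P = finrank V` and each term is `eV V 1` (see the proof of `high_eig` in `HighEig.lean`).
`eV_one_pos`: if `V ≠ ⊥` then `finrank V > 0`.
`biv_le_of_mem`: `V` is spanned by the `P_V δ_c = regL c (eV V)`: for `u ∈ V`, `u = P_V u = ∑_c u c • P_V δ_c` (`sum_pm`, `proj_pm`).
-/

open Finset

namespace Pool.Agent.RCG

variable {G : Type*} [Group G] [Fintype G]

theorem eV_one {V : Submodule ℝ (EuclideanSpace ℝ G)} (hV : Biv V) :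
    eV V 1 * Fintype.card G = Module.finrank ℝ V := by
  classical
  have hproj : LinearMap.IsProj V (V.starProjection : EuclideanSpace ℝ G →ₗ[ℝ] _) :=
    ⟨fun x => Submodule.starProjection_apply_mem _ _,
      fun x hx => Submodule.starProjection_eq_self_iff.2 hx⟩
  rw [← hproj.trace, LinearMap.trace_eq_sum_inner _ (EuclideanSpace.basisFun G ℝ)]
  have : ∀ c : G, inner ℝ ((EuclideanSpace.basisFun G ℝ) c)
      ((V.starProjection : EuclideanSpace ℝ G →ₗ[ℝ] _) ((EuclideanSpace.basisFun G ℝ) c))
      = eV V 1 := by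
    intro c
    have h0 : (EuclideanSpace.basisFun G ℝ) c = pm c := by
      rw [EuclideanSpace.basisFun_apply]
      unfold pm
      congr
    rw [h0]
    change inner ℝ (pm c) (V.starProjection (pm c)) = eV V 1
    rw [IdealA_inner, proj_pm hV, regL_apply, inv_mul_cancel]
  rw [Finset.sum_congr rfl fun c _ => this c]
  simp [mul_comm]

theorem eV_one_pos {V : Submodule ℝ (EuclideanSpace ℝ G)} (hV : Biv V) (h0 : V ≠ ⊥) :
    0 < eV V 1 := by
  have hcardpos : 0 < (Fintype.card G : ℝ) := by
    have : 0 < Fintype.card G := Fintype.card_pos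
    positivity
  have hfr : 0 < (Module.finrank ℝ V : ℝ) := by
    have := Submodule.one_le_finrank_iff.2 h0
    exact_mod_cast this
  rw [← eV_one hV] at hfr
  exact (pos_iff_pos_of_mul_pos hfr).2 hcardpos

theorem biv_le_of_mem {V W : Submodule ℝ (EuclideanSpace ℝ G)} (hV : Biv V) (hW : Biv W)
    (h : eV V ∈ W) : V ≤ W := by
  intro u hu
  have h1 : V.starProjection u = u := Submodule.starProjection_eq_self_iff.2 hu
  rw [← h1, sum_pm u, map_sum]
  refine Submodule.sum_mem _ (fun c _ => ?_)
  rw [map_smul, proj_pm hV]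
  exact Submodule.smul_mem _ _ (hW.2 c _ h)

end Pool.Agent.RCG
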