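import Pool.Agent.W_6acff7b_h70.Lev
import Pool.Agent.W_MP_6acff7_h70.LowEig
import Pool.Agent.W_MP_6acff7_h70.HighDim
import Pool.Agent.W_MP_6acff7_h70.HighEig

/-!
# Bounds by level

PROOF.  `ch_low`: `low_eig` with `ρ = regR (A n)` (`permRep_orth`), `W = JE α`, `B`, `f` from `lev_fixed`, `hlev` from
`lev_no_fixed`, `lam = α g` (`mem_JE`).
`ch_high`: `high_dim` with `V = JE α`, `hno` from `lev_no_fixed` (`B.card ≤ b0 < lev α`), and `high_eig` with `lam = α g`.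
-/

open Finset

namespace Pool.Agent.RCG

variable {n : ℕ} {α : A n → ℝ}

theorem ch_low (h : IsCh α) (h1 : 1 ≤ lev α) (hn : 4 * lev α + 4 ≤ n) (g : A n) (κ : ℝ)
    (hκ0 : 0 < κ) (hκ1 : κ ≤ 1) (h4 : 4 * (lev α : ℝ) ≤ κ ^ 12 * n)
    (hfix : (fixN g.1 : ℝ) ≤ κ ^ 12 * n) : |α g| ≤ (6 * κ) ^ lev α := by
  obtain ⟨B, hB, f, hfW, hf0, hfB⟩ := lev_fixed h
  exact low_eig (permRep_orth _) (JE α) (JE_biv α).1 h1 hn
    (fun B hB u hu huB => lev_no_fixed h B (by omega) u hu huB) g κ hκ0 hκ1 h4 hfix B hB f hfW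
    hf0 hfB (α g) (mem_JE.1 hfW g)

theorem ch_high (h : IsCh α) {b0 : ℕ} (hb : b0 < lev α) (hn : b0 + 4 ≤ n) (g : A n) :
    α g ^ 2 * 3 ^ (b0 / 4) ≤ Nat.card (Subgroup.centralizer ({g} : Set (A n))) := by
  have h1 : 3 ^ (b0 / 4) ≤ Module.finrank ℝ (JE α) :=
    high_dim (permRep_orth _) (JE α) (JE_biv α).1 h b0 hn
      (fun B hB u hu huB => lev_no_fixed h B (by omega) u hu huB)
  have h2 := high_eig g (α g) (JE α) h (JE_biv α).1 (JE_biv α).2 (fun u hu => mem_JE.1 hu g)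
  have h3 : ((3 : ℝ) ^ (b0 / 4)) ≤ (Module.finrank ℝ (JE α) : ℝ) := by exact_mod_cast h1
  exact (mul_le_mul_of_nonneg_left h3 (sq_nonneg (α g))).trans h2

end Pool.Agent.RCG
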