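import Pool.Agent.W_6acff7b_h70.Ch

/-!
# Finiteness and linear independence of the systems of joint eigenvalues

PROOF.  Mathlib `Analysis/InnerProductSpace/JointEigenspace.lean`: for the commuting symmetric operators `T g = cavg (regR G) g`
(`cavg_symm` with `permRep_orth`; `cavg_commute_of_commute` + `cavg_comm`) the subspaces
`⨅ g, eigenspace (T g) (α g)` (`α : G → ℝ`) form an orthogonal family
(`LinearMap.IsSymmetric.orthogonalFamily_iInf_eigenspaces`) which is internal
(`LinearMap.IsSymmetric.directSum_isInternal_of_pairwise_commute`; or `iSup = ⊤`).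
`isCh_finite`: nonzero members of an independent family of subspaces of a finite-dimensional space are finite in number
(`WellFoundedGT.finite_ne_bot_of_iSupIndep`), or: by `ch_mem` the `α` are linearly independent.
`ch_linearIndependent`: `α ∈ JE α` (`ch_mem`), nonzero (`ch_one`), orthogonal family (`OrthogonalFamily.independent`,
`iSupIndep.linearIndependent`), then transport from `EuclideanSpace ℝ G` to `G → ℝ`.
`isCh_one'`: constants are in `JE 1`.
-/

open Finset

namespace Pool.Agent.RCG

variable {G : Type*} [Group G] [Fintype G]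

theorem JFin_symm (g : G) : (cavg (regR G) g).IsSymmetric := cavg_symm (permRep_orth _) g

theorem JE_orthogonal : OrthogonalFamily ℝ (fun α : G → ℝ => JE α)
    (fun α : G → ℝ => (JE α).subtypeₗᵢ) :=
  LinearMap.IsSymmetric.orthogonalFamily_iInf_eigenspaces (T := fun g : G => cavg (regR G) g)
    JFin_symm

theorem JE_iSup : ⨆ α : G → ℝ, JE α = ⊤ := by
  refine LinearMap.IsSymmetric.iSup_iInf_eq_top_of_commute (T := fun g : G => cavg (regR G) g)
    JFin_symm ?_
  intro a b _
  show cavg (regR G) a * cavg (regR G) b = cavg (regR G) b * cavg (regR G) a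
  exact cavg_commute_of_commute _ _ _ (fun c => cavg_comm _ _ _)

theorem isCh_finite : {α : G → ℝ | IsCh α}.Finite :=
  WellFoundedGT.finite_ne_bot_of_iSupIndep (JE_orthogonal (G := G)).independent

theorem mem_chars {α : G → ℝ} : α ∈ chars G ↔ IsCh α := by
  unfold chars
  rw [dif_pos isCh_finite, Set.Finite.mem_toFinset]
  rfl

theorem mem_chars1 {α : G → ℝ} : α ∈ chars1 G ↔ IsCh α ∧ α ≠ 1 := by
  unfold chars1
  rw [Finset.mem_filter, mem_chars]

theorem ch_linearIndependent : LinearIndependent ℝ (fun α : {α : G → ℝ // IsCh α} => α.1) := by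
  have h1 : LinearIndependent ℝ
      (fun α : {α : G → ℝ // IsCh α} => (WithLp.toLp 2 α.1 : EuclideanSpace ℝ G)) := by
    refine iSupIndep.linearIndependent (fun α : {α : G → ℝ // IsCh α} => JE α.1) ?_
      (fun α => ch_mem α.2) (fun α h0 => ?_)
    · exact (JE_orthogonal (G := G)).independent.comp Subtype.val_injective
    · have h2 := congrArg (fun u : EuclideanSpace ℝ G => u 1) h0
      simp only at h2
      have h3 := ch_one α.2
      rw [h3] at h2
      exact one_ne_zero h2
  exact h1.map' (WithLp.linearEquiv 2 ℝ (G → ℝ)).toLinearMap (LinearEquiv.ker _)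

theorem isCh_one' : IsCh (1 : G → ℝ) := by
  intro h0
  have h1 : (WithLp.toLp 2 (fun _ => (1 : ℝ)) : EuclideanSpace ℝ G) ∈ JE (1 : G → ℝ) := by
    unfold JE
    rw [Submodule.mem_iInf]
    intro g
    rw [Module.End.mem_eigenspace_iff]
    ext c
    unfold cavg
    rw [LinearMap.smul_apply, LinearMap.sum_apply]
    simp only [PiLp.smul_apply, smul_eq_mul, WithLp.ofLp_sum, Finset.sum_apply,
      LinearMap.add_apply, PiLp.add_apply, regR_apply, Pi.one_apply, one_mul]
    have hcard : (Fintype.card G : ℝ) ≠ 0 := by
      have : 0 < Fintype.card G := Fintype.card_pos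
      positivity
    rw [Finset.sum_const, Finset.card_univ, nsmul_eq_mul]
    field_simp
    norm_num
  rw [h0, Submodule.mem_bot] at h1
  have h2 := congrArg (fun u : EuclideanSpace ℝ G => u 1) h1
  exact one_ne_zero h2

/-- Split off the trivial system. -/
theorem sum_chars (f : (G → ℝ) → ℝ) : ∑ α ∈ chars G, f α = f 1 + ∑ α ∈ chars1 G, f α := by
  classical
  rw [← Finset.sum_filter_add_sum_filter_not (chars G) (fun α => α = 1)]
  congr 1
  · rw [Finset.sum_eq_single_of_mem (1 : G → ℝ)]
    · rw [Finset.mem_filter]
      exact ⟨mem_chars.2 isCh_one', rfl⟩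
    · intro b hb hb1
      exact absurd (Finset.mem_filter.1 hb).2 hb1

end Pool.Agent.RCG
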