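import Pool.Agent.W_6acff7b_h70.RR
import Pool.Agent.W_6acff7b_h70.JFin

/-!
# From few bad pairs to spectral bounds

PROOF.  `rr_bound`: split the pairs into good and not good ones; `|α| ≤ 1` (`ch_abs`) on the bad ones, which are a proportion
`betaC ψ T w ≤ η`.  `hasSp_of_famC`: same family, `mem_chars1`.
-/

open Finset

namespace Pool.Agent.RCG

variable {n : ℕ}

theorem rr_bound {ψ a η : ℝ} {T : ℕ} {ι : Type*} [Fintype ι] [Nonempty ι] (w : ι → A n)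
    (hβ : betaC ψ T w ≤ η) {α : A n → ℝ} (h : IsCh α) (ha : 0 ≤ a)
    (hg : ∀ g : A n, GoodEl ψ T g → |α g| ≤ a) : rr α w ≤ a + η := by
  classical
  have hc : (0 : ℝ) < (Fintype.card ι : ℝ) ^ 2 := by
    have h1 : (0 : ℝ) < (Fintype.card ι : ℝ) := by exact_mod_cast Fintype.card_pos
    positivity
  have hpt : ∀ q : ι × ι, α ((w q.1)⁻¹ * w q.2) ≤
      a + (if ¬ GoodEl ψ T ((w q.1)⁻¹ * w q.2) then (1 : ℝ) else 0) := by
    intro q
    by_cases hq : GoodEl ψ T ((w q.1)⁻¹ * w q.2)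
    · rw [if_neg (not_not.2 hq), add_zero]
      exact (le_abs_self _).trans (hg _ hq)
    · rw [if_pos hq]
      exact ((le_abs_self _).trans (ch_abs h _)).trans (by linarith)
  have hsum : ∑ i, ∑ j, α ((w i)⁻¹ * w j) ≤
      (Fintype.card ι : ℝ) ^ 2 * a +
        ((univ.filter fun q : ι × ι => ¬ GoodEl ψ T ((w q.1)⁻¹ * w q.2)).card : ℝ) := by
    have h1 : ∑ i, ∑ j, α ((w i)⁻¹ * w j) = ∑ q : ι × ι, α ((w q.1)⁻¹ * w q.2) :=
      (Fintype.sum_prod_type (fun q : ι × ι => α ((w q.1)⁻¹ * w q.2))).symm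
    rw [h1]
    refine (Finset.sum_le_sum fun q _ => hpt q).trans (le_of_eq ?_)
    rw [Finset.sum_add_distrib, Finset.sum_const, Finset.sum_boole, Finset.card_univ,
      Fintype.card_prod, nsmul_eq_mul]
    push_cast
    ring
  have hb : ((univ.filter fun q : ι × ι => ¬ GoodEl ψ T ((w q.1)⁻¹ * w q.2)).card : ℝ) ≤
      η * (Fintype.card ι : ℝ) ^ 2 := by
    unfold betaC at hβ
    rw [div_le_iff₀ hc] at hβ
    convert hβ
  unfold rr
  rw [inv_mul_le_iff₀ hc]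
  linarith

theorem StepSpA_WL {S S' : Set (A n)} (hS : S ⊆ S') {l : ℕ} {g : A n} (h : WL S l g) :
    WL S' l g := by
  obtain ⟨L, h1, h2, h3⟩ := h
  exact ⟨L, h1, fun a ha => (h2 a ha).imp (fun x => hS x) (fun x => hS x), h3⟩

theorem mono_hasFamC (ψ : ℝ) (T l : ℕ) (e : ℝ) : Mono (HasFamC n ψ T l e) := by
  rintro S S' hS ⟨k, hk, w, hw, hb⟩
  exact ⟨k, hk, w, fun i => StepSpA_WL hS (hw i), hb⟩

theorem mono_hasSp (l Q : ℕ) (c : (A n → ℝ) → ℝ) : Mono (HasSp n l Q c) := by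
  rintro S S' hS ⟨k, hk, w, hw, hb⟩
  exact ⟨k, hk, w, fun i => StepSpA_WL hS (hw i), hb⟩

theorem hasSp_of_famC {ψ e : ℝ} {T l : ℕ} (c : (A n → ℝ) → ℝ)
    (hc : ∀ α ∈ chars1 (A n), ∃ a : ℝ, 0 ≤ a ∧ (∀ g : A n, GoodEl ψ T g → |α g| ≤ a) ∧
      a + Real.exp (-e) ≤ c α ^ 2) (S : Set (A n)) (h : HasFamC n ψ T l e S) :
    HasSp n l 2 c S := by
  obtain ⟨k, hk, w, hw, hb⟩ := h
  refine ⟨k, hk, w, hw, ?_⟩
  intro α hα
  obtain ⟨a, ha0, hag, hac⟩ := hc α hα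
  have : Nonempty (Fin k) := ⟨⟨0, hk⟩⟩
  exact (rr_bound w hb (mem_chars1.1 hα).1 ha0 hag).trans hac

end Pool.Agent.RCG
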