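import Pool.Agent.W_6acff7b_h70.CountLev

/-!
# Sums over the systems of joint eigenvalues

`cc b0 s t α = s ^ lev α + t` if `lev α ≤ b0`, `= t` otherwise.

PROOF.  All `α ∈ chars1` have `1 ≤ lev α` (`lev_pos`), and there are at most `16^b` of them with `lev α = b` (`count_lev`, `b ≤ b0`,
`2 b0 + 2 ≤ n`).
`sum_cc`: `∑ cc ≤ ∑_{b=1}^{b0} 16^b s^b + (chars1).card * t ≤ 2 (16 s) + (chars).card * t` (`geom_le`, `16 s ≤ 1/2`).
-/

open Finset

namespace Pool.Agent.RCG

variable {n : ℕ}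

open Classical in
/-- Target values for `rr`. -/
noncomputable def cc (b0 : ℕ) (s t : ℝ) (α : A n → ℝ) : ℝ :=
  (if lev α ≤ b0 then s ^ lev α else 0) + t

theorem cc_pos {b0 : ℕ} {s t : ℝ} (hs : 0 ≤ s) (ht : 0 < t) (α : A n → ℝ) :
    0 < cc b0 s t α := by
  unfold cc
  have : 0 ≤ (if lev α ≤ b0 then s ^ lev α else 0) := by
    split_ifs
    · positivity
    · exact le_rfl
  linarith

/-- At most `16 ^ b` nontrivial systems of level exactly `b`. -/
theorem sum_chars1_lev {b0 : ℕ} (hb : 2 * b0 + 2 ≤ n) (f : ℕ → ℝ) (hf : ∀ b, 0 ≤ f b) :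
    ∑ α ∈ (chars1 (A n)).filter (fun α => lev α ≤ b0), f (lev α) ≤
      ∑ b ∈ Finset.Icc 1 b0, 16 ^ b * f b := by
  classical
  have hmaps : ∀ α ∈ (chars1 (A n)).filter (fun α => lev α ≤ b0), lev α ∈ Finset.Icc 1 b0 := by
    intro α hα
    rw [Finset.mem_filter] at hα
    obtain ⟨h1, h2⟩ := hα
    rw [Finset.mem_Icc]
    refine ⟨?_, h2⟩
    unfold chars1 at h1
    rw [Finset.mem_filter] at h1
    exact lev_pos (mem_chars.1 h1.1) h1.2
  rw [← Finset.sum_fiberwise_of_maps_to hmaps]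
  refine Finset.sum_le_sum fun b hbm => ?_
  rw [Finset.mem_Icc] at hbm
  have h1 : ∑ α ∈ ((chars1 (A n)).filter (fun α => lev α ≤ b0)).filter (fun α => lev α = b),
      f (lev α) = (((chars1 (A n)).filter (fun α => lev α ≤ b0)).filter
        (fun α => lev α = b)).card * f b := by
    rw [← nsmul_eq_mul, ← Finset.sum_const]
    refine Finset.sum_congr rfl fun α hα => ?_
    rw [(Finset.mem_filter.1 hα).2]
  rw [h1]
  refine mul_le_mul_of_nonneg_right ?_ (hf b)
  have h2 : (((chars1 (A n)).filter (fun α => lev α ≤ b0)).filter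
        (fun α => lev α = b)).card ≤ ((chars (A n)).filter fun α => lev α ≤ b).card := by
    apply Finset.card_le_card
    intro α hα
    rw [Finset.mem_filter] at hα
    have h3 := (Finset.mem_filter.1 hα.1).1
    unfold chars1 at h3
    rw [Finset.mem_filter] at h3
    exact Finset.mem_filter.2 ⟨h3.1, hα.2.le⟩
  have h4 := count_lev (n := n) (b := b) (by omega)
  exact_mod_cast h2.trans h4

theorem geom_le {r : ℝ} (h0 : 0 ≤ r) (h1 : r ≤ 1 / 2) (b0 : ℕ) :
    ∑ b ∈ Finset.Icc 1 b0, r ^ b ≤ 2 * r := by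
  have key : ∀ b0 : ℕ, ∑ b ∈ Finset.Icc 1 b0, r ^ b ≤ 2 * r - 2 * r ^ (b0 + 1) := by
    intro b0
    induction b0 with
    | zero => simp
    | succ m ih =>
      rw [Finset.sum_Icc_succ_top (by omega)]
      have h2 : 0 ≤ r ^ (m + 1) := by positivity
      have h3 : r ^ (m + 1 + 1) ≤ r ^ (m + 1) * (1 / 2) := by
        rw [pow_succ]
        exact mul_le_mul_of_nonneg_left h1 h2
      linarith
  have h2 := key b0
  have h3 : 0 ≤ r ^ (b0 + 1) := by positivity
  linarith

theorem sum_cc {b0 : ℕ} {s t : ℝ} (hb : 2 * b0 + 2 ≤ n) (hs : 0 ≤ s) (hs1 : 16 * s ≤ 1 / 2)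
    (ht : 0 ≤ t) :
    ∑ α ∈ chars1 (A n), cc b0 s t α ≤ 32 * s + (chars (A n)).card * t := by
  classical
  unfold cc
  rw [Finset.sum_add_distrib]
  have h1 : ∑ α ∈ chars1 (A n), (if lev α ≤ b0 then s ^ lev α else 0) ≤ 32 * s := by
    rw [← Finset.sum_filter]
    refine (sum_chars1_lev hb (fun b => s ^ b) (fun b => by positivity)).trans ?_
    have h2 : ∀ b ∈ Finset.Icc 1 b0, (16 : ℝ) ^ b * s ^ b = (16 * s) ^ b := by
      intro b _
      rw [mul_pow]
    rw [Finset.sum_congr rfl h2]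
    have h3 := geom_le (r := 16 * s) (by positivity) hs1 b0
    linarith
  have h2 : ∑ α ∈ chars1 (A n), t ≤ (chars (A n)).card * t := by
    rw [Finset.sum_const, nsmul_eq_mul]
    refine mul_le_mul_of_nonneg_right ?_ ht
    have h3 : (chars1 (A n)).card ≤ (chars (A n)).card := by
      unfold chars1
      exact Finset.card_filter_le _ _
    exact_mod_cast h3
  exact add_le_add h1 h2

end Pool.Agent.RCG
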