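import Pool.Agent.W_6acff7b_h70.ParamInit
import Pool.Agent.W_6acff7b_h70.SumC
import Pool.Agent.W_6acff7b_h70.LevB
import Pool.Agent.W_6acff7b_h70.StepSpA

/-!
# The initial spectral bound

PROOF.  `hasSp_of_famC` with `c = cc b0 s t`, `t = 2 exp (-E/2)`.  Let `α ∈ chars1`, `b = lev α ≥ 1` (`lev_pos`).  If `b ≤ b0`: `a = (6 κ)^b` by
`ch_low` (`κ^12 = 1/x`; `fixN ≤ (1/x) n` from `GoodEl`); `a + exp (-E) ≤ (s^b + t)^2` since `(s^b)^2 = (6κ)^b` and `t^2 = 4 exp (-E)`.
If `b0 < b`: `a = exp (-E)`: `α g ^2 * 3^(b0/4) ≤ |C(g)| ≤ n^(TC n) ≤ exp (-2E) 3^(b0/4)` (`ch_high`, `GoodEl`, `param_high`);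
`a + exp (-E) = 2 exp (-E) ≤ t^2`.
-/

open Finset Filter Topology

namespace Pool.Agent.RCG

theorem initSp : ∀ᶠ n : ℕ in atTop, ∀ (l : ℕ) (E : ℝ), E ≤ n / Real.log n ^ 11 →
    ∀ S : Set (A n), HasFamC n (1 / Real.log n) (TC n) l E S →
      HasSp n l 2 (cc (B0 n) (SS n) (2 * Real.exp (-(E / 2)))) S := by
  filter_upwards [param_kappa, param_b0, param_high] with n hk hb hh l E hE S hS
  obtain ⟨hk0, hk1, hk12, hs16, hs2, hsq⟩ := hk
  refine hasSp_of_famC (cc (B0 n) (SS n) (2 * Real.exp (-(E / 2)))) ?_ S hS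
  intro α hα
  have hs0 : 0 ≤ SS n := Real.sqrt_nonneg _
  have ht : (2 * Real.exp (-(E / 2))) ^ 2 = 4 * Real.exp (-E) := by
    rw [mul_pow, ← Real.exp_nat_mul]
    norm_num
    ring_nf
  have ht0 : 0 < 2 * Real.exp (-(E / 2)) := by positivity
  have hch : IsCh α := (mem_chars1.1 hα).1
  have h1 : 1 ≤ lev α := lev_pos hch (mem_chars1.1 hα).2
  by_cases hlev : lev α ≤ B0 n
  · have hlev' : (lev α : ℝ) ≤ B0 n := Nat.cast_le.2 hlev
    refine ⟨(6 * kap n) ^ lev α, by positivity, ?_, ?_⟩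
    · intro g hg
      refine ch_low hch h1 (by omega) g (kap n) hk0 hk1 ?_ ?_
      · rw [hk12]
        linarith [hb.1]
      · rw [hk12]
        exact hg.1
    · have h2 : (SS n ^ lev α) ^ 2 = (6 * kap n) ^ lev α := by
        rw [← pow_mul, mul_comm, pow_mul, hsq]
      unfold cc
      rw [if_pos hlev, add_sq, h2, ht]
      have h3 : 0 ≤ 2 * SS n ^ lev α * (2 * Real.exp (-(E / 2))) := by positivity
      have h4 : 0 < Real.exp (-E) := Real.exp_pos _
      linarith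
  · refine ⟨Real.exp (-E), (Real.exp_pos _).le, ?_, ?_⟩
    · intro g hg
      have h2 := ch_high hch (not_le.1 hlev) (by omega) g
      have h3 : (Nat.card (Subgroup.centralizer ({g} : Set (A n))) : ℝ) ≤ (n : ℝ) ^ TC n := by
        exact_mod_cast hg.2
      have h4 := hh E hE
      have h5 : (0 : ℝ) < 3 ^ (B0 n / 4) := by positivity
      have h6 : α g ^ 2 ≤ Real.exp (-(2 * E)) :=
        le_of_mul_le_mul_right ((h2.trans h3).trans h4) h5
      have h7 : Real.exp (-(2 * E)) = Real.exp (-E) ^ 2 := by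
        rw [← Real.exp_nat_mul]
        congr 1
        push_cast
        ring
      rw [h7] at h6
      exact abs_le_of_sq_le_sq h6 (Real.exp_pos _).le
    · unfold cc
      rw [if_neg hlev, zero_add, ht]
      have h4 : 0 < Real.exp (-E) := Real.exp_pos _
      linarith

end Pool.Agent.RCG
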