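import Pool.Agent.W_6acff7b_h70.LevStep

/-!
# The invariants of the iteration

`x = log n`, `XX n t = n^((2/3)^t)`, so `XX n (t+1) = (XX n t)^(2/3)`.

`Inv n t`: with `t` letters one gets from `HasFam (l = 55, e = 4)` to `HasFam (l, e)` where
`⌊n^(1/3)/x^8⌋ ≤ e`, `e * XX n t ≤ n/x^8`, `(1/2)(1 - 7/x)^t (n/x^8) ≤ e * XX n t`, `l + 1 ≤ 112 (1 + 8/(x-1))^t e`, and the failure
probability is at most `t * exp (-⌊n^(1/3)/x^8⌋)`.

PROOF of `inv_one`: `N = ⌊n^(1/3)/x^8⌋₊`, `levStep0` with `l = 55`: `e = N`, `l' + 1 = (N + 1) 56 ≤ 112 N`; `4 N^3 ≤ 4 n/x^24 ≤ n/x^4`;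
`e * XX n 1 ≤ (n^(1/3)/x^8) n^(2/3)`, and `≥ (n^(1/3)/x^8 - 1) n^(2/3) ≥ (1/2) n/x^8`.
-/

open Finset Filter Topology

namespace Pool.Agent.RCG

/-- `n^((2/3)^t)` -/
noncomputable def XX (n t : ℕ) : ℝ := (n : ℝ) ^ (((2 : ℝ) / 3) ^ t)

/-- The state after `t` levels. -/
def Inv (n t : ℕ) : Prop := ∃ (l : ℕ) (e : ℝ),
  ((⌊(n : ℝ) ^ (1 / 3 : ℝ) / Real.log n ^ 8⌋₊ : ℕ) : ℝ) ≤ e ∧
  e * XX n t ≤ n / Real.log n ^ 8 ∧
  1 / 2 * (1 - 7 / Real.log n) ^ t * (n / Real.log n ^ 8) ≤ e * XX n t ∧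
  (l : ℝ) + 1 ≤ 112 * (1 + 8 / (Real.log n - 1)) ^ t * e ∧
  Step n t (t * Real.exp (-((⌊(n : ℝ) ^ (1 / 3 : ℝ) / Real.log n ^ 8⌋₊ : ℕ) : ℝ)))
    (HasFam n (1 / Real.log n ^ 3) 55 4) (HasFam n (1 / Real.log n ^ 3) l e)

theorem XX_succ (n t : ℕ) : XX n (t + 1) = XX n t ^ (2 / 3 : ℝ) := by
  unfold XX
  rw [← Real.rpow_mul (Nat.cast_nonneg n), pow_succ]

theorem InvDef_large : ∀ᶠ n : ℕ in atTop, 60 * Real.log n ^ 8 ≤ (n : ℝ) ^ (1 / 3 : ℝ) := by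
  have h1 := (isLittleO_log_rpow_rpow_atTop (8 : ℝ) (show (0 : ℝ) < 1 / 3 by norm_num)).bound
    (show (0 : ℝ) < 1 / 60 by norm_num)
  have h2 := tendsto_natCast_atTop_atTop (R := ℝ) |>.eventually h1
  filter_upwards [h2, eventually_ge_atTop 1] with n hn hn1
  have h3 : (0 : ℝ) ≤ Real.log n := Real.log_natCast_nonneg n
  have h4 : (0 : ℝ) ≤ (n : ℝ) := Nat.cast_nonneg n
  rw [Real.norm_of_nonneg (Real.rpow_nonneg h3 _), Real.norm_of_nonneg (Real.rpow_nonneg h4 _)] at hn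
  have h5 : Real.log n ^ (8 : ℝ) = Real.log n ^ 8 := by
    exact_mod_cast Real.rpow_natCast (Real.log n) 8
  rw [h5] at hn
  linarith

theorem InvDef_log : ∀ᶠ n : ℕ in atTop, (2 : ℝ) ≤ Real.log n :=
  (Real.tendsto_log_atTop.comp tendsto_natCast_atTop_atTop).eventually_ge_atTop 2

theorem inv_one : ∀ᶠ n : ℕ in atTop, Inv n 1 := by
  filter_upwards [InvDef_large, InvDef_log, levStep0, eventually_ge_atTop 1] with n h1 h2 h3 hn1
  obtain ⟨x, hx⟩ : ∃ x, x = Real.log n := ⟨_, rfl⟩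
  obtain ⟨a, ha⟩ : ∃ a, a = (n : ℝ) ^ (1 / 3 : ℝ) := ⟨_, rfl⟩
  obtain ⟨b, hb⟩ : ∃ b, b = (n : ℝ) ^ (2 / 3 : ℝ) := ⟨_, rfl⟩
  have hn0 : (0 : ℝ) < (n : ℝ) := by exact_mod_cast hn1
  have hab : a * b = n := by
    rw [ha, hb, ← Real.rpow_add hn0]
    norm_num
  have ha3 : a ^ 3 = n := by
    rw [ha, ← Real.rpow_natCast, ← Real.rpow_mul hn0.le]
    norm_num
  have ha0 : 0 < a := by
    rw [ha]
    exact Real.rpow_pos_of_pos hn0 _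
  have hb0 : 0 < b := by
    rw [hb]
    exact Real.rpow_pos_of_pos hn0 _
  have hXX : XX n 1 = b := by
    unfold XX
    rw [hb, pow_one]
  unfold Inv
  rw [hXX]
  rw [← hx, ← ha] at h1
  rw [← hx] at h2
  simp only [← hx, ← ha] at h3 ⊢
  have hx8 : 0 < x ^ 8 := by positivity
  obtain ⟨N, hN⟩ : ∃ N, N = ⌊a / x ^ 8⌋₊ := ⟨_, rfl⟩
  rw [← hN]
  have h60 : 60 ≤ a / x ^ 8 := (le_div_iff₀ hx8).2 h1
  have hNle : (N : ℝ) ≤ a / x ^ 8 := by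
    rw [hN]
    exact Nat.floor_le (by positivity)
  have hNge : a / x ^ 8 - 1 ≤ (N : ℝ) := by
    have := Nat.lt_floor_add_one (a / x ^ 8)
    rw [← hN] at this
    linarith
  have hN30 : 30 ≤ N := by
    have : (30 : ℝ) ≤ (N : ℝ) := by linarith
    exact_mod_cast this
  have hN30' : (30 : ℝ) ≤ (N : ℝ) := by exact_mod_cast hN30
  have hcube : (N : ℝ) ^ 3 * 4 ≤ n / x ^ 4 := by
    have h4 : (N : ℝ) ^ 3 ≤ (a / x ^ 8) ^ 3 := pow_le_pow_left₀ (by positivity) hNle 3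
    have h5 : (a / x ^ 8) ^ 3 * 4 ≤ n / x ^ 4 := by
      rw [div_pow, ha3, ← pow_mul, div_mul_eq_mul_div, div_le_div_iff₀ (by positivity) (by positivity)]
      have h6 : (4 : ℝ) ≤ x ^ 20 := by
        calc (4 : ℝ) ≤ 2 ^ 20 := by norm_num
          _ ≤ x ^ 20 := pow_le_pow_left₀ (by norm_num) h2 20
      have h7 : (0 : ℝ) ≤ n * x ^ 4 := by positivity
      calc (n : ℝ) * 4 * x ^ 4 = (n * x ^ 4) * 4 := by ring
        _ ≤ (n * x ^ 4) * x ^ 20 := mul_le_mul_of_nonneg_left h6 h7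
        _ = n * x ^ (8 * 3) := by ring
    linarith
  have hs := h3 N 55 hN30 hcube
  refine ⟨N * (55 + 1) + 55, (N : ℝ), le_rfl, ?_, ?_, ?_, ?_⟩
  · calc (N : ℝ) * b ≤ a / x ^ 8 * b := mul_le_mul_of_nonneg_right hNle hb0.le
      _ = n / x ^ 8 := by rw [div_mul_eq_mul_div, hab]
  · have h8 : (a / x ^ 8 - 1) * b ≤ N * b := mul_le_mul_of_nonneg_right hNge hb0.le
    have h9 : (a / x ^ 8 - 1) * b = n / x ^ 8 - b := by
      rw [sub_mul, one_mul, div_mul_eq_mul_div, hab]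
    have h10 : b ≤ 1 / 2 * (n / x ^ 8) := by
      have h11 : (n : ℝ) / x ^ 8 = a / x ^ 8 * b := by rw [div_mul_eq_mul_div, hab]
      rw [h11]
      nlinarith
    have h12 : 1 / 2 * (1 - 7 / x) ^ 1 * (n / x ^ 8) ≤ 1 / 2 * (n / x ^ 8) := by
      have h13 : (0 : ℝ) ≤ n / x ^ 8 := by positivity
      have h14 : (0 : ℝ) ≤ 7 / x := by positivity
      rw [pow_one]
      nlinarith
    linarith
  · have h15 : (1 : ℝ) ≤ (1 + 8 / (x - 1)) ^ 1 := by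
      rw [pow_one]
      have : (0 : ℝ) ≤ 8 / (x - 1) := div_nonneg (by norm_num) (by linarith)
      linarith
    push_cast
    nlinarith
  · refine Step.weaken hs (fun _ h => h) (fun _ h => h) ?_
    rw [Nat.cast_one, one_mul]

end Pool.Agent.RCG
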