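import Pool.Agent.W_6acff7b_h70.InvDef

/-!
# The invariants of the iteration: one more level

PROOF (`t ≥ 1`, `x^3 ≤ XX n t`): `N = ⌊(XX n t)^(1/3)⌋₊`, so `N ≥ x - 1`, `N ≤ n^((2/3)/3) ≤ ⌊n^(1/3)/x^8⌋ ≤ e` (`t ≥ 1`; large `n`);
`N^3 e ≤ XX n t * e ≤ n/x^8 ≤ n/x^4`; `levStep`, `Step.comp`: `e' = (N - 6) e ≥ e`,
`e' * XX n (t+1) ≤ (XX n t)^(1/3) e (XX n t)^(2/3) = e XX n t`; `e' * XX n (t+1) ≥ ((XX n t)^(1/3) - 7) e (XX n t)^(2/3)
≥ (1 - 7/x) e XX n t`; `l' + 1 = (N+1)(l+1)`, `(N+1)/(N-6) ≤ 1 + 8/(x-1)` (as `N ≥ x - 1`, `x` large: `7/(x-7) ≤ 8/(x-1)`);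
failure: `exp (-e) ≤ exp (-⌊n^(1/3)/x^8⌋)`.
-/

open Finset Filter Topology

namespace Pool.Agent.RCG

/-- Large `n`: `n^(2/9) ≤ ⌊n^(1/3)/x^8⌋`. -/
theorem InvSucc_large : ∀ᶠ n : ℕ in atTop, 100 ≤ Real.log n ∧
    (n : ℝ) ^ (2 / 9 : ℝ) ≤ ((⌊(n : ℝ) ^ (1 / 3 : ℝ) / Real.log n ^ 8⌋₊ : ℕ) : ℝ) := by
  have h1 : ∀ᶠ x : ℝ in atTop, ‖Real.log x ^ (8 : ℝ)‖ ≤ 1 * ‖x ^ (1 / 18 : ℝ)‖ :=
    (isLittleO_log_rpow_rpow_atTop (8 : ℝ) (by norm_num : (0 : ℝ) < 1 / 18)).bound one_pos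
  have h2 : ∀ᶠ x : ℝ in atTop, (2 : ℝ) ≤ x ^ (1 / 18 : ℝ) :=
    (tendsto_rpow_atTop (by norm_num : (0 : ℝ) < 1 / 18)).eventually_ge_atTop 2
  have h3 : ∀ᶠ x : ℝ in atTop, (100 : ℝ) ≤ Real.log x :=
    Real.tendsto_log_atTop.eventually_ge_atTop 100
  have h4 : ∀ᶠ x : ℝ in atTop, (1 : ℝ) ≤ x := eventually_ge_atTop 1
  filter_upwards [tendsto_natCast_atTop_atTop.eventually h1, tendsto_natCast_atTop_atTop.eventually h2,
    tendsto_natCast_atTop_atTop.eventually h3, tendsto_natCast_atTop_atTop.eventually h4]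
    with n hn1 hn2 hn3 hn4
  refine ⟨hn3, ?_⟩
  have hn0 : (0 : ℝ) ≤ n := by linarith
  set a : ℝ := (n : ℝ) ^ (1 / 18 : ℝ) with ha
  have ha0 : 0 < a := by linarith
  have e4 : (n : ℝ) ^ (2 / 9 : ℝ) = a ^ 4 := by
    rw [ha, ← Real.rpow_natCast, ← Real.rpow_mul hn0]
    norm_num
  have e6 : (n : ℝ) ^ (1 / 3 : ℝ) = a ^ 6 := by
    rw [ha, ← Real.rpow_natCast, ← Real.rpow_mul hn0]
    norm_num
  have hx : Real.log n ^ 8 ≤ a := by
    rw [one_mul, Real.norm_eq_abs, Real.norm_eq_abs, abs_of_pos ha0] at hn1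
    have h5 : Real.log n ^ (8 : ℝ) = Real.log n ^ 8 := by
      rw [← Real.rpow_natCast]
      norm_num
    rw [h5] at hn1
    exact (le_abs_self _).trans hn1
  have hx0 : 0 < Real.log n ^ 8 := pow_pos (by linarith) 8
  rw [e4, e6]
  have h6 : a ^ 5 ≤ a ^ 6 / Real.log n ^ 8 := by
    rw [le_div_iff₀ hx0]
    calc a ^ 5 * Real.log n ^ 8 ≤ a ^ 5 * a := by gcongr
      _ = a ^ 6 := by ring
  have h7 : a ^ 4 + 1 ≤ a ^ 5 := by
    have h8 : (1 : ℝ) ≤ a ^ 4 := one_le_pow₀ (by linarith)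
    have h9 : a ^ 5 = a ^ 4 * a := by ring
    rw [h9]
    nlinarith
  have h10 := Nat.lt_floor_add_one (a ^ 6 / Real.log n ^ 8)
  linarith

theorem inv_succ : ∀ᶠ n : ℕ in atTop, ∀ t : ℕ, 1 ≤ t → Real.log n ^ 3 ≤ XX n t →
    Inv n t → Inv n (t + 1) := by
  filter_upwards [levStep, InvSucc_large, eventually_ge_atTop 1] with n hlev hlarge hn1
  obtain ⟨hx, hfl⟩ := hlarge
  intro t ht hX hinv
  obtain ⟨l, e, he1, he2, he3, he4, hst⟩ := hinv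
  have hn1' : (1 : ℝ) ≤ n := by exact_mod_cast hn1
  have hn0 : (0 : ℝ) ≤ n := by linarith
  set x : ℝ := Real.log n with hxdef
  have hX0 : 0 ≤ XX n t := by
    unfold XX
    positivity
  set c : ℝ := XX n t ^ (1 / 3 : ℝ) with hc
  have hc0 : 0 ≤ c := Real.rpow_nonneg hX0 _
  have hc3 : c ^ 3 = XX n t := by
    rw [hc, ← Real.rpow_natCast, ← Real.rpow_mul hX0]
    norm_num
  have hc2 : XX n (t + 1) = c ^ 2 := by
    rw [XX_succ, hc, ← Real.rpow_natCast (XX n t ^ (1 / 3 : ℝ)) 2, ← Real.rpow_mul hX0]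
    norm_num
  have hcx : x ≤ c := by
    rw [← hc3] at hX
    exact le_of_pow_le_pow_left₀ (by norm_num) hc0 hX
  have hcn : c ≤ (n : ℝ) ^ (2 / 9 : ℝ) := by
    have h1 : ((2 : ℝ) / 3) ^ t ≤ 2 / 3 := by
      calc ((2 : ℝ) / 3) ^ t ≤ (2 / 3) ^ 1 :=
            pow_le_pow_of_le_one (by norm_num) (by norm_num) ht
        _ = 2 / 3 := pow_one _
    have h2 : XX n t ≤ (n : ℝ) ^ (2 / 3 : ℝ) := by
      unfold XX
      exact Real.rpow_le_rpow_of_exponent_le hn1' h1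
    calc c ≤ ((n : ℝ) ^ (2 / 3 : ℝ)) ^ (1 / 3 : ℝ) := Real.rpow_le_rpow hX0 h2 (by norm_num)
      _ = (n : ℝ) ^ (2 / 9 : ℝ) := by
        rw [← Real.rpow_mul hn0]
        norm_num
  set N : ℕ := ⌊c⌋₊ with hN
  have hNc : (N : ℝ) ≤ c := Nat.floor_le hc0
  have hcN : c < (N : ℝ) + 1 := Nat.lt_floor_add_one c
  have hN30 : 30 ≤ N := by
    have : (30 : ℝ) < (N : ℝ) + 1 := by linarith
    have h1 : 30 < N + 1 := by exact_mod_cast this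
    omega
  have hNe : (N : ℝ) ≤ e := by linarith
  have hN0 : (0 : ℝ) ≤ N := Nat.cast_nonneg N
  have hN30' : (30 : ℝ) ≤ N := by exact_mod_cast hN30
  have he0 : 0 ≤ e := hN0.trans hNe
  have hx0 : 0 < x := by linarith
  have hx4 : (n : ℝ) / x ^ 8 ≤ n / x ^ 4 := by
    apply div_le_div_of_nonneg_left hn0 (by positivity)
    exact pow_le_pow_right₀ (by linarith) (by norm_num)
  have hXe : (N : ℝ) ^ 3 * e ≤ e * XX n t := by
    rw [← hc3, mul_comm e]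
    have : (N : ℝ) ^ 3 ≤ c ^ 3 := by gcongr
    exact mul_le_mul_of_nonneg_right this he0
  have h1 := hlev N l e hN30 hNe (by linarith)
  have h2 := hst.comp h1 (Real.exp_pos _).le
  have hNe6 : e ≤ ((N : ℝ) - 6) * e := by nlinarith
  refine ⟨N * (l + 1) + l, ((N : ℝ) - 6) * e, he1.trans hNe6, ?_, ?_, ?_, ?_⟩
  · rw [hc2]
    calc ((N : ℝ) - 6) * e * c ^ 2 ≤ c * e * c ^ 2 := by
          have h3 : ((N : ℝ) - 6) * e ≤ c * e := mul_le_mul_of_nonneg_right (by linarith) he0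
          exact mul_le_mul_of_nonneg_right h3 (sq_nonneg c)
      _ = e * XX n t := by rw [← hc3]; ring
      _ ≤ n / x ^ 8 := he2
  · rw [hc2]
    have h3 : (1 - 7 / x) * c ≤ (N : ℝ) - 6 := by
      have h4 : 7 ≤ 7 / x * c := by
        rw [div_mul_eq_mul_div, le_div_iff₀ hx0]
        linarith
      have h5 : (1 - 7 / x) * c = c - 7 / x * c := by ring
      rw [h5]
      linarith
    have h6 : 0 ≤ 1 - 7 / x := by
      rw [sub_nonneg, div_le_one hx0]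
      linarith
    calc 1 / 2 * (1 - 7 / x) ^ (t + 1) * (n / x ^ 8) =
          (1 - 7 / x) * (1 / 2 * (1 - 7 / x) ^ t * (n / x ^ 8)) := by ring
      _ ≤ (1 - 7 / x) * (e * XX n t) := mul_le_mul_of_nonneg_left he3 h6
      _ = ((1 - 7 / x) * c) * (e * c ^ 2) := by rw [← hc3]; ring
      _ ≤ ((N : ℝ) - 6) * (e * c ^ 2) := mul_le_mul_of_nonneg_right h3 (by positivity)
      _ = ((N : ℝ) - 6) * e * c ^ 2 := by ring
  · have h3 : (((N * (l + 1) + l : ℕ) : ℝ)) + 1 = ((N : ℝ) + 1) * ((l : ℝ) + 1) := by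
      push_cast
      ring
    rw [h3]
    have hx1 : 0 < x - 1 := by linarith
    have h4 : (N : ℝ) + 1 ≤ (1 + 8 / (x - 1)) * ((N : ℝ) - 6) := by
      have h5 : 7 ≤ 8 / (x - 1) * ((N : ℝ) - 6) := by
        rw [div_mul_eq_mul_div, le_div_iff₀ hx1]
        linarith
      have h6 : (1 + 8 / (x - 1)) * ((N : ℝ) - 6) =
          ((N : ℝ) - 6) + 8 / (x - 1) * ((N : ℝ) - 6) := by ring
      rw [h6]
      linarith
    have h7 : 0 ≤ 112 * (1 + 8 / (x - 1)) ^ t * e := by positivity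
    calc ((N : ℝ) + 1) * ((l : ℝ) + 1) ≤ ((N : ℝ) + 1) * (112 * (1 + 8 / (x - 1)) ^ t * e) :=
          mul_le_mul_of_nonneg_left he4 (by linarith)
      _ ≤ ((1 + 8 / (x - 1)) * ((N : ℝ) - 6)) * (112 * (1 + 8 / (x - 1)) ^ t * e) :=
          mul_le_mul_of_nonneg_right h4 h7
      _ = 112 * (1 + 8 / (x - 1)) ^ (t + 1) * (((N : ℝ) - 6) * e) := by ring
  · refine h2.weaken (fun S hS => hS) (fun S hS => hS) ?_
    have h3 : Real.exp (-e) ≤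
        Real.exp (-((⌊(n : ℝ) ^ (1 / 3 : ℝ) / x ^ 8⌋₊ : ℕ) : ℝ)) :=
      Real.exp_le_exp.2 (by linarith)
    push_cast
    linarith

end Pool.Agent.RCG
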