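import Pool.Agent.W_MP_6acff7_h70.Prob

/-!
# Logarithmic diameter with slowly many generators: definitions

Second development for MP_6acff7_al (helper70); paper proof: proofs row 248 of the team database.  Everything lives in
`Pool.Agent.RCG` and uses the first development `Pool/Agent/W_MP_6acff7_h70/`.
-/

open Finset

namespace Pool.Agent.RCG

section General

variable {G : Type*} [Group G] [Fintype G]

open Classical in
/-- Point mass at `a`. -/
noncomputable def pm (a : G) : EuclideanSpace ℝ G := EuclideanSpace.single a (1 : ℝ)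

/-- Projection of the point mass at `1` to `V`. -/
noncomputable def eV (V : Submodule ℝ (EuclideanSpace ℝ G)) : EuclideanSpace ℝ G :=
  V.starProjection (pm 1)

/-- Invariant under both regular representations. -/
def Biv (V : Submodule ℝ (EuclideanSpace ℝ G)) : Prop :=
  (∀ a : G, ∀ u ∈ V, regR G a u ∈ V) ∧ ∀ a : G, ∀ u ∈ V, regL G a u ∈ V

/-- Joint eigenspace of all class averages in the right regular representation. -/
noncomputable def JE (α : G → ℝ) : Submodule ℝ (EuclideanSpace ℝ G) :=
  ⨅ g : G, Module.End.eigenspace (cavg (regR G) g) (α g)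

/-- `α` is a system of joint eigenvalues. -/
def IsCh (α : G → ℝ) : Prop := JE α ≠ ⊥

open Classical in
/-- The finite set of all systems of joint eigenvalues. -/
noncomputable def chars (G : Type*) [Group G] [Fintype G] : Finset (G → ℝ) :=
  if h : {α : G → ℝ | IsCh α}.Finite then h.toFinset else ∅

open Classical in
/-- The nontrivial systems of joint eigenvalues. -/
noncomputable def chars1 (G : Type*) [Group G] [Fintype G] : Finset (G → ℝ) :=
  (chars G).filter fun α => α ≠ 1

/-- Average of `α ((w i)⁻¹ * w j)` over two indices. -/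
noncomputable def rr (α : G → ℝ) {ι : Type*} [Fintype ι] (w : ι → G) : ℝ :=
  ((Fintype.card ι : ℝ) ^ 2)⁻¹ * ∑ i, ∑ j, α ((w i)⁻¹ * w j)

/-- Doubling: the words `w i * z * w j`. -/
def dbl {ι : Type*} (w : ι → G) (z : G) : ι × ι → G := fun p => w p.1 * z * w p.2

end General

section Alt

variable {n : ℕ}

/-- The level of `α`: the least `b` such that the joint eigenspace lies in `Fsub b`. -/
noncomputable def lev (α : A n → ℝ) : ℕ := sInf {b | JE α ≤ Fsub (regR (A n)) b}

/-- `g` has at most `ψ n` fixed points and its centraliser has at most `n ^ T` elements. -/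
def GoodEl (ψ : ℝ) (T : ℕ) (g : A n) : Prop :=
  (fixN g.1 : ℝ) ≤ ψ * n ∧ Nat.card (Subgroup.centralizer ({g} : Set (A n))) ≤ n ^ T

open Classical in
/-- Proportion of pairs `(i, i')` such that `(w i)⁻¹ * w i'` is not good. -/
noncomputable def betaC (ψ : ℝ) (T : ℕ) {ι : Type*} [Fintype ι] (w : ι → A n) : ℝ :=
  ((univ.filter fun q : ι × ι => ¬ GoodEl ψ T ((w q.1)⁻¹ * w q.2)).card : ℝ) /
    (Fintype.card ι : ℝ) ^ 2

/-- There is a finite family of words of length at most `l` with small `betaC`. -/
def HasFamC (n : ℕ) (ψ : ℝ) (T l : ℕ) (e : ℝ) (S : Set (A n)) : Prop :=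
  ∃ k : ℕ, 0 < k ∧ ∃ w : Fin k → A n, (∀ i, WL S l (w i)) ∧ betaC ψ T w ≤ Real.exp (-e)

/-- There is a finite family of words of length at most `l` with `rr α w ≤ c α ^ Q` for all
nontrivial `α`. -/
def HasSp (n l Q : ℕ) (c : (A n → ℝ) → ℝ) (S : Set (A n)) : Prop :=
  ∃ k : ℕ, 0 < k ∧ ∃ w : Fin k → A n, (∀ i, WL S l (w i)) ∧
    ∀ α ∈ chars1 (A n), rr α w ≤ c α ^ Q

/-- Starting from `p`, the walk `p ↦ y⁻¹ g1 y g2 p` reaches `t0` within `k` steps (at least one step), and up to
then no point is fixed by `g2` and no point `y g2 p` is fixed by `g1`. -/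
def clo (y g1 g2 : Equiv.Perm (Fin n)) (t0 : Fin n) : ℕ → Fin n → Prop
  | 0, _ => False
  | k + 1, p => g2 p ≠ p ∧ g1 (y (g2 p)) ≠ y (g2 p) ∧
      (y⁻¹ (g1 (y (g2 p))) = t0 ∨ clo y g1 g2 t0 k (y⁻¹ (g1 (y (g2 p)))))

open Classical in
/-- Number of points `t` which return to themselves within `L` steps without turning back. -/
noncomputable def cloN (y g1 g2 : Equiv.Perm (Fin n)) (L : ℕ) : ℕ :=
  (univ.filter fun t => clo y g1 g2 t L t).card

open Classical in
/-- The elements of `A n` extending a finite set `P` of arcs. -/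
noncomputable def arcY (P : Finset (Fin n × Fin n)) : Finset (A n) :=
  univ.filter fun y => ∀ a ∈ P, y.1 a.1 = a.2

end Alt

end Pool.Agent.RCG
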