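import Pool.Agent.W_6acff7b_h70.IdealB

/-!
# Joint eigenspaces of the class averages

PROOF.  `JE_biv`: `cavg (regR G) g` commutes with `regR a` (`cavg_comm`) and with `regL a` (`cavg_commute_of_commute`; `regL a`
commutes with every `regR b`), as in `Gap.lean`.
`JE_eval`: evaluate `cavg (regR G) g u = α g • u` at `1`: the left side is the average over `z` of
`u (z⁻¹ g z)` and `u (z⁻¹ g⁻¹ z)`, i.e. `u g`.
`JE_min`: let `e = eV W`, `e' = eV (JE α)`; both are symmetric class functions in `JE α`, so `e = e 1 • α` and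
`e' = e' 1 • α` as functions (`JE_eval`), `e 1 > 0`; so `e' = (e' 1 / e 1) • e ∈ W`, and `JE α ≤ W` by `biv_le_of_mem`.
-/

open Finset

namespace Pool.Agent.RCG

variable {G : Type*} [Group G] [Fintype G]

theorem mem_JE {α : G → ℝ} {u : EuclideanSpace ℝ G} :
    u ∈ JE α ↔ ∀ g, cavg (regR G) g u = α g • u := by
  unfold JE
  rw [Submodule.mem_iInf]
  exact forall_congr' fun g => Module.End.mem_eigenspace_iff

private theorem JEig_comm (a b : G) : regL G a * regR G b = regR G b * regL G a := by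
  refine LinearMap.ext fun f => ?_
  ext c
  rw [Module.End.mul_apply, Module.End.mul_apply, regL_apply, regR_apply, regR_apply,
    regL_apply, mul_assoc]

theorem JE_biv (α : G → ℝ) : Biv (JE α) := by
  constructor
  · intro a u hu
    rw [mem_JE] at hu ⊢
    intro g
    rw [cavg_comm_apply, hu g, map_smul]
  · intro a u hu
    rw [mem_JE] at hu ⊢
    intro g
    have e := cavg_commute_of_commute (regR G) g (regL G a) (JEig_comm a)
    have e' := congrArg (fun T : Module.End ℝ _ => T u) e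
    simp only [Module.End.mul_apply] at e'
    rw [← e', hu g, map_smul]

/-- Value of a class average at `1`. -/
private theorem JEig_eval_one (g : G) (u : EuclideanSpace ℝ G)
    (hc : ∀ h c : G, u (h⁻¹ * c * h) = u c) (hi : ∀ c : G, u c⁻¹ = u c) :
    cavg (regR G) g u 1 = u g := by
  have hN : (Fintype.card G : ℝ) ≠ 0 := by exact_mod_cast Fintype.card_ne_zero
  unfold cavg
  rw [LinearMap.smul_apply, LinearMap.sum_apply, PiLp.smul_apply]
  have h1 : (∑ z : G, (regR G (z⁻¹ * g * z) + regR G (z⁻¹ * g⁻¹ * z)) u).ofLp 1 =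
      ∑ z : G, ((u.ofLp g) + (u.ofLp g)) := by
    rw [WithLp.ofLp_sum, Finset.sum_apply]
    refine Finset.sum_congr rfl fun z _ => ?_
    rw [LinearMap.add_apply, PiLp.add_apply, regR_apply, regR_apply, one_mul, one_mul, hc, hc, hi]
  rw [h1, Finset.sum_const, Finset.card_univ, nsmul_eq_mul, smul_eq_mul]
  field_simp
  ring

theorem JE_eval {α : G → ℝ} {u : EuclideanSpace ℝ G} (hu : u ∈ JE α)
    (hc : ∀ h c : G, u (h⁻¹ * c * h) = u c) (hi : ∀ c : G, u c⁻¹ = u c) (g : G) :
    u g = α g * u 1 := by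
  rw [← JEig_eval_one g u hc hi, (mem_JE.1 hu) g, PiLp.smul_apply, smul_eq_mul]

theorem JE_min {α : G → ℝ} {W : Submodule ℝ (EuclideanSpace ℝ G)} (hW : Biv W)
    (hWα : W ≤ JE α) (hW0 : W ≠ ⊥) : W = JE α := by
  refine le_antisymm hWα ?_
  have hJ := JE_biv α
  refine biv_le_of_mem hJ hW ?_
  have h1 : 0 < eV W 1 := eV_one_pos hW hW0
  have h2 : ∀ g, eV W g = α g * eV W 1 :=
    JE_eval (hWα (eV_mem W)) (eV_conj hW) (eV_inv hW)
  have h3 : ∀ g, eV (JE α) g = α g * eV (JE α) 1 :=
    JE_eval (eV_mem _) (eV_conj hJ) (eV_inv hJ)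
  have h4 : eV (JE α) = (eV (JE α) 1 / eV W 1) • eV W := by
    ext g
    rw [PiLp.smul_apply, smul_eq_mul, h2 g, h3 g]
    field_simp
  rw [h4]
  exact W.smul_mem _ (eV_mem W)

end Pool.Agent.RCG
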