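import Pool.Agent.W_6acff7b_h70.JFin
import Pool.Agent.W_MP_6acff7_h70.Levels

/-!
# Levels of the systems of joint eigenvalues of `A n`

`Fsub (regR (A n)) b` = span of the vectors fixed (under `regR`) by the pointwise stabiliser of a `b`-set.

PROOF.  `Fsub_biv`: `Fsub_inv` for `regR`; `regL a` commutes with `regR` so it maps `FixedBy (regR _) B` vectors to such vectors.
`Fsub_top`: `B = univ`: only `g = 1` fixes all points.
`lev_le`: the set in the definition of `lev` contains `n` (`Nat.sInf_le`); `lev_spec`: `Nat.sInf_mem`.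
`lev_no_fixed`: let `0 ≠ u ∈ JE α` be fixed by (the stabiliser of) `B`, `B.card < lev α`.  `W = JE α ⊓ Fsub (regR _) B.card` is `Biv` and nonzero,
so `W = JE α` (`JE_min`), i.e. `JE α ≤ Fsub B.card`, contradiction (`Nat.sInf_le`).
`lev_pos`: if `lev α = 0` then `JE α ≤ Fsub 0`, whose elements `u` are fixed by all `regR a`, so constant, so (`IsCh α`) `JE α`
contains a nonzero constant `u`; `cavg (regR _) g u = u = α g • u`, so `α = 1`.
`lev_fixed`: `exists_fixed` (`Levels.lean`) with `V = JE α`.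
-/

open Finset

namespace Pool.Agent.RCG

variable {n : ℕ} {α : A n → ℝ}

theorem Lev_regR_regL {G : Type*} [Group G] [Fintype G] (a b : G) (u : EuclideanSpace ℝ G) :
    regR G a (regL G b u) = regL G b (regR G a u) := by
  ext c
  rw [regR_apply, regL_apply, regL_apply, regR_apply, mul_assoc]

theorem Fsub_biv (b : ℕ) : Biv (Fsub (regR (A n)) b) := by
  refine ⟨fun a u hu => Fsub_inv _ b a u hu, fun a u hu => ?_⟩
  have : Fsub (regR (A n)) b ≤ (Fsub (regR (A n)) b).comap (regL (A n) a) := by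
    refine Submodule.span_le.2 ?_
    rintro v ⟨B, hB, hv⟩
    refine Submodule.subset_span ⟨B, hB, fun g hg => ?_⟩
    rw [Lev_regR_regL, hv g hg]
  exact this hu

theorem Fsub_top : Fsub (regR (A n)) n = ⊤ := by
  rw [eq_top_iff]
  intro u _
  refine Submodule.subset_span ⟨univ, by simp, fun g hg => ?_⟩
  have h1 : g = 1 := by
    apply Subtype.ext
    ext p
    simp [hg p (mem_univ p)]
  rw [h1, map_one]
  rfl

theorem lev_le (α : A n → ℝ) : lev α ≤ n := by
  apply Nat.sInf_le
  show JE α ≤ Fsub (regR (A n)) n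
  rw [Fsub_top]
  exact le_top

theorem lev_spec (α : A n → ℝ) : JE α ≤ Fsub (regR (A n)) (lev α) := by
  have h : (lev α) ∈ {b | JE α ≤ Fsub (regR (A n)) b} := by
    apply Nat.sInf_mem
    refine ⟨n, ?_⟩
    show JE α ≤ Fsub (regR (A n)) n
    rw [Fsub_top]
    exact le_top
  exact h

theorem lev_no_fixed (h : IsCh α) (B : Finset (Fin n)) (hB : B.card < lev α)
    (u : EuclideanSpace ℝ (A n)) (hu : u ∈ JE α) (huB : FixedBy (regR (A n)) B u) : u = 0 := by
  by_contra hne
  have hW : Biv (JE α ⊓ Fsub (regR (A n)) B.card) :=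
    ⟨fun a v hv => ⟨(JE_biv α).1 a v hv.1, (Fsub_biv B.card).1 a v hv.2⟩,
      fun a v hv => ⟨(JE_biv α).2 a v hv.1, (Fsub_biv B.card).2 a v hv.2⟩⟩
  have hu' : u ∈ JE α ⊓ Fsub (regR (A n)) B.card :=
    ⟨hu, Submodule.subset_span ⟨B, rfl, huB⟩⟩
  have hW0 : JE α ⊓ Fsub (regR (A n)) B.card ≠ ⊥ := by
    intro h0
    rw [h0, Submodule.mem_bot] at hu'
    exact hne hu'
  have h1 := JE_min hW inf_le_left hW0
  have h2 : lev α ≤ B.card := Nat.sInf_le (inf_eq_left.1 h1)
  omega

theorem Lev_Fsub_zero (u : EuclideanSpace ℝ (A n)) (hu : u ∈ Fsub (regR (A n)) 0) (a : A n) :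
    regR (A n) a u = u := by
  induction hu using Submodule.span_induction with
  | mem v hv =>
    obtain ⟨B, hB, hv⟩ := hv
    rw [Finset.card_eq_zero] at hB
    subst hB
    exact hv a fun p hp => absurd hp (Finset.notMem_empty p)
  | zero => exact map_zero _
  | add v w _ _ hv hw => rw [map_add, hv, hw]
  | smul c v _ hv => rw [map_smul, hv]

theorem lev_pos (h : IsCh α) (h1 : α ≠ 1) : 1 ≤ lev α := by
  by_contra hlt
  have h0 : lev α = 0 := by omega
  have h2 := lev_spec α
  rw [h0] at h2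
  apply h1
  funext a
  have h3 := Lev_Fsub_zero _ (h2 (ch_mem h)) a
  have h4 := congrArg (fun u : EuclideanSpace ℝ (A n) => u 1) h3
  simp only [regR_apply, one_mul] at h4
  have h5 : α a = α 1 := h4
  rw [h5, ch_one h]
  rfl

theorem lev_fixed (h : IsCh α) : ∃ B : Finset (Fin n), B.card = lev α ∧
    ∃ f ∈ JE α, f ≠ 0 ∧ FixedBy (regR (A n)) B f :=
  exists_fixed (permRep_orth _) (JE α) (fun g u hu => (JE_biv α).1 g u hu) h (lev α) (lev_spec α)

end Pool.Agent.RCG
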