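import Pool.Agent.W_6acff7b_h70.ParamLev
import Pool.Agent.W_MP_6acff7_h70.StepAB

/-!
# One level of the recursion, with explicit parameters

`levStep`, `levStep0`: `paramLev`, `paramLev0`, `stepB` and `Step.weaken` (`0 < 1/x^3`, `2/x^3 ≤ 1` for large `n`).
-/

open Finset Filter Topology

namespace Pool.Agent.RCG

theorem LevStep_log : ∀ᶠ n : ℕ in atTop, 0 < 1 / Real.log n ^ 3 ∧
    2 * (1 / Real.log n ^ 3) ≤ 1 := by
  have h : Tendsto (fun n : ℕ => Real.log (n : ℝ)) atTop atTop :=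
    Real.tendsto_log_atTop.comp tendsto_natCast_atTop_atTop
  filter_upwards [h.eventually_ge_atTop 2] with n hn
  have h1 : (2 : ℝ) ^ 3 ≤ Real.log n ^ 3 := pow_le_pow_left₀ (by norm_num) hn 3
  have h2 : 0 < Real.log n ^ 3 := by positivity
  refine ⟨by positivity, ?_⟩
  rw [mul_one_div, div_le_one h2]
  linarith

theorem levStep : ∀ᶠ n : ℕ in atTop, ∀ (N l : ℕ) (e : ℝ), 30 ≤ N → (N : ℝ) ≤ e →
    (N : ℝ) ^ 3 * e ≤ n / Real.log n ^ 4 →
    Step n 1 (Real.exp (-e)) (HasFam n (1 / Real.log n ^ 3) l e)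
      (HasFam n (1 / Real.log n ^ 3) (N * (l + 1) + l) (((N : ℝ) - 6) * e)) := by
  filter_upwards [paramLev, LevStep_log] with n h1 h2 N l e hN hNe hb
  obtain ⟨M, hM, hle⟩ := h1 N e hN hNe hb
  exact (stepB (l := l) (e := e) (e' := ((N : ℝ) - 6) * e) h2.1 h2.2 (by omega) hM).weaken
    (fun _ h => h) (fun _ h => h) hle

theorem levStep0 : ∀ᶠ n : ℕ in atTop, ∀ (N l : ℕ), 30 ≤ N →
    (N : ℝ) ^ 3 * 4 ≤ n / Real.log n ^ 4 →
    Step n 1 (Real.exp (-(N : ℝ))) (HasFam n (1 / Real.log n ^ 3) l 4)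
      (HasFam n (1 / Real.log n ^ 3) (N * (l + 1) + l) N) := by
  filter_upwards [paramLev0, LevStep_log] with n h1 h2 N l hN hb
  obtain ⟨M, hM, hle⟩ := h1 N hN hb
  exact (stepB (l := l) (e := 4) (e' := (N : ℝ)) h2.1 h2.2 (by omega) hM).weaken
    (fun _ h => h) (fun _ h => h) hle

end Pool.Agent.RCG
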