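import Pool.Agent.W_6acff7b_h70.Final2
import Pool.Agent.W_MP_6acff7_h70.Cayley

/-!
# The theorem (statement to be handed in)

PROOF.  `main_step2`, `Step.extra` (`mono_hasAll`) with `m n - k` superfluous letters, `S = ∅`, `cayley_diam`, as in
`W_MP_6acff7_h70/Main.lean` (`main_result`).
-/

open Finset Filter Topology

namespace Pool.Agent.RCG

private theorem Main2_pr_eq {α : Type*} [Fintype α] (P : α → Prop) :
    pr P = (Nat.card {x : α // P x} : ℝ) / Nat.card α := by
  classical
  unfold pr
  rw [Nat.card_eq_fintype_card, Nat.card_eq_fintype_card, Fintype.card_subtype]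

theorem main_result2 (m : ℕ → ℕ) (hm : ∀ᶠ n : ℕ in atTop, 100 * Real.log (Real.log n) ≤ m n) :
    Tendsto (fun n : ℕ =>
      (Nat.card {x : Fin (m n) → alternatingGroup (Fin n) //
          (cayleyGraph x).Connected ∧
          ((cayleyGraph x).diam : ℝ) ≤
            20000 * Real.log (Nat.card (alternatingGroup (Fin n)))} : ℝ) /
        Nat.card (Fin (m n) → alternatingGroup (Fin n))) atTop (𝓝 1) := by
  obtain ⟨ε, hε, hstep⟩ := main_step2
  -- lower bound
  have hlow : ∀ᶠ n : ℕ in atTop, 1 - ε n ≤
      (Nat.card {x : Fin (m n) → alternatingGroup (Fin n) //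
          (cayleyGraph x).Connected ∧
          ((cayleyGraph x).diam : ℝ) ≤
            20000 * Real.log (Nat.card (alternatingGroup (Fin n)))} : ℝ) /
        Nat.card (Fin (m n) → alternatingGroup (Fin n)) := by
    filter_upwards [hstep, hm, eventually_ge_atTop 1] with n hn hmn hn1
    obtain ⟨k, hk, hst⟩ := hn
    have hkm : k ≤ m n := by
      have : (k : ℝ) ≤ (m n : ℝ) := hk.trans hmn
      exact_mod_cast this
    obtain ⟨r, hr⟩ := Nat.exists_eq_add_of_le hkm
    have h1 := Step.extra (mono_hasAll _) hst r
    rw [← hr] at h1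
    have h2 := h1 ∅ trivial
    rw [pr_not] at h2
    have hlog0 : 0 ≤ 20000 * Real.log (Fintype.card (A n)) :=
      mul_nonneg (by norm_num) (Real.log_natCast_nonneg _)
    have h3 : pr (fun z : Fin (m n) → A n =>
        HasAll n ⌊20000 * Real.log (Fintype.card (A n))⌋₊ (∅ ∪ Set.range z)) ≤
        pr (fun x : Fin (m n) → A n => (cayleyGraph x).Connected ∧
          ((cayleyGraph x).diam : ℝ) ≤
            20000 * Real.log (Nat.card (alternatingGroup (Fin n)))) := by
      refine pr_mono fun x hx => ?_
      rw [Set.empty_union] at hx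
      have h4 := cayley_diam x hx
      refine ⟨h4.1, ?_⟩
      have h5 : ((cayleyGraph x).diam : ℝ) ≤
          (⌊20000 * Real.log (Fintype.card (A n))⌋₊ : ℝ) := by
        exact_mod_cast h4.2
      have h6 : (⌊20000 * Real.log (Fintype.card (A n))⌋₊ : ℝ) ≤
          20000 * Real.log (Fintype.card (A n)) := Nat.floor_le hlog0
      rw [Nat.card_eq_fintype_card]
      exact h5.trans h6
    have h8 : pr (fun x : Fin (m n) → A n => (cayleyGraph x).Connected ∧
          ((cayleyGraph x).diam : ℝ) ≤
            20000 * Real.log (Nat.card (alternatingGroup (Fin n)))) =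
        (Nat.card {x : Fin (m n) → alternatingGroup (Fin n) //
          (cayleyGraph x).Connected ∧
          ((cayleyGraph x).diam : ℝ) ≤
            20000 * Real.log (Nat.card (alternatingGroup (Fin n)))} : ℝ) /
        Nat.card (Fin (m n) → alternatingGroup (Fin n)) := by
      exact Main2_pr_eq _
    rw [← h8]
    linarith
  have hup : ∀ n : ℕ,
      (Nat.card {x : Fin (m n) → alternatingGroup (Fin n) //
          (cayleyGraph x).Connected ∧
          ((cayleyGraph x).diam : ℝ) ≤
            20000 * Real.log (Nat.card (alternatingGroup (Fin n)))} : ℝ) /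
        Nat.card (Fin (m n) → alternatingGroup (Fin n)) ≤ 1 := by
    intro n
    refine div_le_one_of_le₀ ?_ (Nat.cast_nonneg _)
    exact_mod_cast Finite.card_subtype_le _
  have hlim : Tendsto (fun n => 1 - ε n) atTop (𝓝 1) := by
    simpa using hε.const_sub 1
  exact tendsto_of_tendsto_of_tendsto_of_le_of_le' hlim tendsto_const_nhds hlow
    (Eventually.of_forall hup)

end Pool.Agent.RCG
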