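import Mathlib

/-!
# Parameters of the cycle step

`x = log n`, `L = ⌊x^3⌋₊`, `φ = 1/x^3`, `n/x^14 ≤ e ≤ n/x^11`.

PROOF.  `M = ⌈e⌉₊ ≤ 2e`, `L ≤ x^3`, `L + 1 ≤ 2 x^3`: `4 (2LM) + 8 ≤ 16 x^3 e + 8 ≤ 16 n/x^8 + 8 ≤ n`.
`(L+1) (4 (2LM+2)/n) x^3 ≤ 2x^3 * 16 x^3 M/n * x^3 ≤ 64 x^9 e/n ≤ 64/x^2 ≤ exp (-2)`, so the power is at most `exp (-2e)`, and the quotient is
at most `(2 exp (-e) + exp (-2e)) exp (e/2) ≤ 3 exp (-e/2) ≤ exp (-n^(1/4))`.
-/

open Finset Filter Topology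

namespace Pool.Agent.RCG

/-- Large `n`: `log n` is large, `n^(1/4)` is large and `4 n^(1/4) ≤ n / (log n)^14`. -/
theorem ParamCyc_large : ∀ᶠ n : ℕ in atTop, 1000 ≤ Real.log n ∧ 1 ≤ (n : ℝ) ∧
    (1000 : ℝ) ≤ (n : ℝ) ^ (1 / 4 : ℝ) ∧
    4 * (n : ℝ) ^ (1 / 4 : ℝ) ≤ n / Real.log n ^ 14 := by
  have h1 : ∀ᶠ x : ℝ in atTop, ‖Real.log x ^ (14 : ℝ)‖ ≤ 1 * ‖x ^ (1 / 4 : ℝ)‖ :=
    (isLittleO_log_rpow_rpow_atTop (14 : ℝ) (by norm_num : (0 : ℝ) < 1 / 4)).bound one_pos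
  have h2 : ∀ᶠ x : ℝ in atTop, (1000 : ℝ) ≤ x ^ (1 / 4 : ℝ) :=
    (tendsto_rpow_atTop (by norm_num : (0 : ℝ) < 1 / 4)).eventually_ge_atTop 1000
  have h3 : ∀ᶠ x : ℝ in atTop, (1000 : ℝ) ≤ Real.log x :=
    Real.tendsto_log_atTop.eventually_ge_atTop 1000
  have h4 : ∀ᶠ x : ℝ in atTop, (1 : ℝ) ≤ x := eventually_ge_atTop 1
  filter_upwards [tendsto_natCast_atTop_atTop.eventually h1, tendsto_natCast_atTop_atTop.eventually h2,
    tendsto_natCast_atTop_atTop.eventually h3, tendsto_natCast_atTop_atTop.eventually h4]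
    with n hn1 hn2 hn3 hn4
  refine ⟨hn3, hn4, hn2, ?_⟩
  have hn0 : (0 : ℝ) ≤ n := by linarith
  set a : ℝ := (n : ℝ) ^ (1 / 4 : ℝ) with ha
  have ha0 : 0 < a := by linarith
  have e4 : (n : ℝ) = a ^ 4 := by
    rw [ha, ← Real.rpow_natCast, ← Real.rpow_mul hn0]
    norm_num
  have hx : Real.log n ^ 14 ≤ a := by
    rw [one_mul, Real.norm_eq_abs, Real.norm_eq_abs, abs_of_pos ha0] at hn1
    have h5 : Real.log n ^ (14 : ℝ) = Real.log n ^ 14 := by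
      rw [← Real.rpow_natCast]
      norm_num
    rw [h5] at hn1
    exact (le_abs_self _).trans hn1
  have hx0 : 0 < Real.log n ^ 14 := pow_pos (by linarith) 14
  rw [le_div_iff₀ hx0]
  calc 4 * a * Real.log n ^ 14 ≤ 4 * a * a := by gcongr
    _ ≤ a ^ 4 := by
      have h6 : (4 : ℝ) ≤ a ^ 2 := by nlinarith
      have h7 : a ^ 4 = a ^ 2 * (a * a) := by ring
      rw [h7]
      nlinarith [mul_pos ha0 ha0]
    _ = n := e4.symm

theorem paramCyc : ∀ᶠ n : ℕ in atTop, ∀ e : ℝ, n / Real.log n ^ 14 ≤ e → e ≤ n / Real.log n ^ 11 →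
    ∃ M : ℕ, 4 * (2 * ⌊Real.log n ^ 3⌋₊ * M) + 8 ≤ n ∧
      (2 * Real.exp (-e) + ((((⌊Real.log n ^ 3⌋₊ : ℕ) + 1 : ℝ) *
        (4 * (2 * (⌊Real.log n ^ 3⌋₊ : ℕ) * M + 2) / n)) / (1 / Real.log n ^ 3)) ^ M) /
        Real.exp (-(e / 2)) ≤ Real.exp (-(n : ℝ) ^ (1 / 4 : ℝ)) := by
  filter_upwards [ParamCyc_large] with n hn
  obtain ⟨hx, hn1, ha, h4a⟩ := hn
  intro e he1 he2
  set x : ℝ := Real.log n with hxdef
  set a : ℝ := (n : ℝ) ^ (1 / 4 : ℝ) with hadef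
  have hx0 : 0 < x := by linarith
  have hn0 : (0 : ℝ) < n := by linarith
  have hea : 4 * a ≤ e := h4a.trans he1
  have he0 : 0 < e := by linarith
  have he1000 : 1000 ≤ e := by linarith
  -- basic facts
  set L : ℕ := ⌊x ^ 3⌋₊ with hL
  have hLx : (L : ℝ) ≤ x ^ 3 := Nat.floor_le (by positivity)
  have hx3 : (1 : ℝ) ≤ x ^ 3 := one_le_pow₀ (by linarith)
  have hL1 : (1 : ℝ) ≤ L := by
    have : 1 ≤ L := Nat.le_floor (by simpa using hx3)
    exact_mod_cast this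
  set M : ℕ := ⌈e⌉₊ with hM
  have hMe : e ≤ M := Nat.le_ceil e
  have hMe2 : (M : ℝ) ≤ 2 * e := by
    have := Nat.ceil_lt_add_one he0.le
    linarith
  have hM0 : (0 : ℝ) < M := by linarith
  have hex : e * x ^ 11 ≤ n := by
    rwa [le_div_iff₀ (by positivity)] at he2
  have hnx : e * x ^ 3 * x ^ 8 ≤ n := by
    have h1 : e * x ^ 3 * x ^ 8 = e * x ^ 11 := by ring
    rw [h1]
    exact hex
  have hx8 : (1000 : ℝ) ≤ x ^ 8 := by
    calc (1000 : ℝ) ≤ x := hx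
      _ = x ^ 1 := (pow_one x).symm
      _ ≤ x ^ 8 := pow_le_pow_right₀ (by linarith) (by norm_num)
  have hex3 : 0 < e * x ^ 3 := by positivity
  have hn8 : 1000 * (e * x ^ 3) ≤ n := by nlinarith
  have hLM : (L : ℝ) * M ≤ 2 * (e * x ^ 3) := by
    calc (L : ℝ) * M ≤ x ^ 3 * (2 * e) := by gcongr
      _ = 2 * (e * x ^ 3) := by ring
  have hLM1 : (1 : ℝ) ≤ (L : ℝ) * M := by nlinarith
  refine ⟨M, ?_, ?_⟩
  · have h1 : (4 * (2 * (L : ℝ) * M) + 8) ≤ n := by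
      have h2 : 4 * (2 * (L : ℝ) * M) = 8 * ((L : ℝ) * M) := by ring
      rw [h2]
      have h3 : (8 : ℝ) ≤ e * x ^ 3 := by nlinarith
      linarith
    exact_mod_cast h1
  · -- the base of the power
    set b : ℝ := (((L : ℕ) + 1 : ℝ) * (4 * (2 * (L : ℕ) * M + 2) / n)) / (1 / x ^ 3) with hb
    have hb0 : 0 ≤ b := by positivity
    have hbe : b ≤ Real.exp (-2) := by
      have h1 : b = ((L : ℝ) + 1) * (4 * (2 * L * M + 2)) * x ^ 3 / n := by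
        rw [hb]
        field_simp
      have h2 : ((L : ℝ) + 1) ≤ 2 * x ^ 3 := by linarith
      have h3 : 4 * (2 * (L : ℝ) * M + 2) ≤ 32 * (e * x ^ 3) := by
        have : 4 * (2 * (L : ℝ) * M + 2) = 8 * ((L : ℝ) * M) + 8 := by ring
        rw [this]
        linarith
      have h4 : ((L : ℝ) + 1) * (4 * (2 * L * M + 2)) * x ^ 3 ≤
          2 * x ^ 3 * (32 * (e * x ^ 3)) * x ^ 3 := by gcongr
      have h5 : b ≤ 64 / x ^ 2 := by
        rw [h1, div_le_div_iff₀ hn0 (by positivity)]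
        calc ((L : ℝ) + 1) * (4 * (2 * L * M + 2)) * x ^ 3 * x ^ 2 ≤
              2 * x ^ 3 * (32 * (e * x ^ 3)) * x ^ 3 * x ^ 2 := by gcongr
          _ = 64 * (e * x ^ 11) := by ring
          _ ≤ 64 * n := by gcongr
      have h6 : 64 / x ^ 2 ≤ 1 / 9 := by
        rw [div_le_div_iff₀ (by positivity) (by norm_num)]
        nlinarith
      have h7 : (1 : ℝ) / 9 ≤ Real.exp (-2) := by
        have h8 : Real.exp 1 < 3 := lt_trans Real.exp_one_lt_d9 (by norm_num)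
        have h9 : Real.exp (-2) = (Real.exp 1 * Real.exp 1)⁻¹ := by
          rw [← Real.exp_add, ← Real.exp_neg]
          norm_num
        rw [h9, one_div]
        have h10 : 0 < Real.exp 1 := Real.exp_pos 1
        exact inv_anti₀ (by positivity) (by nlinarith)
      linarith
    have hpow : b ^ M ≤ Real.exp (-(2 * e)) := by
      calc b ^ M ≤ Real.exp (-2) ^ M := pow_le_pow_left₀ hb0 hbe M
        _ = Real.exp (M * (-2)) := by rw [← Real.exp_nat_mul]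
        _ ≤ Real.exp (-(2 * e)) := Real.exp_le_exp.2 (by linarith)
    have h2e : Real.exp (-(2 * e)) ≤ Real.exp (-e) := Real.exp_le_exp.2 (by linarith)
    have hfin : 3 * Real.exp (-(e / 2)) ≤ Real.exp (-a) := by
      have h1 : (3 : ℝ) ≤ Real.exp 2 := by
        have := Real.add_one_le_exp (2 : ℝ)
        linarith
      calc 3 * Real.exp (-(e / 2)) ≤ Real.exp 2 * Real.exp (-(e / 2)) := by gcongr
        _ = Real.exp (2 + -(e / 2)) := by rw [Real.exp_add]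
        _ ≤ Real.exp (-a) := Real.exp_le_exp.2 (by linarith)
    rw [div_le_iff₀ (Real.exp_pos _)]
    calc 2 * Real.exp (-e) + b ^ M ≤ 3 * Real.exp (-e) := by linarith
      _ = 3 * Real.exp (-(e / 2)) * Real.exp (-(e / 2)) := by
        rw [mul_assoc, ← Real.exp_add]
        congr 2
        ring
      _ ≤ Real.exp (-a) * Real.exp (-(e / 2)) := by gcongr

end Pool.Agent.RCG
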