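import Pool.Agent.W_6acff7b_h70.CycStep

/-!
# Parameters of the spectral part

`x = log n`, `κ = kap n = x^(-1/12)`, `b0 = B0 n = ⌊n/(4x)⌋₊`, `s = SS n = sqrt (6 κ)`.

`param_kappa`: `κ^12 = 1/x`; `16 s ≤ 1/2` and `2 s ≤ exp (-1)` for large `n` since `κ → 0`.
`param_b0`: `4 b0 ≤ n/x`, `4 b0 + 4 ≤ n`, `2 b0 + 2 ≤ n`.
`param_high` PROOF: `L = ⌊x^3⌋₊ ≥ x^3/2`, so `TC n ≤ 3n/x^3 + 2n/x^3 = 5n/x^3` and `n^(TC n) ≤ exp (5n/x^2)`.
`b0/4 ≥ n/(16x) - 2` (natural division), `3 ≥ exp 1`... `3^(b0/4) ≥ exp (n/(16x) - 2)`.  `5n/x^2 ≤ -2E + n/(16x) - 2` as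
`E ≤ n/x^11`, for large `n`.
-/

open Finset Filter Topology

namespace Pool.Agent.RCG

/-- `(log n)^(-1/12)` -/
noncomputable def kap (n : ℕ) : ℝ := Real.log n ^ (-(1 / 12) : ℝ)

/-- `⌊n/(4 log n)⌋` -/
noncomputable def B0 (n : ℕ) : ℕ := ⌊(n : ℝ) / (4 * Real.log n)⌋₊

/-- `sqrt (6 κ)` -/
noncomputable def SS (n : ℕ) : ℝ := Real.sqrt (6 * kap n)

theorem ParamInit_log : Tendsto (fun n : ℕ => Real.log (n : ℝ)) atTop atTop :=
  Real.tendsto_log_atTop.comp tendsto_natCast_atTop_atTop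

theorem ParamInit_log_le : ∀ᶠ n : ℕ in atTop, 64 * Real.log n ≤ n := by
  have h1 := (Real.isLittleO_log_id_atTop.comp_tendsto
    (tendsto_natCast_atTop_atTop (R := ℝ))).bound (show (0 : ℝ) < 1 / 64 by norm_num)
  filter_upwards [h1] with n hn
  simp only [Function.comp, id, Real.norm_eq_abs] at hn
  rw [Nat.abs_cast] at hn
  have h2 := le_abs_self (Real.log n)
  linarith

theorem param_kappa : ∀ᶠ n : ℕ in atTop, 0 < kap n ∧ kap n ≤ 1 ∧
    kap n ^ 12 = 1 / Real.log n ∧ 16 * SS n ≤ 1 / 2 ∧ 2 * SS n ≤ Real.exp (-1) ∧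
    SS n ^ 2 = 6 * kap n := by
  have h1 : Tendsto (fun n : ℕ => kap n) atTop (𝓝 0) :=
    (tendsto_rpow_neg_atTop (show (0 : ℝ) < 1 / 12 by norm_num)).comp ParamInit_log
  filter_upwards [h1.eventually_le_const (show (0 : ℝ) < 1 / 6144 by norm_num),
    ParamInit_log.eventually_ge_atTop 1] with n h2 h3
  have h4 : 0 < kap n := by
    unfold kap
    exact Real.rpow_pos_of_pos (by linarith) _
  have h5 : SS n ≤ 1 / 32 := by
    unfold SS
    rw [Real.sqrt_le_left (by norm_num)]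
    linarith
  have h6 : (1 / 16 : ℝ) ≤ Real.exp (-1) := by
    rw [Real.exp_neg, ← one_div]
    apply one_div_le_one_div_of_le (Real.exp_pos 1)
    have := Real.exp_one_lt_d9
    linarith
  refine ⟨h4, by linarith, ?_, by linarith, by linarith, ?_⟩
  · unfold kap
    rw [← Real.rpow_natCast, ← Real.rpow_mul (by linarith)]
    have h7 : (-(1 / 12) : ℝ) * ((12 : ℕ) : ℝ) = -1 := by norm_num
    rw [h7, Real.rpow_neg_one, one_div]
  · unfold SS
    exact Real.sq_sqrt (by linarith)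

theorem param_b0 : ∀ᶠ n : ℕ in atTop, 4 * (B0 n : ℝ) ≤ 1 / Real.log n * n ∧ 4 * B0 n + 4 ≤ n := by
  filter_upwards [ParamInit_log.eventually_ge_atTop 2, eventually_ge_atTop 8] with n h1 h2
  have h3 : (8 : ℝ) ≤ n := by exact_mod_cast h2
  have h4 : (0 : ℝ) < Real.log n := by linarith
  have h5 : (B0 n : ℝ) ≤ (n : ℝ) / (4 * Real.log n) := by
    unfold B0
    exact Nat.floor_le (by positivity)
  have h6 : 4 * (B0 n : ℝ) ≤ 1 / Real.log n * n := by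
    have h7 : 1 / Real.log n * n = 4 * ((n : ℝ) / (4 * Real.log n)) := by
      field_simp
    rw [h7]
    linarith
  refine ⟨h6, ?_⟩
  have h8 : 1 / Real.log n * (n : ℝ) ≤ 1 / 2 * n := by
    apply mul_le_mul_of_nonneg_right _ (by linarith)
    exact one_div_le_one_div_of_le (by norm_num) h1
  have h9 : 4 * (B0 n : ℝ) + 4 ≤ n := by linarith
  exact_mod_cast h9

theorem param_high : ∀ᶠ n : ℕ in atTop, ∀ E : ℝ, E ≤ n / Real.log n ^ 11 →
    (n : ℝ) ^ TC n ≤ Real.exp (-(2 * E)) * 3 ^ (B0 n / 4) := by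
  filter_upwards [ParamInit_log.eventually_ge_atTop 224, ParamInit_log_le,
    eventually_ge_atTop 8] with n h1 h2 h3 E hE
  obtain ⟨x, hx⟩ : ∃ x : ℝ, x = Real.log n := ⟨_, rfl⟩
  have hn : (8 : ℝ) ≤ n := by exact_mod_cast h3
  rw [← hx] at h1 h2 hE
  have hx0 : 0 < x := by linarith
  -- the exponent
  have hx3 : (2 : ℝ) ≤ x ^ 3 := by nlinarith [sq_nonneg x]
  have hfl : x ^ 3 / 2 ≤ (⌊x ^ 3⌋₊ : ℝ) := by
    have := Nat.lt_floor_add_one (x ^ 3)
    linarith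
  have hT : (TC n : ℝ) ≤ 5 * n / x ^ 3 := by
    unfold TC
    rw [← hx]
    push_cast
    have a1 : ((⌊3 * (1 / x ^ 3) * n⌋₊ : ℕ) : ℝ) ≤ 3 * (1 / x ^ 3) * n :=
      Nat.floor_le (by positivity)
    have a2 : (((n / ⌊x ^ 3⌋₊ : ℕ)) : ℝ) ≤ (n : ℝ) / (⌊x ^ 3⌋₊ : ℝ) := Nat.cast_div_le
    have a3 : (n : ℝ) / (⌊x ^ 3⌋₊ : ℝ) ≤ n / (x ^ 3 / 2) :=
      div_le_div_of_nonneg_left (by linarith) (by linarith) hfl
    have a4 : (n : ℝ) / (x ^ 3 / 2) = 2 * n / x ^ 3 := by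
      field_simp
    have a5 : 5 * (n : ℝ) / x ^ 3 = 3 * (1 / x ^ 3) * n + 2 * n / x ^ 3 := by
      field_simp
      ring
    rw [a5]
    linarith
  have hexp : (n : ℝ) ^ TC n = Real.exp (x * TC n) := by
    rw [mul_comm, Real.exp_nat_mul, hx, Real.exp_log (by linarith)]
  have hB : (n : ℝ) / (16 * x) - 2 ≤ ((B0 n / 4 : ℕ) : ℝ) := by
    have b1 : (n : ℝ) / (4 * x) - 1 < (B0 n : ℝ) := by
      unfold B0
      rw [← hx]
      exact Nat.sub_one_lt_floor _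
    have b2 : B0 n ≤ 4 * (B0 n / 4) + 3 := by omega
    have b3 : (B0 n : ℝ) ≤ 4 * ((B0 n / 4 : ℕ) : ℝ) + 3 := by exact_mod_cast b2
    have b4 : (n : ℝ) / (4 * x) = 4 * (n / (16 * x)) := by
      field_simp
      norm_num
    linarith
  have h3pow : Real.exp ((B0 n / 4 : ℕ) : ℝ) ≤ 3 ^ (B0 n / 4) := by
    have c1 : Real.exp ((B0 n / 4 : ℕ) : ℝ) = Real.exp 1 ^ (B0 n / 4) := by
      rw [← Real.exp_nat_mul, mul_one]
    rw [c1]
    apply pow_le_pow_left₀ (Real.exp_pos 1).le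
    have := Real.exp_one_lt_d9
    linarith
  rw [hexp]
  have hmain : x * TC n ≤ -(2 * E) + ((B0 n / 4 : ℕ) : ℝ) := by
    have d1 : x * TC n ≤ 5 * n / x ^ 2 := by
      calc x * TC n ≤ x * (5 * n / x ^ 3) := mul_le_mul_of_nonneg_left hT hx0.le
        _ = 5 * n / x ^ 2 := by field_simp
    have d2 : (n : ℝ) / x ^ 11 ≤ n / x ^ 2 := by
      apply div_le_div_of_nonneg_left (by linarith) (by positivity)
      exact pow_le_pow_right₀ (by linarith) (by norm_num)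
    have d3 : 7 * (n : ℝ) / x ^ 2 ≤ n / (32 * x) := by
      rw [div_le_div_iff₀ (by positivity) (by positivity)]
      have e1 : 224 * x ≤ x ^ 2 := by nlinarith
      have e2 : 0 ≤ (n : ℝ) * (x ^ 2 - 224 * x) := mul_nonneg (by linarith) (by linarith)
      nlinarith
    have d4 : (2 : ℝ) ≤ n / (32 * x) := by
      rw [le_div_iff₀ (by positivity)]
      linarith
    have d5 : (n : ℝ) / (16 * x) = n / (32 * x) + n / (32 * x) := by
      field_simp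
      norm_num
    have d6 : 7 * (n : ℝ) / x ^ 2 = 5 * n / x ^ 2 + 2 * (n / x ^ 2) := by
      field_simp
      norm_num
    linarith
  calc Real.exp (x * TC n) ≤ Real.exp (-(2 * E) + ((B0 n / 4 : ℕ) : ℝ)) := Real.exp_le_exp.2 hmain
    _ = Real.exp (-(2 * E)) * Real.exp ((B0 n / 4 : ℕ) : ℝ) := Real.exp_add _ _
    _ ≤ Real.exp (-(2 * E)) * 3 ^ (B0 n / 4) :=
      mul_le_mul_of_nonneg_left h3pow (Real.exp_pos _).le

end Pool.Agent.RCG
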