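import Mathlib

/-!
# Parameters of one level

`x = log n`, `φ = 1/x^3`.

PROOF of `paramLev`.  `M = ⌈N e⌉₊`, `N e ≥ 1`, so `M ≤ 2 N e`.  `4 N M + 4 ≤ 8 N^2 e + 4 ≤ 8 N^3 e + 4 ≤ 8 n/x^4 + 4 ≤ n` for large `n`.
`θ/φ = 32 φ^4 + (N+1)(8NM+10)/(n φ) ≤ 32 φ^4 + (2N)(18 N M) x^3/n ≤ 32/x^12 + 72 N^3 e x^3/n ≤ 32/x^12 + 72/x ≤ exp (-1)`.
So `(θ/φ)^M ≤ exp (-M) ≤ exp (-N e)`.  `exp(-e)^(N-3) = exp (-(N-3) e)`, `2^(N+1) ≤ 2 exp (0.7 N) ≤ 2 exp (0.7 e)`: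
the quotient is at most `2 exp (0.7 e - 3 e) + exp (-6 e) ≤ exp (-e)` (`e ≥ 30`).
`paramLev0` (`e = 4`): `exp N (2^(N+1) exp (-4 (N-3)) + exp (-4N)) ≤ 2 exp (0.7 N + N - 4 N + 12) + exp (-3N) ≤ exp (-N)` for `N ≥ 30`.
-/

open Finset Filter Topology

namespace Pool.Agent.RCG

private theorem paramLev_aux : ∀ᶠ n : ℕ in atTop, ∀ (N : ℕ) (e : ℝ), 30 ≤ N → 4 ≤ e →
    (N : ℝ) ^ 3 * e ≤ n / Real.log n ^ 4 →
    ∃ M : ℕ, 4 * N * M + 4 ≤ n ∧
      (((2 * (1 / Real.log n ^ 3)) ^ 5 + (N + 1) * ((8 * N * M + 10) / n)) /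
          (1 / Real.log n ^ 3)) ^ M ≤ Real.exp (-((N : ℝ) * e)) := by
  have h1 : ∀ᶠ n : ℕ in atTop, (1000 : ℝ) ≤ Real.log n :=
    (Real.tendsto_log_atTop.comp tendsto_natCast_atTop_atTop).eventually_ge_atTop 1000
  filter_upwards [h1, eventually_ge_atTop 8] with n hx hn8 N e hN he h
  set x := Real.log n with hxdef
  have hx0 : 0 < x := by linarith
  have hn : (8 : ℝ) ≤ n := by exact_mod_cast hn8
  have hn0 : (0 : ℝ) < n := by linarith
  have hN' : (30 : ℝ) ≤ N := by exact_mod_cast hN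
  have hNe : (120 : ℝ) ≤ N * e := by nlinarith
  refine ⟨⌈(N : ℝ) * e⌉₊, ?_, ?_⟩
  all_goals
    have hM1 : (N : ℝ) * e ≤ (⌈(N : ℝ) * e⌉₊ : ℝ) := Nat.le_ceil _
    have hM2 : (⌈(N : ℝ) * e⌉₊ : ℝ) ≤ 2 * (N * e) := by
      have := Nat.ceil_lt_add_one (show 0 ≤ (N : ℝ) * e by linarith)
      linarith
    set M := ⌈(N : ℝ) * e⌉₊ with hM
    have hM0 : (0 : ℝ) ≤ M := by positivity
    have hMN : (1 : ℝ) ≤ N * M := by nlinarith
    have hN3 : (N : ℝ) * M ≤ 2 * (N ^ 2 * e) := by nlinarith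
    have hN4 : (N : ℝ) ^ 2 * M ≤ 2 * (N ^ 3 * e) := by
      have : (N : ℝ) ^ 2 * M ≤ N ^ 2 * (2 * (N * e)) := by gcongr
      linarith [this, show (N : ℝ) ^ 2 * (2 * (N * e)) = 2 * (N ^ 3 * e) by ring]
    have hx4 : 0 < x ^ 4 := by positivity
    have h' : (N : ℝ) ^ 3 * e * x ^ 4 ≤ n := by rwa [le_div_iff₀ hx4] at h
  · have h5 : (N : ℝ) * M ≤ 2 * (N ^ 3 * e) := by
      have : (N : ℝ) * M ≤ N ^ 2 * M := by
        have : (N : ℝ) ≤ N ^ 2 := by nlinarith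
        gcongr
      linarith
    have h6 : (N : ℝ) ^ 3 * e * 16 ≤ n := by
      have h7 : (16 : ℝ) ≤ x ^ 4 := by
        have : (2 : ℝ) ^ 4 ≤ x ^ 4 := by gcongr; linarith
        linarith
      have h8 : (0 : ℝ) ≤ (N : ℝ) ^ 3 * e := by positivity
      have h9 : (N : ℝ) ^ 3 * e * 16 ≤ (N : ℝ) ^ 3 * e * x ^ 4 := mul_le_mul_of_nonneg_left h7 h8
      linarith
    have h9 : ((4 * N * M + 4 : ℕ) : ℝ) ≤ n := by
      push_cast
      nlinarith
    exact_mod_cast h9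
  · have hth : ((2 * (1 / x ^ 3)) ^ 5 + ((N : ℝ) + 1) * ((8 * N * M + 10) / n)) / (1 / x ^ 3) =
        32 / x ^ 12 + (N + 1) * (8 * N * M + 10) * x ^ 3 / n := by
      field_simp
      ring
    have ha : 32 / x ^ 12 ≤ (1 : ℝ) / 10 := by
      have h7 : (1000 : ℝ) ^ 12 ≤ x ^ 12 := by gcongr
      rw [div_le_div_iff₀ (by positivity) (by norm_num)]
      linarith [h7, show (320 : ℝ) ≤ 1000 ^ 12 by norm_num]
    have hb : ((N : ℝ) + 1) * (8 * N * M + 10) * x ^ 3 / n ≤ 72 / 1000 := by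
      rw [div_le_div_iff₀ hn0 (by norm_num)]
      have h2 : ((N : ℝ) + 1) * (8 * N * M + 10) ≤ 36 * (N ^ 2 * M) := by
        have h3 : (N : ℝ) + 1 ≤ 2 * N := by linarith
        have h4 : 8 * (N : ℝ) * M + 10 ≤ 18 * (N * M) := by nlinarith
        calc ((N : ℝ) + 1) * (8 * N * M + 10) ≤ (2 * N) * (18 * (N * M)) := by gcongr
          _ = 36 * (N ^ 2 * M) := by ring
      have h5 : ((N : ℝ) + 1) * (8 * N * M + 10) * x ^ 3 ≤ 72 * (N ^ 3 * e) * x ^ 3 := by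
        have : 36 * ((N : ℝ) ^ 2 * M) ≤ 72 * (N ^ 3 * e) := by linarith
        have h6 := h2.trans this
        gcongr
      have h6 : 1000 * ((N : ℝ) ^ 3 * e * x ^ 3) ≤ n := by
        have h8 : (0 : ℝ) ≤ (N : ℝ) ^ 3 * e * x ^ 3 := by positivity
        calc 1000 * ((N : ℝ) ^ 3 * e * x ^ 3) ≤ x * ((N : ℝ) ^ 3 * e * x ^ 3) := by gcongr
          _ = (N : ℝ) ^ 3 * e * x ^ 4 := by ring
          _ ≤ n := h'
      nlinarith
    have hexp : (36 : ℝ) / 100 ≤ Real.exp (-1) := by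
      rw [Real.exp_neg, ← one_div, div_le_div_iff₀ (by norm_num) (Real.exp_pos _)]
      have := Real.exp_one_lt_d9
      linarith
    have hle : ((2 * (1 / x ^ 3)) ^ 5 + ((N : ℝ) + 1) * ((8 * N * M + 10) / n)) / (1 / x ^ 3) ≤
        Real.exp (-1) := by
      rw [hth]
      linarith
    have hnn : 0 ≤ ((2 * (1 / x ^ 3)) ^ 5 + ((N : ℝ) + 1) * ((8 * N * M + 10) / n)) /
        (1 / x ^ 3) := by positivity
    calc (((2 * (1 / x ^ 3)) ^ 5 + ((N : ℝ) + 1) * ((8 * N * M + 10) / n)) / (1 / x ^ 3)) ^ M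
        ≤ Real.exp (-1) ^ M := pow_le_pow_left₀ hnn hle M
      _ = Real.exp (-(M : ℝ)) := by
          rw [← Real.exp_nat_mul]
          congr 1
          ring
      _ ≤ Real.exp (-((N : ℝ) * e)) := by
          apply Real.exp_le_exp.mpr
          linarith

private theorem two_pow_le_exp (N : ℕ) : (2 : ℝ) ^ (N + 1) ≤ 2 * Real.exp (7 / 10 * N) := by
  have h1 : (2 : ℝ) = Real.exp (Real.log 2) := (Real.exp_log (by norm_num)).symm
  have h2 : (2 : ℝ) ^ N ≤ Real.exp (7 / 10 * N) := by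
    calc (2 : ℝ) ^ N = Real.exp (Real.log 2) ^ N := by rw [← h1]
      _ = Real.exp (N * Real.log 2) := by rw [← Real.exp_nat_mul]
      _ ≤ Real.exp (7 / 10 * N) := by
          apply Real.exp_le_exp.mpr
          have := Real.log_two_lt_d9
          have hN : (0 : ℝ) ≤ N := by positivity
          nlinarith
  rw [pow_succ]
  linarith

private theorem exp_neg_le_inv (t : ℝ) (ht : 0 ≤ t) : Real.exp (-t) ≤ 1 / (1 + t) := by
  rw [Real.exp_neg, ← one_div]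
  apply one_div_le_one_div_of_le (by linarith)
  have := Real.add_one_le_exp t
  linarith

theorem paramLev : ∀ᶠ n : ℕ in atTop, ∀ (N : ℕ) (e : ℝ), 30 ≤ N → (N : ℝ) ≤ e →
    (N : ℝ) ^ 3 * e ≤ n / Real.log n ^ 4 →
    ∃ M : ℕ, 4 * N * M + 4 ≤ n ∧
      (2 ^ (N + 1) * Real.exp (-e) ^ (N - 3) +
        (((2 * (1 / Real.log n ^ 3)) ^ 5 + (N + 1) * ((8 * N * M + 10) / n)) /
          (1 / Real.log n ^ 3)) ^ M) / Real.exp (-(((N : ℝ) - 6) * e)) ≤ Real.exp (-e) := by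
  filter_upwards [paramLev_aux] with n hn N e hN hNe h
  have hN' : (30 : ℝ) ≤ N := by exact_mod_cast hN
  obtain ⟨M, hM1, hM2⟩ := hn N e hN (by linarith) h
  refine ⟨M, hM1, ?_⟩
  rw [div_le_iff₀ (Real.exp_pos _), ← Real.exp_add]
  have h1 : Real.exp (-e) ^ (N - 3) = Real.exp (-(((N : ℝ) - 3) * e)) := by
    rw [← Real.exp_nat_mul]
    congr 1
    rw [Nat.cast_sub (by omega)]
    push_cast
    ring
  have h2 := two_pow_le_exp N
  have h3 : (2 : ℝ) ^ (N + 1) * Real.exp (-e) ^ (N - 3) ≤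
      2 * Real.exp (-(((N : ℝ) - 3) * e) + 7 / 10 * e) := by
    rw [h1]
    calc (2 : ℝ) ^ (N + 1) * Real.exp (-(((N : ℝ) - 3) * e))
        ≤ (2 * Real.exp (7 / 10 * N)) * Real.exp (-(((N : ℝ) - 3) * e)) := by gcongr
      _ = 2 * Real.exp (-(((N : ℝ) - 3) * e) + 7 / 10 * N) := by
          rw [mul_assoc, ← Real.exp_add]
          congr 2
          ring
      _ ≤ 2 * Real.exp (-(((N : ℝ) - 3) * e) + 7 / 10 * e) := by
          have : -(((N : ℝ) - 3) * e) + 7 / 10 * N ≤ -(((N : ℝ) - 3) * e) + 7 / 10 * e := by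
            linarith
          have := Real.exp_le_exp.mpr this
          linarith
  have h4 : Real.exp (-(((N : ℝ) - 3) * e) + 7 / 10 * e) =
      Real.exp (-e + -(((N : ℝ) - 6) * e)) * Real.exp (-(13 / 10 * e)) := by
    rw [← Real.exp_add]
    congr 1
    ring
  have h5 : Real.exp (-((N : ℝ) * e)) =
      Real.exp (-e + -(((N : ℝ) - 6) * e)) * Real.exp (-(5 * e)) := by
    rw [← Real.exp_add]
    congr 1
    ring
  have h6 : Real.exp (-(13 / 10 * e)) ≤ 1 / 4 := by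
    refine (exp_neg_le_inv _ (by linarith)).trans ?_
    apply one_div_le_one_div_of_le (by norm_num)
    linarith
  have h7 : Real.exp (-(5 * e)) ≤ 1 / 4 := by
    refine (exp_neg_le_inv _ (by linarith)).trans ?_
    apply one_div_le_one_div_of_le (by norm_num)
    linarith
  have h8 := Real.exp_pos (-e + -(((N : ℝ) - 6) * e))
  rw [h4] at h3
  rw [h5] at hM2
  nlinarith

theorem paramLev0 : ∀ᶠ n : ℕ in atTop, ∀ N : ℕ, 30 ≤ N →
    (N : ℝ) ^ 3 * 4 ≤ n / Real.log n ^ 4 →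
    ∃ M : ℕ, 4 * N * M + 4 ≤ n ∧
      (2 ^ (N + 1) * Real.exp (-4) ^ (N - 3) +
        (((2 * (1 / Real.log n ^ 3)) ^ 5 + (N + 1) * ((8 * N * M + 10) / n)) /
          (1 / Real.log n ^ 3)) ^ M) / Real.exp (-(N : ℝ)) ≤ Real.exp (-(N : ℝ)) := by
  filter_upwards [paramLev_aux] with n hn N hN h
  have hN' : (30 : ℝ) ≤ N := by exact_mod_cast hN
  obtain ⟨M, hM1, hM2⟩ := hn N 4 hN (by norm_num) h
  refine ⟨M, hM1, ?_⟩
  rw [div_le_iff₀ (Real.exp_pos _), ← Real.exp_add]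
  have h1 : Real.exp (-4) ^ (N - 3) = Real.exp (-(((N : ℝ) - 3) * 4)) := by
    rw [← Real.exp_nat_mul]
    congr 1
    rw [Nat.cast_sub (by omega)]
    push_cast
    ring
  have h2 := two_pow_le_exp N
  have h3 : (2 : ℝ) ^ (N + 1) * Real.exp (-4) ^ (N - 3) ≤
      2 * (Real.exp (-(N : ℝ) + -(N : ℝ)) * Real.exp (-(13 / 10 * N - 12))) := by
    rw [h1]
    calc (2 : ℝ) ^ (N + 1) * Real.exp (-(((N : ℝ) - 3) * 4))
        ≤ (2 * Real.exp (7 / 10 * N)) * Real.exp (-(((N : ℝ) - 3) * 4)) := by gcongr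
      _ = 2 * (Real.exp (-(N : ℝ) + -(N : ℝ)) * Real.exp (-(13 / 10 * N - 12))) := by
          rw [mul_assoc, ← Real.exp_add, ← Real.exp_add]
          congr 2
          ring
  have h5 : Real.exp (-((N : ℝ) * 4)) =
      Real.exp (-(N : ℝ) + -(N : ℝ)) * Real.exp (-(2 * N)) := by
    rw [← Real.exp_add]
    congr 1
    ring
  have h6 : Real.exp (-(13 / 10 * N - 12)) ≤ 1 / 4 := by
    refine (exp_neg_le_inv _ (by linarith)).trans ?_
    apply one_div_le_one_div_of_le (by norm_num)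
    linarith
  have h7 : Real.exp (-(2 * (N : ℝ))) ≤ 1 / 4 := by
    refine (exp_neg_le_inv _ (by linarith)).trans ?_
    apply one_div_le_one_div_of_le (by norm_num)
    linarith
  have h8 := Real.exp_pos (-(N : ℝ) + -(N : ℝ))
  rw [h5] at hM2
  nlinarith

end Pool.Agent.RCG
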