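import Pool.Agent.W_6acff7b_h70.FsubDim

/-!
# The functions `Phi P`

`Phi P c` = number of `z : A n` with `z⁻¹ c z u = v` for all `(u, v) ∈ P`.

`Phi_map` PROOF: `{z | z⁻¹ c z (a u) = a v} = {z | (z a)⁻¹ c (z a) u = v}`, bijection `z ↦ z a`.
`ch_mem_span_Phi` PROOF: `α ∈ Fsub b` as a vector (`ch_mem`, `lev_spec`, `Fsub_mono`), so `α = ∑ coefficients * indT s t`
(`Fsub_le_span`).  Average over conjugation: `α c = (1/|A n|) ∑_z α (z⁻¹ c z)` (`ch_conj`) and
`∑_z indT s t (z⁻¹ c z) = Phi {(s k, t k)} c`.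
-/

open Finset

namespace Pool.Agent.RCG

variable {n : ℕ} {α : A n → ℝ}

open Classical in
/-- Number of `z` such that `z⁻¹ c z` extends `P`. -/
noncomputable def Phi (P : Finset (Fin n × Fin n)) (c : A n) : ℝ :=
  ((univ.filter fun z : A n => ∀ a ∈ P, (z⁻¹ * c * z).1 a.1 = a.2).card : ℝ)

/-- The arcs `(s k, t k)`. -/
def arcsOf {b : ℕ} (s t : Fin b ↪ Fin n) : Finset (Fin n × Fin n) :=
  univ.image fun k => (s k, t k)

/-- Arcs on the first `2 b` points. -/
def stdArcs {b : ℕ} (h : 2 * b ≤ n) (σ : Equiv.Perm (Fin (2 * b))) (T : Finset (Fin (2 * b))) :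
    Finset (Fin n × Fin n) :=
  T.image fun x => (Fin.castLE h x, Fin.castLE h (σ x))

theorem Phi_map (a : A n) (P : Finset (Fin n × Fin n)) :
    Phi (P.image fun q => (a.1 q.1, a.1 q.2)) = Phi P := by
  classical
  funext c
  unfold Phi
  congr 1
  refine Finset.card_equiv (Equiv.mulRight a) fun z => ?_
  rw [mem_filter, mem_filter]
  refine and_congr (by simp) ?_
  rw [Finset.forall_mem_image]
  refine forall_congr' fun q => forall_congr' fun _ => ?_
  have h1 : ((((Equiv.mulRight a) z)⁻¹ * c * ((Equiv.mulRight a) z) : A n)).1 q.1 =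
      (a.1)⁻¹ ((z⁻¹ * c * z : A n).1 (a.1 q.1)) := by
    rw [Equiv.coe_mulRight, mul_inv_rev]
    simp [Equiv.Perm.mul_apply]
  rw [h1]
  constructor
  · intro h
    rw [h]
    exact Equiv.symm_apply_apply a.1 q.2
  · intro h
    rw [← h]
    exact (Equiv.apply_symm_apply a.1 _).symm

/-- Average over conjugation. -/
noncomputable def PhiA_avg (n : ℕ) : EuclideanSpace ℝ (A n) →ₗ[ℝ] (A n → ℝ) where
  toFun u c := (Fintype.card (A n) : ℝ)⁻¹ * ∑ z : A n, u (z⁻¹ * c * z)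
  map_add' u v := by
    funext c
    simp only [PiLp.add_apply, Pi.add_apply, Finset.sum_add_distrib]
    ring
  map_smul' r u := by
    funext c
    simp only [PiLp.smul_apply, Pi.smul_apply, smul_eq_mul, ← Finset.mul_sum, RingHom.id_apply]
    ring

theorem PhiA_avg_indT {b : ℕ} (s t : Fin b ↪ Fin n) :
    PhiA_avg n (indT s t) = (Fintype.card (A n) : ℝ)⁻¹ • Phi (arcsOf s t) := by
  classical
  funext c
  show (Fintype.card (A n) : ℝ)⁻¹ * ∑ z : A n, (indT s t) (z⁻¹ * c * z) =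
    (Fintype.card (A n) : ℝ)⁻¹ * Phi (arcsOf s t) c
  congr 1
  have h1 : ∀ z : A n, (indT s t) (z⁻¹ * c * z) =
      if ∀ a ∈ arcsOf s t, (z⁻¹ * c * z).1 a.1 = a.2 then (1 : ℝ) else 0 := by
    intro z
    show (if actT (z⁻¹ * c * z) s = t then (1 : ℝ) else 0) = _
    refine if_congr ?_ rfl rfl
    unfold arcsOf
    rw [Finset.forall_mem_image]
    constructor
    · intro h k _
      have h2 := congrArg (fun e : Fin b ↪ Fin n => e k) h
      exact h2
    · intro h
      ext k : 1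
      exact h (mem_univ k)
  rw [Finset.sum_congr rfl (fun z _ => h1 z), Finset.sum_boole]
  unfold Phi
  congr 1

theorem ch_mem_span_Phi (h : IsCh α) {b : ℕ} (hb : lev α ≤ b) (hn : b ≤ n) :
    α ∈ Submodule.span ℝ
      (Set.range fun p : (Fin b ↪ Fin n) × (Fin b ↪ Fin n) => Phi (arcsOf p.1 p.2)) := by
  have h1 : (WithLp.toLp 2 α : EuclideanSpace ℝ (A n)) ∈ Submodule.span ℝ
      (Set.range fun p : (Fin b ↪ Fin n) × (Fin b ↪ Fin n) => indT p.1 p.2) :=
    Fsub_le_span b (Fsub_mono _ hb hn (lev_spec α (ch_mem h)))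
  have h2 : PhiA_avg n (WithLp.toLp 2 α) = α := by
    funext c
    show (Fintype.card (A n) : ℝ)⁻¹ * ∑ z : A n, α (z⁻¹ * c * z) = α c
    simp only [ch_conj h]
    rw [Finset.sum_const, nsmul_eq_mul, Finset.card_univ, ← mul_assoc, inv_mul_cancel₀, one_mul]
    exact Nat.cast_ne_zero.2 Fintype.card_ne_zero
  rw [← h2]
  have h3 := Submodule.mem_map_of_mem (f := PhiA_avg n) h1
  rw [Submodule.map_span] at h3
  refine Submodule.span_le.2 ?_ h3
  rintro _ ⟨_, ⟨p, rfl⟩, rfl⟩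
  show PhiA_avg n (indT p.1 p.2) ∈ _
  rw [PhiA_avg_indT]
  exact Submodule.smul_mem _ _ (Submodule.subset_span ⟨p, rfl⟩)

end Pool.Agent.RCG
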