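import Pool.Agent.W_6acff7b_h70.PhiA
import Pool.Agent.W_MP_6acff7_h70.Trans

/-!
# Standard position

`Phi_std` PROOF.  Given `s t : Fin b ↪ Fin n`, `U = range s ∪ range t` has at most `2 b ≤ n - 2` elements; choose an injection
`e : U → Fin (2 b)` and (`exists_act`, for tuples enumerating `U` and its image) `a : A n` with `a u = castLE (e u)` for `u ∈ U`.  Then
`s' = e ∘ s`, `t' = e ∘ t : Fin b ↪ Fin (2b)`, and there is `σ : Perm (Fin (2b))` with `σ ∘ s' = t'` (an injective map of a subset of a finite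
type extends to a permutation; e.g. `Equiv.Perm.isMultiplyPretransitive` + `isMultiplyPretransitive_iff`, or `Equiv.extendSubtype`).
`T = range s'`.  So `arcsOf s t` is mapped by `a` to `stdArcs σ T`; `Phi_map`.
`Phi_std_conj` PROOF.  If `σ' = y σ y⁻¹` in `Perm (Fin (2b))`, then `y` extends to an element `a` of `A n` on the first `2b` points
(`exists_act` with `Fin (2b) ↪ Fin n`, `2 b + 2 ≤ n`), and `a` maps `stdArcs σ T` to `stdArcs σ' (y T)`; `Phi_map`.
-/

open Finset

namespace Pool.Agent.RCG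

variable {n : ℕ}

theorem PhiStd_ext {b m : ℕ} (s t : Fin b ↪ Fin m) :
    ∃ σ : Equiv.Perm (Fin m), ∀ k, σ (s k) = t k := by
  have h2 : MulAction.IsMultiplyPretransitive (Equiv.Perm (Fin m)) (Fin m) b :=
    Equiv.Perm.isMultiplyPretransitive (Fin m) b
  obtain ⟨g, hg⟩ := MulAction.isMultiplyPretransitive_iff.1 h2 s t
  exact ⟨g, fun k => congrArg (fun e : Fin b ↪ Fin m => e k) hg⟩

theorem PhiStd_cover {b : ℕ} (hb : 2 * b ≤ n) (s t : Fin b ↪ Fin n) :
    ∃ u : Fin (2 * b) ↪ Fin n, (∀ k, ∃ i, u i = s k) ∧ ∀ k, ∃ i, u i = t k := by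
  have h1 : (univ.image s ∪ univ.image t).card ≤ 2 * b := by
    refine (Finset.card_union_le _ _).trans ?_
    have h2 : (univ.image s).card ≤ b := by
      refine Finset.card_image_le.trans ?_
      rw [Finset.card_univ, Fintype.card_fin]
    have h3 : (univ.image t).card ≤ b := by
      refine Finset.card_image_le.trans ?_
      rw [Finset.card_univ, Fintype.card_fin]
    omega
  obtain ⟨U, hU1, hU2, hU3⟩ := Finset.exists_subsuperset_card_eq (Finset.subset_univ _) h1
    (by rw [Finset.card_univ, Fintype.card_fin]; exact hb)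
  refine ⟨(U.equivFinOfCardEq hU3).symm.toEmbedding.trans (Function.Embedding.subtype _), ?_, ?_⟩
  · intro k
    have h4 : s k ∈ U := hU1 (Finset.mem_union_left _ (Finset.mem_image_of_mem _ (mem_univ _)))
    refine ⟨U.equivFinOfCardEq hU3 ⟨s k, h4⟩, ?_⟩
    simp
  · intro k
    have h4 : t k ∈ U := hU1 (Finset.mem_union_right _ (Finset.mem_image_of_mem _ (mem_univ _)))
    refine ⟨U.equivFinOfCardEq hU3 ⟨t k, h4⟩, ?_⟩
    simp

theorem Phi_std {b : ℕ} (hb : 2 * b + 2 ≤ n) (s t : Fin b ↪ Fin n) :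
    ∃ (σ : Equiv.Perm (Fin (2 * b))) (T : Finset (Fin (2 * b))),
      Phi (arcsOf s t) = Phi (stdArcs (by omega : 2 * b ≤ n) σ T) := by
  have h2 : 2 * b ≤ n := by omega
  obtain ⟨u, hs, ht⟩ := PhiStd_cover h2 s t
  choose s' hs' using hs
  choose t' ht' using ht
  have hs'i : Function.Injective s' := fun i j hij => s.injective (by rw [← hs', ← hs', hij])
  have ht'i : Function.Injective t' := fun i j hij => t.injective (by rw [← ht', ← ht', hij])
  obtain ⟨σ, hσ⟩ := PhiStd_ext (⟨s', hs'i⟩ : Fin b ↪ Fin (2 * b)) ⟨t', ht'i⟩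
  obtain ⟨a, ha⟩ := exists_act hb u (Fin.castLEEmb h2)
  have ha' : ∀ k, a.1 (u k) = Fin.castLE h2 k := fun k =>
    congrArg (fun e : Fin (2 * b) ↪ Fin n => e k) ha
  refine ⟨σ, univ.image s', ?_⟩
  have key : (arcsOf s t).image (fun q => (a.1 q.1, a.1 q.2)) =
      stdArcs h2 σ (univ.image s') := by
    unfold arcsOf stdArcs
    rw [Finset.image_image, Finset.image_image]
    refine Finset.image_congr fun k _ => ?_
    show (a.1 (s k), a.1 (t k)) = (Fin.castLE h2 (s' k), Fin.castLE h2 (σ (s' k)))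
    have h5 : σ (s' k) = t' k := hσ k
    rw [h5, ← hs', ← ht', ha', ha']
  rw [← Phi_map a, key]

theorem Phi_std_conj {b : ℕ} (hb : 2 * b + 2 ≤ n) (σ σ' : Equiv.Perm (Fin (2 * b)))
    (h : IsConj σ σ') (T : Finset (Fin (2 * b))) :
    ∃ T' : Finset (Fin (2 * b)), Phi (stdArcs (by omega : 2 * b ≤ n) σ T) =
      Phi (stdArcs (by omega : 2 * b ≤ n) σ' T') := by
  have h2 : 2 * b ≤ n := by omega
  obtain ⟨y, hy⟩ := isConj_iff.1 h
  obtain ⟨a, ha⟩ := exists_act hb (Fin.castLEEmb h2) (y.toEmbedding.trans (Fin.castLEEmb h2))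
  have ha' : ∀ k, a.1 (Fin.castLE h2 k) = Fin.castLE h2 (y k) := fun k =>
    congrArg (fun e : Fin (2 * b) ↪ Fin n => e k) ha
  refine ⟨T.image y, ?_⟩
  have key : (stdArcs h2 σ T).image (fun q => (a.1 q.1, a.1 q.2)) =
      stdArcs h2 σ' (T.image y) := by
    unfold stdArcs
    rw [Finset.image_image, Finset.image_image]
    refine Finset.image_congr fun k _ => ?_
    show (a.1 (Fin.castLE h2 k), a.1 (Fin.castLE h2 (σ k))) =
      (Fin.castLE h2 (y k), Fin.castLE h2 (σ' (y k)))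
    have h5 : σ' (y k) = y (σ k) := by
      rw [← hy]
      show y (σ (y.symm (y k))) = y (σ k)
      rw [Equiv.symm_apply_apply]
    rw [h5, ha', ha']
  rw [← Phi_map a, key]

end Pool.Agent.RCG
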