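import Pool.Agent.W_6acff7b_h70.Ch

/-!
# The quantities `rr α w`

PROOF of `rr_dbl`.  `(dbl w z (i,j))⁻¹ * dbl w z (i',j') = (w j)⁻¹ z⁻¹ (w i)⁻¹ w i' z w j'`, and by `ch_mul` its `α` is
`α (z⁻¹ g z h)`, `g = (w i)⁻¹ w i'`, `h = w j' (w j)⁻¹`.  The sum over all `i, i'` is unchanged by `i ↔ i'`, `g ↔ g⁻¹`; so
`∑_z ∑_{i,i'} α (z⁻¹ g z h) = (1/2) ∑_{i,i'} ∑_z (α (z⁻¹ g z h) + α (z⁻¹ g⁻¹ z h)) = |G| ∑_{i,i'} α g α h` (`ch_fun`), and
`α (w j' (w j)⁻¹) = α ((w j)⁻¹ w j')` (`ch_mul`).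
-/

open Finset

namespace Pool.Agent.RCG

variable {G : Type*} [Group G] [Fintype G] {α : G → ℝ}

theorem rr_nonneg (h : IsCh α) {ι : Type*} [Fintype ι] (w : ι → G) : 0 ≤ rr α w :=
  mul_nonneg (inv_nonneg.2 (by positivity)) (ch_pos h w)

theorem rr_one {ι : Type*} [Fintype ι] [Nonempty ι] (w : ι → G) : rr (1 : G → ℝ) w = 1 := by
  have h : (Fintype.card ι : ℝ) ≠ 0 := by
    exact_mod_cast Fintype.card_ne_zero
  simp only [rr, Pi.one_apply, sum_const, card_univ, nsmul_eq_mul, mul_one]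
  field_simp

theorem rr_reindex {ι ι' : Type*} [Fintype ι] [Fintype ι'] (e : ι' ≃ ι) (w : ι → G) :
    rr α (fun i => w (e i)) = rr α w := by
  unfold rr
  rw [Fintype.card_congr e]
  congr 1
  rw [← Equiv.sum_comp e (fun i => ∑ j, α ((w i)⁻¹ * w j))]
  refine Finset.sum_congr rfl fun i _ => ?_
  exact Equiv.sum_comp e (fun j => α ((w (e i))⁻¹ * w j))

theorem RR_aux (h : IsCh α) {ι : Type*} [Fintype ι] (w : ι → G) (b : G) :
    ∑ z : G, ∑ i, ∑ i', α (z⁻¹ * ((w i)⁻¹ * w i') * z * b) =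
      Fintype.card G * ((∑ i, ∑ i', α ((w i)⁻¹ * w i')) * α b) := by
  have h1 : ∑ z : G, ∑ i, ∑ i', α (z⁻¹ * ((w i)⁻¹ * w i') * z * b) =
      ∑ i, ∑ i', ∑ z : G, α (z⁻¹ * ((w i)⁻¹ * w i') * z * b) := by
    rw [Finset.sum_comm]
    refine Finset.sum_congr rfl fun i _ => ?_
    rw [Finset.sum_comm]
  have h2 : ∑ i, ∑ i', ∑ z : G, α (z⁻¹ * ((w i)⁻¹ * w i') * z * b) =
      ∑ i, ∑ i', ∑ z : G, α (z⁻¹ * ((w i)⁻¹ * w i')⁻¹ * z * b) := by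
    rw [Finset.sum_comm]
    refine Finset.sum_congr rfl fun i _ => Finset.sum_congr rfl fun i' _ =>
      Finset.sum_congr rfl fun z _ => ?_
    rw [mul_inv_rev, inv_inv]
  have h3 : ∑ i, ∑ i', ∑ z : G, (α (z⁻¹ * ((w i)⁻¹ * w i') * z * b) +
      α (z⁻¹ * ((w i)⁻¹ * w i')⁻¹ * z * b)) =
      ∑ i, ∑ i', 2 * (Fintype.card G : ℝ) * (α ((w i)⁻¹ * w i') * α b) :=
    Finset.sum_congr rfl fun i _ => Finset.sum_congr rfl fun i' _ => ch_fun h _ _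
  simp only [Finset.sum_add_distrib] at h3
  rw [← h2] at h3
  rw [h1]
  have h4 : ∑ i, ∑ i', 2 * (Fintype.card G : ℝ) * (α ((w i)⁻¹ * w i') * α b) =
      2 * ((Fintype.card G : ℝ) * ((∑ i, ∑ i', α ((w i)⁻¹ * w i')) * α b)) := by
    simp only [Finset.sum_mul, Finset.mul_sum]
    refine Finset.sum_congr rfl fun i _ => Finset.sum_congr rfl fun i' _ => ?_
    ring
  rw [h4] at h3
  linarith

theorem RR_swap {ι : Type*} [Fintype ι] (f : ι → ι → ι → ι → ℝ) :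
    ∑ p : ι × ι, ∑ q : ι × ι, f p.1 p.2 q.1 q.2 = ∑ j, ∑ j', ∑ i, ∑ i', f i j i' j' := by
  simp only [Fintype.sum_prod_type]
  rw [Finset.sum_comm]
  refine Finset.sum_congr rfl fun j _ => ?_
  have : ∀ i, ∑ i', ∑ j', f i j i' j' = ∑ j', ∑ i', f i j i' j' := fun i => Finset.sum_comm
  simp only [this]
  rw [Finset.sum_comm]

theorem rr_dbl (h : IsCh α) {ι : Type*} [Fintype ι] (w : ι → G) :
    ∑ z : G, rr α (dbl w z) = Fintype.card G * rr α w ^ 2 := by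
  have key : ∑ z : G, ∑ p : ι × ι, ∑ p' : ι × ι, α ((dbl w z p)⁻¹ * dbl w z p') =
      Fintype.card G * (∑ i, ∑ j, α ((w i)⁻¹ * w j)) ^ 2 := by
    have e1 : ∀ z : G, ∑ p : ι × ι, ∑ p' : ι × ι, α ((dbl w z p)⁻¹ * dbl w z p') =
        ∑ j, ∑ j', ∑ i, ∑ i', α (z⁻¹ * ((w i)⁻¹ * w i') * z * (w j' * (w j)⁻¹)) := by
      intro z
      have e2 : ∀ p p' : ι × ι, α ((dbl w z p)⁻¹ * dbl w z p') =
          α (z⁻¹ * ((w p.1)⁻¹ * w p'.1) * z * (w p'.2 * (w p.2)⁻¹)) := by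
        intro p p'
        have e3 : (dbl w z p)⁻¹ * dbl w z p' = (w p.2)⁻¹ *
            (z⁻¹ * ((w p.1)⁻¹ * w p'.1) * z * w p'.2) := by
          simp only [dbl]
          group
        rw [e3, ch_mul h]
        congr 1
        group
      simp only [e2]
      exact RR_swap (fun i j i' j' => α (z⁻¹ * ((w i)⁻¹ * w i') * z * (w j' * (w j)⁻¹)))
    simp only [e1]
    have e4 : ∑ z : G, ∑ j, ∑ j', ∑ i, ∑ i', α (z⁻¹ * ((w i)⁻¹ * w i') * z * (w j' * (w j)⁻¹)) =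
        ∑ j, ∑ j', ∑ z : G, ∑ i, ∑ i', α (z⁻¹ * ((w i)⁻¹ * w i') * z * (w j' * (w j)⁻¹)) := by
      rw [Finset.sum_comm]
      refine Finset.sum_congr rfl fun j _ => ?_
      rw [Finset.sum_comm]
    rw [e4]
    have e5 : ∀ j j' : ι, ∑ z : G, ∑ i, ∑ i',
        α (z⁻¹ * ((w i)⁻¹ * w i') * z * (w j' * (w j)⁻¹)) =
        Fintype.card G * ((∑ i, ∑ i', α ((w i)⁻¹ * w i')) * α ((w j)⁻¹ * w j')) := by
      intro j j'
      rw [RR_aux h w, ch_mul h (w j')]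
    simp only [e5, ← Finset.mul_sum]
    ring
  unfold rr
  rw [← Finset.mul_sum, key, Fintype.card_prod]
  push_cast
  by_cases hc : (Fintype.card ι : ℝ) = 0
  · simp [hc]
  · field_simp

end Pool.Agent.RCG
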