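import Pool.Agent.W_6acff7b_h70.StepSpA

/-!
# The doubling step

PROOF.  Let the family `w : Fin k → A n` have `rr α w ≤ c α ^ Q` for `α ∈ chars1`.  Markov (`pr_markov`, `rr_nonneg`, `rr_dbl`) gives
`pr (fun z => c α^(2Q-1) < rr α (dbl w z)) ≤ (rr α w)^2/c α^(2Q-1) ≤ c α`; union bound over `α ∈ chars1` (`pr_exists_le`: induction on
the finset with `pr_or`, or a direct count), reindex `Fin k × Fin k` by `Fin (k * k)` (`rr_reindex`, `finProdFinEquiv`), words of
length `l + 1 + l`; `Fin 1 → A n` is `A n` (`Equiv.funUnique`, as in `stepB`).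
-/

open Finset

namespace Pool.Agent.RCG

variable {n : ℕ}

theorem pr_exists_le {α β : Type*} [Fintype α] [Nonempty α] (s : Finset β) (p : β → α → Prop)
    (f : β → ℝ) (h : ∀ b ∈ s, pr (p b) ≤ f b) : pr (fun a => ∃ b ∈ s, p b a) ≤ ∑ b ∈ s, f b := by
  classical
  induction s using Finset.induction_on with
  | empty =>
    have h1 : pr (fun _ : α => False) ≤ 0 := by
      unfold pr
      simp
    refine le_trans (pr_mono (Q := fun _ : α => False) ?_) (by simpa using h1)
    rintro a ⟨b, hb, -⟩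
    exact absurd hb (Finset.notMem_empty b)
  | insert b s hb ih =>
    rw [Finset.sum_insert hb]
    have h1 : pr (fun a => ∃ b' ∈ insert b s, p b' a) ≤
        pr (fun a => p b a ∨ ∃ b' ∈ s, p b' a) := by
      refine pr_mono ?_
      rintro a ⟨b', hb', hp⟩
      rcases Finset.mem_insert.1 hb' with rfl | hb'
      · exact Or.inl hp
      · exact Or.inr ⟨b', hb', hp⟩
    have h2 := pr_or (p b) (fun a => ∃ b' ∈ s, p b' a)
    have h3 := h b (Finset.mem_insert_self b s)
    have h4 := ih (fun b' hb' => h b' (Finset.mem_insert_of_mem hb'))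
    linarith

theorem stepD {l Q : ℕ} {ε : ℝ} (c : (A n → ℝ) → ℝ) (hQ : 1 ≤ Q)
    (hc : ∀ α ∈ chars1 (A n), 0 < c α) (hε : ∑ α ∈ chars1 (A n), c α ≤ ε) :
    Step n 1 ε (HasSp n l Q c) (HasSp n (2 * l + 1) (2 * Q - 1) c) := by
  classical
  rintro S ⟨k, hk, w, hw, hsp⟩
  have key : ∀ y : A n, (∀ α ∈ chars1 (A n), rr α (dbl w y) ≤ c α ^ (2 * Q - 1)) →
      ∀ S' : Set (A n), S ⊆ S' → y ∈ S' → HasSp n (2 * l + 1) (2 * Q - 1) c S' := by
    intro y hy S' hSS hyS
    refine ⟨k * k, Nat.mul_pos hk hk, fun i => dbl w y (finProdFinEquiv.symm i), ?_, ?_⟩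
    · intro i
      have h1 := (((hw (finProdFinEquiv.symm i).1).mono hSS le_rfl).mul (WL.of_mem hyS)).mul
        ((hw (finProdFinEquiv.symm i).2).mono hSS le_rfl)
      have h2 : l + 1 + l = 2 * l + 1 := by ring
      rw [h2] at h1
      exact h1
    · intro α hα
      rw [rr_reindex (α := α) finProdFinEquiv.symm (dbl w y)]
      exact hy α hα
  have hmark : ∀ α ∈ chars1 (A n),
      pr (fun y : A n => c α ^ (2 * Q - 1) < rr α (dbl w y)) ≤ c α := by
    intro α hα
    have hch : IsCh α := (mem_chars1.1 hα).1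
    have hpos := hc α hα
    have hpow : 0 < c α ^ (2 * Q - 1) := pow_pos hpos _
    have h1 := pr_markov (fun y : A n => rr α (dbl w y)) (fun y => rr_nonneg hch _)
      (c α ^ (2 * Q - 1)) (rr α w ^ 2) hpow (by rw [rr_dbl hch w, mul_comm])
    refine h1.trans ?_
    rw [div_le_iff₀ hpow]
    have h2 : c α * c α ^ (2 * Q - 1) = (c α ^ Q) ^ 2 := by
      rw [← pow_succ', ← pow_mul]
      congr 1
      omega
    rw [h2]
    exact pow_le_pow_left₀ (rr_nonneg hch w) (hsp α hα) 2
  have h1 := pr_congr (Equiv.funUnique (Fin 1) (A n))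
    (fun y : A n => ∃ α ∈ chars1 (A n), c α ^ (2 * Q - 1) < rr α (dbl w y))
  refine le_trans (pr_mono (Q := fun z : Fin 1 → A n => ∃ α ∈ chars1 (A n),
      c α ^ (2 * Q - 1) < rr α (dbl w (Equiv.funUnique (Fin 1) (A n) z))) ?_)
    (le_trans (le_of_eq h1) ?_)
  · intro z hz
    by_contra hlt
    apply hz
    have h2 : Equiv.funUnique (Fin 1) (A n) z = z 0 := rfl
    push Not at hlt
    rw [h2] at hlt
    exact key (z 0) hlt _ Set.subset_union_left (Or.inr ⟨0, rfl⟩)
  · exact (pr_exists_le (chars1 (A n))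
      (fun α (y : A n) => c α ^ (2 * Q - 1) < rr α (dbl w y)) c hmark).trans hε

end Pool.Agent.RCG
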